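import Pool.Agent.K3h92.Multi

/-!
# The chain of bisections
-/

set_option autoImplicit false
set_option linter.unusedSimpArgs false
set_option linter.unusedSectionVars false

open Matrix
open scoped RealInnerProductSpace

namespace Pool.Agent.K3h92

section foldstep

variable {ι β : Type} [Fintype ι] [DecidableEq ι] [Fintype β] [DecidableEq β] (F : Fold ι β)
  {V : Type} [NormedAddCommGroup V] [InnerProductSpace ℝ V] [FiniteDimensional ℝ V]
  (R : LieRep ι V)

/-- The vectors killed by the generators joining `a` and `τ a`. -/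
def LieRep.InvT {ι : Type} [DecidableEq ι] (R : LieRep ι V) (τ : ι → ι) : Submodule ℝ V :=
  ⨅ a : ι, LinearMap.ker (R.A a (τ a))

omit [FiniteDimensional ℝ V] in
lemma LieRep.mem_InvT {ι : Type} [DecidableEq ι] (R : LieRep ι V) (τ : ι → ι) (v : V) :
    v ∈ R.InvT τ ↔ ∀ a, R.A a (τ a) v = 0 := by
  simp [LieRep.InvT, Submodule.mem_iInf]

lemma Fold.step (ε : ℝ)
    (hε : ∀ z, (∃ a, F.col a = z) → 4 ≤ Fintype.card (F.half z) ∧
      eps (Fintype.card (F.half z)) ≤ ε) (v : V) :
    ‖(R.Inv (fun a => (F.col a, F.side a))).starProjection v - (R.Inv F.col).starProjection v‖ ≤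
      Real.sqrt ε * ‖v - (R.Inv F.col).starProjection v‖ +
        ‖v - (R.InvT F.τ).starProjection v‖ := by
  set Wc := R.Inv F.col with hWc
  set Wf := R.Inv (fun a => (F.col a, F.side a)) with hWf
  set WT := R.InvT F.τ with hWT
  have hcf : Wc ≤ Wf := by
    intro w hw
    rw [hWf, R.mem_Inv]
    rw [hWc, R.mem_Inv] at hw
    intro a b hab
    exact hw a b (Prod.ext_iff.1 hab).1
  have hcT : Wc ≤ WT := by
    intro w hw
    rw [hWT, R.mem_InvT]
    rw [hWc, R.mem_Inv] at hw
    intro a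
    exact hw _ _ (F.col_τ a).symm
  set g := Wf.starProjection v - Wc.starProjection v with hg
  have hgf : g ∈ Wf := Wf.sub_mem (Submodule.starProjection_apply_mem _ _)
    (hcf (Submodule.starProjection_apply_mem _ _))
  have hgc : g ∈ Wcᗮ := by
    rw [Submodule.mem_orthogonal]
    intro w hw
    have e1 : ⟪w, Wf.starProjection v⟫ = ⟪w, v⟫ := by
      rw [← Submodule.inner_starProjection_left_eq_right,
        Submodule.starProjection_eq_self_iff.2 (hcf hw)]
    have e2 : ⟪w, Wc.starProjection v⟫ = ⟪w, v⟫ := by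
      rw [← Submodule.inner_starProjection_left_eq_right,
        Submodule.starProjection_eq_self_iff.2 hw]
    rw [hg, inner_sub_right, e1, e2, sub_self]
  have h0 : ∀ w ∈ Wc, ⟪g, w⟫ = 0 := fun w hw =>
    Submodule.inner_left_of_mem_orthogonal hw hgc
  set v' := v - Wc.starProjection v with hv'
  have h1 : ‖g‖ ^ 2 = ⟪g, v'⟫ := by
    have e1 : ⟪g, Wf.starProjection v⟫ = ⟪g, v⟫ := by
      rw [← Submodule.inner_starProjection_left_eq_right,
        Submodule.starProjection_eq_self_iff.2 hgf]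
    rw [hv', inner_sub_right, h0 _ (Submodule.starProjection_apply_mem _ _), sub_zero, ← e1,
      ← real_inner_self_eq_norm_sq]
    conv_lhs => rw [hg]
    rw [← hg, inner_sub_right, h0 _ (Submodule.starProjection_apply_mem _ _), sub_zero]
  have h2 : WT.starProjection v' = WT.starProjection v - Wc.starProjection v := by
    rw [hv', map_sub, Submodule.starProjection_eq_self_iff.2
      (hcT (Submodule.starProjection_apply_mem _ _))]
  have h3 : v' - WT.starProjection v' = v - WT.starProjection v := by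
    rw [h2, hv']; abel
  have h4 : |⟪g, WT.starProjection v'⟫| ≤ Real.sqrt ε * (‖g‖ * ‖WT.starProjection v'‖) := by
    refine F.angle R ε hε Finset.univ ?_ ?_ ?_
    · intro a b h5 h6
      rw [hWf, R.mem_Inv] at hgf
      exact hgf a b (Prod.ext_iff.2 ⟨h5, h6⟩)
    · have := (R.mem_InvT F.τ _).1 (Submodule.starProjection_apply_mem WT v')
      exact this
    · rw [Finset.coe_univ, R.InvK_univ]
      exact hgc
  have h5 : ‖WT.starProjection v'‖ ≤ ‖v'‖ := by
    have := proj_pyth WT v'
    exact le_of_sq_le_sq (by nlinarith [sq_nonneg ‖v' - WT.starProjection v'‖]) (norm_nonneg _)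
  have h6 : ⟪g, v'⟫ = ⟪g, WT.starProjection v'⟫ + ⟪g, v - WT.starProjection v⟫ := by
    rw [← h3, ← inner_add_right]
    congr 1
    abel
  have h7 : ‖g‖ * ‖g‖ ≤ ‖g‖ * (Real.sqrt ε * ‖v'‖ + ‖v - WT.starProjection v‖) := by
    rw [← pow_two, h1, h6]
    have e1 := le_trans (le_abs_self _) h4
    have e2 := real_inner_le_norm g (v - WT.starProjection v)
    have e3 : Real.sqrt ε * (‖g‖ * ‖WT.starProjection v'‖) ≤ Real.sqrt ε * (‖g‖ * ‖v'‖) := by
      gcongr
    nlinarith
  rcases (norm_nonneg g).eq_or_lt with h8 | h8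
  · rw [← h8]
    positivity
  · exact le_of_mul_le_mul_left h7 h8

lemma Fold.step_sq (ε : ℝ) (hε0 : 0 ≤ ε) (hε1 : ε ≤ 1)
    (hε : ∀ z, (∃ a, F.col a = z) → 4 ≤ Fintype.card (F.half z) ∧
      eps (Fintype.card (F.half z)) ≤ ε) (v : V) (hv : ‖v‖ ≤ 1) {δ : ℝ} (hδ1 : δ ≤ 1)
    (hδ : ‖v - (R.InvT F.τ).starProjection v‖ ≤ δ) :
    (1 - ε) * ‖v - (R.Inv F.col).starProjection v‖ ^ 2 - 3 * δ ≤
    ‖v - (R.Inv (fun a => (F.col a, F.side a))).starProjection v‖ ^ 2 := by
  have h := F.step R ε hε v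
  set Wc := R.Inv F.col with hWc
  set Wf := R.Inv (fun a => (F.col a, F.side a)) with hWf
  have hcf : Wc ≤ Wf := by
    intro w hw
    rw [hWf, R.mem_Inv]
    rw [hWc, R.mem_Inv] at hw
    intro a b hab
    exact hw a b (Prod.ext_iff.1 hab).1
  -- Pythagoras
  have h1 : ‖v - Wc.starProjection v‖ ^ 2 = ‖v - Wf.starProjection v‖ ^ 2 +
      ‖Wf.starProjection v - Wc.starProjection v‖ ^ 2 := by
    have e1 : ⟪v - Wf.starProjection v, Wf.starProjection v - Wc.starProjection v⟫ = 0 :=
      Submodule.inner_left_of_mem_orthogonal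
        (Wf.sub_mem (Submodule.starProjection_apply_mem _ _)
          (hcf (Submodule.starProjection_apply_mem _ _)))
        (Submodule.sub_starProjection_mem_orthogonal (K := Wf) v)
    have e2 := norm_add_sq_real (v - Wf.starProjection v)
      (Wf.starProjection v - Wc.starProjection v)
    rw [e1, sub_add_sub_cancel] at e2
    linarith
  set y := ‖v - Wc.starProjection v‖ with hy
  have hy0 : 0 ≤ y := norm_nonneg _
  have hy1 : y ≤ 1 := (proj_norm_le Wc v).trans hv
  have hδ0 : 0 ≤ δ := (norm_nonneg _).trans hδ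
  have hs0 : 0 ≤ Real.sqrt ε := Real.sqrt_nonneg _
  have hs1 : Real.sqrt ε ≤ 1 := by rw [Real.sqrt_le_one]; exact hε1
  have hs2 : Real.sqrt ε ^ 2 = ε := Real.sq_sqrt hε0
  have h2 : ‖Wf.starProjection v - Wc.starProjection v‖ ^ 2 ≤ (Real.sqrt ε * y + δ) ^ 2 := by
    have : ‖Wf.starProjection v - Wc.starProjection v‖ ≤ Real.sqrt ε * y + δ := by linarith
    gcongr
  have h3 : (Real.sqrt ε * y + δ) ^ 2 ≤ ε * y ^ 2 + 3 * δ := by
    have e1 : Real.sqrt ε * y ≤ 1 := by nlinarith
    have e2 : Real.sqrt ε * y * δ ≤ δ := by nlinarith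
    have e3 : δ * δ ≤ δ := by nlinarith
    nlinarith
  nlinarith

end foldstep

end Pool.Agent.K3h92
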