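import Pool.Agent.K3h92.Chain

/-!
# The chain of bisections of `κ × (Fin r → ZMod 2)`
-/

set_option autoImplicit false
set_option linter.unusedSimpArgs false
set_option linter.unusedSectionVars false

open Matrix
open scoped RealInnerProductSpace

namespace Pool.Agent.K3h92

/-- The group of bit strings. -/
abbrev Bits (r : ℕ) : Type := Fin r → ZMod 2

/-- Keep the first `i` bits. -/
def mask {r : ℕ} (i : ℕ) (x : Bits r) : Bits r := fun j => if (j : ℕ) < i then x j else 0

lemma mask_zero {r : ℕ} (x : Bits r) : mask 0 x = 0 := by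
  funext j; simp [mask]

lemma mask_full {r : ℕ} (x : Bits r) : mask r x = x := by
  funext j; simp [mask]

lemma mask_add_single {r : ℕ} (i : Fin r) (x : Bits r) :
    mask (i : ℕ) (x + Pi.single i 1) = mask (i : ℕ) x := by
  funext j
  unfold mask
  split_ifs with h
  · have : j ≠ i := fun h' => by rw [h'] at h; exact lt_irrefl _ h
    simp [Pi.single_apply, this]
  · rfl

lemma mask_succ_eq_iff {r : ℕ} (i : Fin r) (x y : Bits r) :
    mask ((i : ℕ) + 1) x = mask ((i : ℕ) + 1) y ↔
      mask (i : ℕ) x = mask (i : ℕ) y ∧ x i = y i := by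
  constructor
  · intro h
    constructor
    · funext j
      have := congrFun h j
      unfold mask at this ⊢
      split_ifs with h1
      · rw [if_pos (by omega), if_pos (by omega)] at this
        exact this
      · rfl
    · have := congrFun h i
      unfold mask at this
      rw [if_pos (by omega), if_pos (by omega)] at this
      exact this
  · rintro ⟨h1, h2⟩
    funext j
    unfold mask
    split_ifs with h3
    · rcases Nat.lt_succ_iff_lt_or_eq.1 h3 with h4 | h4
      · have := congrFun h1 j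
        unfold mask at this
        rw [if_pos h4, if_pos h4] at this
        exact this
      · have : j = i := Fin.ext h4
        rw [this, h2]
    · rfl

lemma zmod2_cases (x : ZMod 2) : x = 0 ∨ x = 1 := by
  revert x; decide

section

variable {κ : Type} [Fintype κ] [DecidableEq κ] {r : ℕ}

/-- The fold at level `i`. -/
def foldAt (κ : Type) {r : ℕ} (i : Fin r) : Fold (κ × Bits r) (Bits r) where
  col a := mask (i : ℕ) a.2
  side a := decide (a.2 i = 1)
  τ a := (a.1, a.2 + Pi.single i 1)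
  col_τ a := mask_add_single i a.2
  side_τ a := by
    rcases zmod2_cases (a.2 i) with h | h
    · simp [h]
    · simp only [Pi.add_apply, Pi.single_eq_same, h]
      decide
  τ_τ a := by
    have : (Pi.single i (1 : ZMod 2) : Bits r) + Pi.single i 1 = 0 := by
      rw [← Pi.single_add]
      have : (1 : ZMod 2) + 1 = 0 := by decide
      rw [this, Pi.single_zero]
    rw [add_assoc, this, add_zero]

lemma card_half_ge (i : Fin r) (x₀ : Bits r) :
    Fintype.card κ * 2 ^ (r - 1 - (i : ℕ)) ≤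
      Fintype.card ((foldAt κ i).half (mask (i : ℕ) x₀)) := by
  have h1 : Fintype.card (κ × ({j : Fin r // i < j} → ZMod 2)) =
      Fintype.card κ * 2 ^ (r - 1 - (i : ℕ)) := by
    rw [Fintype.card_prod, Fintype.card_fun, ZMod.card, Fintype.card_subtype]
    congr 2
    have : (Finset.univ.filter (fun j : Fin r => i < j)) = Finset.Ioi i := by
      ext j; simp
    rw [this, Fin.card_Ioi]
  rw [← h1]
  refine Fintype.card_le_of_injective (fun p => ⟨(p.1, fun j => if h : i < j then p.2 ⟨j, h⟩ else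
    if j = i then 0 else x₀ j), ?_, ?_⟩) ?_
  · change mask (i : ℕ) _ = mask (i : ℕ) x₀
    funext j
    unfold mask
    split_ifs with h
    · have h2 : ¬ (i < j) := by
        intro h'
        have : (i : ℕ) < (j : ℕ) := h'
        omega
      have h3 : j ≠ i := fun h' => by rw [h'] at h; exact lt_irrefl _ h
      simp [h2, h3]
    · rfl
  · change decide _ = false
    simp
  · rintro ⟨c, f⟩ ⟨c', f'⟩ h
    simp only [Subtype.mk.injEq, Prod.mk.injEq] at h
    refine Prod.ext h.1 ?_
    funext ⟨j, hj⟩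
    have := congrFun h.2 j
    simp only [hj, dif_pos] at this
    exact this

/-- The bound used at level `i`. -/
noncomputable def ebd (j : ℕ) : ℝ := min (1 / 3) (1 / 2 ^ j)

lemma eps_le_third {p : ℝ} (hp : 4 ≤ p) : eps p ≤ 1 / 3 := by
  unfold eps
  rw [div_le_div_iff₀ (by positivity) (by norm_num)]
  nlinarith [sq_nonneg (p - 4)]

lemma eps_le_inv {p : ℝ} (hp : 4 ≤ p) : eps p ≤ 4 / p := by
  unfold eps
  rw [div_le_div_iff₀ (by positivity) (by linarith)]
  nlinarith

lemma fold_hyp (hκ : 4 ≤ Fintype.card κ) (i : Fin r) (z : Bits r)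
    (hz : ∃ a, (foldAt κ i).col a = z) :
    4 ≤ Fintype.card ((foldAt κ i).half z) ∧
      eps (Fintype.card ((foldAt κ i).half z)) ≤ ebd (r - 1 - (i : ℕ)) := by
  obtain ⟨a, ha⟩ := hz
  have h := card_half_ge (κ := κ) i a.2
  have ha' : mask (i : ℕ) a.2 = z := ha
  rw [ha'] at h
  have h1 : 1 ≤ 2 ^ (r - 1 - (i : ℕ)) := Nat.one_le_two_pow
  have h2 : 4 * 2 ^ (r - 1 - (i : ℕ)) ≤ Fintype.card ((foldAt κ i).half z) :=
    (Nat.mul_le_mul_right _ hκ).trans h
  have h3 : 4 ≤ Fintype.card ((foldAt κ i).half z) := by omega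
  refine ⟨h3, ?_⟩
  have h4 : (4 : ℝ) ≤ (Fintype.card ((foldAt κ i).half z) : ℝ) := by exact_mod_cast h3
  have h5 : (4 : ℝ) * 2 ^ (r - 1 - (i : ℕ)) ≤ (Fintype.card ((foldAt κ i).half z) : ℝ) := by
    exact_mod_cast h2
  unfold ebd
  refine le_min (eps_le_third h4) ((eps_le_inv h4).trans ?_)
  rw [div_le_div_iff₀ (by linarith) (by positivity)]
  linarith

end

lemma ebd_nonneg (j : ℕ) : 0 ≤ ebd j := le_min (by norm_num) (by positivity)

lemma ebd_le_one (j : ℕ) : ebd j ≤ 1 := (min_le_left _ _).trans (by norm_num)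

lemma prod_ebd (n : ℕ) : 4 / 9 * (1 / 2 + 1 / 2 ^ (n + 1)) ≤
    ∏ j ∈ Finset.range (n + 2), (1 - ebd j) := by
  induction n with
  | zero =>
    rw [Finset.prod_range_succ, Finset.prod_range_succ, Finset.prod_range_zero]
    have h0 : ebd 0 = 1 / 3 := by unfold ebd; norm_num
    have h1 : ebd 1 = 1 / 3 := by unfold ebd; norm_num
    rw [h0, h1]
    norm_num
  | succ n ih =>
    rw [Finset.prod_range_succ]
    have h1 : 1 - 1 / 2 ^ (n + 2) ≤ 1 - ebd (n + 2) := by
      have : ebd (n + 2) ≤ 1 / 2 ^ (n + 2) := min_le_right _ _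
      linarith
    have h2 : (0 : ℝ) ≤ 1 - 1 / 2 ^ (n + 2) := by
      have : (1 : ℝ) / 2 ^ (n + 2) ≤ 1 := by
        rw [div_le_one (by positivity)]
        exact one_le_pow₀ (by norm_num)
      linarith
    have h3 : (0 : ℝ) ≤ ∏ j ∈ Finset.range (n + 2), (1 - ebd j) :=
      Finset.prod_nonneg fun j _ => by linarith [ebd_le_one j]
    refine le_trans ?_ (mul_le_mul ih h1 h2 h3)
    have h4 : (1 : ℝ) / 2 ^ (n + 1) = 2 * (1 / 2 ^ (n + 2)) := by
      rw [pow_succ (2:ℝ) (n + 1)]; field_simp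
    have h5 : (1 : ℝ) / 2 ^ (n + 2) ≤ 1 / 4 := by
      rw [div_le_div_iff₀ (by positivity) (by norm_num)]
      have : (1:ℝ) ≤ 2 ^ n := one_le_pow₀ (by norm_num)
      rw [pow_add]
      linarith
    have h6 : (0 : ℝ) ≤ 1 / 2 ^ (n + 2) := by positivity
    rw [h4, show n + 1 + 1 = n + 2 from rfl]
    set u : ℝ := 1 / 2 ^ (n + 2)
    nlinarith

lemma prod_ebd_ge (r : ℕ) : 2 / 9 ≤ ∏ j ∈ Finset.range r, (1 - ebd j) := by
  rcases r with _ | _ | n
  · norm_num
  · rw [Finset.prod_range_succ, Finset.prod_range_zero]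
    have h0 : ebd 0 = 1 / 3 := by unfold ebd; norm_num
    rw [h0]; norm_num
  · refine le_trans ?_ (prod_ebd n)
    have : (0 : ℝ) ≤ 1 / 2 ^ (n + 1) := by positivity
    linarith

/-- The recursion along the chain. -/
lemma chain_seq (r : ℕ) (y : ℕ → ℝ) {δ : ℝ} (hδ : 0 ≤ δ) (h0 : y 0 = 1)
    (h : ∀ i, i < r → (1 - ebd (r - 1 - i)) * y i - 3 * δ ≤ y (i + 1)) :
    2 / 9 - 3 * r * δ ≤ y r := by
  have key : ∀ i, i ≤ r → (∏ j ∈ Finset.range i, (1 - ebd (r - 1 - j))) - 3 * i * δ ≤ y i := by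
    intro i
    induction i with
    | zero => intro _; simp [h0]
    | succ i ih =>
      intro hi
      have h1 := ih (by omega)
      have h2 := h i (by omega)
      have e0 := ebd_nonneg (r - 1 - i)
      have e1 := ebd_le_one (r - 1 - i)
      rw [Finset.prod_range_succ]
      push_cast
      have h3 : (1 - ebd (r - 1 - i)) * ((∏ j ∈ Finset.range i, (1 - ebd (r - 1 - j))) -
          3 * i * δ) ≤ (1 - ebd (r - 1 - i)) * y i :=
        mul_le_mul_of_nonneg_left h1 (by linarith)
      have h4 : 0 ≤ ebd (r - 1 - i) * (3 * i * δ) := by positivity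
      nlinarith
  have h1 := key r le_rfl
  have h2 : ∏ j ∈ Finset.range r, (1 - ebd (r - 1 - j)) = ∏ j ∈ Finset.range r, (1 - ebd j) :=
    Finset.prod_range_reflect (fun j => 1 - ebd j) r
  rw [h2] at h1
  linarith [prod_ebd_ge r]

section

variable {κ : Type} [Fintype κ] [DecidableEq κ] {r : ℕ} {V : Type} [NormedAddCommGroup V]
  [InnerProductSpace ℝ V] [FiniteDimensional ℝ V] (R : LieRep (κ × Bits r) V)

/-- **The chain estimate.** -/
theorem chain_estimate (hκ : 4 ≤ Fintype.card κ) {v : V} (hv : ‖v‖ = 1) (hI : v ∈ R.InvAllᗮ)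
    {δ : ℝ} (hδ1 : δ ≤ 1) (hδ0 : 0 ≤ δ)
    (hδ : ∀ i : Fin r, ‖v - (R.InvT (foldAt κ i).τ).starProjection v‖ ≤ δ) :
    2 / 9 - 3 * r * δ ≤
      ‖v - (R.Inv (fun a : κ × Bits r => a.2)).starProjection v‖ ^ 2 := by
  have h := chain_seq r
    (fun i => ‖v - (R.Inv (fun a : κ × Bits r => mask i a.2)).starProjection v‖ ^ 2) hδ0 ?_ ?_
  · have e : (fun a : κ × Bits r => mask r a.2) = fun a => a.2 := by
      funext a; exact mask_full _
    simp only [e] at h
    exact h
  · change ‖v - (R.Inv (fun a : κ × Bits r => mask 0 a.2)).starProjection v‖ ^ 2 = 1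
    have e : R.Inv (fun a : κ × Bits r => mask 0 a.2) = R.InvAll := by
      ext w
      rw [R.mem_Inv, R.mem_InvAll]
      simp [mask_zero]
    rw [e, (Submodule.starProjection_apply_eq_zero_iff _).2 hI, sub_zero, hv, one_pow]
  · intro i hi
    have h1 := (foldAt κ (⟨i, hi⟩ : Fin r)).step_sq R (ebd (r - 1 - i)) (ebd_nonneg _)
      (ebd_le_one _) (fun z hz => fold_hyp hκ ⟨i, hi⟩ z hz) v hv.le hδ1 (hδ _)
    have e : R.Inv (fun a => ((foldAt κ (⟨i, hi⟩ : Fin r)).col a,
        (foldAt κ (⟨i, hi⟩ : Fin r)).side a)) =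
        R.Inv (fun a : κ × Bits r => mask (i + 1) a.2) := by
      ext w
      rw [R.mem_Inv, R.mem_Inv]
      have e2 : ∀ a b : κ × Bits r, (((foldAt κ (⟨i, hi⟩ : Fin r)).col a,
        (foldAt κ (⟨i, hi⟩ : Fin r)).side a) = ((foldAt κ (⟨i, hi⟩ : Fin r)).col b,
        (foldAt κ (⟨i, hi⟩ : Fin r)).side b)) ↔ mask (i + 1) a.2 = mask (i + 1) b.2 := by
        intro a b
        rw [mask_succ_eq_iff ⟨i, hi⟩, Prod.mk.injEq]
        refine and_congr Iff.rfl ?_
        change decide (a.2 ⟨i, hi⟩ = 1) = decide (b.2 ⟨i, hi⟩ = 1) ↔ _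
        rcases zmod2_cases (a.2 ⟨i, hi⟩) with h3 | h3 <;>
          rcases zmod2_cases (b.2 ⟨i, hi⟩) with h4 | h4 <;> rw [h3, h4] <;> decide
      simp only [e2]
    rw [e] at h1
    exact h1

end

end Pool.Agent.K3h92
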