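import Mathlib

/-!
# Representations of `SO(n)` with their infinitesimal generators

`SORep ι V` is a finite-dimensional orthogonal representation of the special orthogonal group on the
index set `ι`, together with the generators `A a b` of the rotations in the coordinate planes.
-/

set_option autoImplicit false

open Matrix

namespace Pool.Agent.K3h92

/-- The special orthogonal group on the index set `ι`. -/
abbrev SO (ι : Type) [Fintype ι] [DecidableEq ι] : Submonoid (Matrix ι ι ℝ) :=
  Matrix.specialOrthogonalGroup ι ℝ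

section

variable {ι : Type} [Fintype ι] [DecidableEq ι]

/-- The matrix of the rotation by the angle `t` in the plane of `a` and `b`
(`e_b ↦ cos t e_b + sin t e_a`, `e_a ↦ cos t e_a - sin t e_b`). -/
noncomputable def rotMat (a b : ι) (t : ℝ) : Matrix ι ι ℝ :=
  1 + (Real.cos t - 1) • (Matrix.single a a 1 + Matrix.single b b 1) +
    Real.sin t • (Matrix.single a b 1 - Matrix.single b a 1)

lemma rotMat_add {a b : ι} (hab : a ≠ b) (s t : ℝ) :
    rotMat a b (s + t) = rotMat a b s * rotMat a b t := by
  have e1 : (Matrix.single a a (1:ℝ) + Matrix.single b b 1) *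
      (Matrix.single a a (1:ℝ) + Matrix.single b b 1) =
      Matrix.single a a (1:ℝ) + Matrix.single b b 1 := by
    simp [add_mul, mul_add, Matrix.single_mul_single_of_ne _ _ _ _ hab,
      Matrix.single_mul_single_of_ne _ _ _ _ hab.symm]
  have e2 : (Matrix.single a a (1:ℝ) + Matrix.single b b 1) *
      (Matrix.single a b (1:ℝ) - Matrix.single b a 1) =
      Matrix.single a b (1:ℝ) - Matrix.single b a 1 := by
    simp [add_mul, mul_sub, Matrix.single_mul_single_of_ne _ _ _ _ hab,
      Matrix.single_mul_single_of_ne _ _ _ _ hab.symm]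
  have e3 : (Matrix.single a b (1:ℝ) - Matrix.single b a 1) *
      (Matrix.single a a (1:ℝ) + Matrix.single b b 1) =
      Matrix.single a b (1:ℝ) - Matrix.single b a 1 := by
    simp [sub_mul, mul_add, Matrix.single_mul_single_of_ne _ _ _ _ hab,
      Matrix.single_mul_single_of_ne _ _ _ _ hab.symm]
    abel
  have e4 : (Matrix.single a b (1:ℝ) - Matrix.single b a 1) *
      (Matrix.single a b (1:ℝ) - Matrix.single b a 1) =
      -(Matrix.single a a (1:ℝ) + Matrix.single b b 1) := by
    simp [sub_mul, mul_sub, Matrix.single_mul_single_of_ne _ _ _ _ hab,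
      Matrix.single_mul_single_of_ne _ _ _ _ hab.symm]
    abel
  unfold rotMat
  set D : Matrix ι ι ℝ := Matrix.single a a (1:ℝ) + Matrix.single b b 1 with hD
  set K : Matrix ι ι ℝ := Matrix.single a b (1:ℝ) - Matrix.single b a 1 with hK
  simp only [add_mul, mul_add, one_mul, mul_one, smul_mul_assoc, mul_smul_comm, smul_smul, e1, e2,
    e3, e4, Real.cos_add, Real.sin_add, smul_neg]
  module

lemma rotMat_zero (a b : ι) : rotMat a b 0 = 1 := by
  simp [rotMat]

lemma rotMat_transpose (a b : ι) (t : ℝ) : (rotMat a b t)ᵀ = rotMat a b (-t) := by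
  unfold rotMat
  simp only [Matrix.transpose_add, Matrix.transpose_sub, Matrix.transpose_smul,
    Matrix.transpose_one, Matrix.transpose_single, Real.cos_neg, Real.sin_neg]
  module

lemma rotMat_mem {a b : ι} (hab : a ≠ b) (t : ℝ) : rotMat a b t ∈ SO ι := by
  have ho : ∀ s : ℝ, rotMat a b s ∈ Matrix.orthogonalGroup ι ℝ := by
    intro s
    rw [Matrix.mem_orthogonalGroup_iff]
    rw [rotMat_transpose, ← rotMat_add hab, add_neg_cancel, rotMat_zero]
  rw [Matrix.mem_specialOrthogonalGroup_iff]
  refine ⟨ho t, ?_⟩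
  have h2 : rotMat a b t = rotMat a b (t / 2) * rotMat a b (t / 2) := by
    rw [← rotMat_add hab]; ring_nf
  have h3 : (rotMat a b (t / 2)).det * (rotMat a b (t / 2)).det = 1 := by
    have := (Matrix.mem_orthogonalGroup_iff ι ℝ).1 (ho (t / 2))
    have h4 := congrArg Matrix.det this
    rw [Matrix.det_mul, Matrix.det_transpose, Matrix.det_one] at h4
    exact h4
  rw [h2, Matrix.det_mul, h3]

/-- The rotation by the angle `t` in the plane of `a` and `b`. -/
noncomputable def rot (a b : ι) (hab : a ≠ b) (t : ℝ) : SO ι := ⟨rotMat a b t, rotMat_mem hab t⟩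

variable (ι) in
/-- An orthogonal representation of the Lie algebra `so(ι)`: operators `A a b`, skew-adjoint,
antisymmetric in `a, b` and with the commutation relations of the elementary skew matrices
`E a b - E b a`. -/
structure LieRep (V : Type) [NormedAddCommGroup V] [InnerProductSpace ℝ V] where
  A : ι → ι → V →ₗ[ℝ] V
  anti : ∀ a b, A b a = -A a b
  skew : ∀ a b u v, inner ℝ (A a b u) v = -inner ℝ u (A a b v)
  br : ∀ a b c d, A a b * A c d - A c d * A a b =
    (if b = c then A a d else 0) - (if a = c then A b d else 0) -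
      (if b = d then A a c else 0) + (if a = d then A b c else 0)

variable (ι) in
/-- An orthogonal representation of the group `SO(ι)` with its infinitesimal generators. -/
structure SORep (V : Type) [NormedAddCommGroup V] [InnerProductSpace ℝ V] extends
    LieRep ι V where
  ρ : SO ι →* (V →ₗ[ℝ] V)
  norm_ρ : ∀ g v, ‖ρ g v‖ = ‖v‖
  Ad : ∀ (g : SO ι) (a b : ι), ρ g * A a b =
    (∑ c, ∑ d, ((g : Matrix ι ι ℝ) c a * (g : Matrix ι ι ℝ) d b) • A c d) * ρ g
  deriv : ∀ (a b : ι) (hab : a ≠ b) (v : V),
    HasDerivAt (fun t : ℝ => ρ (rot a b hab t) v) (A a b v) 0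
  cont : ∀ v, Continuous (fun g : SO ι => ρ g v)

end

section

variable {ι : Type} [Fintype ι] [DecidableEq ι] {V : Type} [NormedAddCommGroup V]
  [InnerProductSpace ℝ V]

/-- The vectors killed by the generators of the planes with both indices of the same colour. -/
def LieRep.Inv (R : LieRep ι V) {β : Type} (col : ι → β) : Submodule ℝ V :=
  ⨅ (a : ι) (b : ι) (_ : col a = col b), LinearMap.ker (R.A a b)

lemma LieRep.mem_Inv (R : LieRep ι V) {β : Type} (col : ι → β) (v : V) :
    v ∈ R.Inv col ↔ ∀ a b, col a = col b → R.A a b v = 0 := by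
  simp [LieRep.Inv, Submodule.mem_iInf]

/-- The vectors killed by all the generators. -/
def LieRep.InvAll (R : LieRep ι V) : Submodule ℝ V := R.Inv (fun _ => ())

lemma LieRep.mem_InvAll (R : LieRep ι V) (v : V) :
    v ∈ R.InvAll ↔ ∀ a b, R.A a b v = 0 := by
  simp [LieRep.InvAll, LieRep.mem_Inv]

end

/-- The family `S` of elements of `SO(ι)` has Kazhdan constant at least `c` (in the quadratic sense)
for all the finite-dimensional representations. -/
def Kaz (ι : Type) [Fintype ι] [DecidableEq ι] {J : Type} [Fintype J] (S : J → SO ι) (c : ℝ) :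
    Prop :=
  ∀ (V : Type) [NormedAddCommGroup V] [InnerProductSpace ℝ V] [FiniteDimensional ℝ V]
    (R : SORep ι V) (v : V), v ∈ (R.toLieRep.InvAll)ᗮ →
    c * ‖v‖ ^ 2 ≤ ∑ j, ‖R.ρ (S j) v - v‖ ^ 2

/-- The family `S` of elements of `SO(ι)` has an average of norm at most `l` on the orthogonal
complement of the invariant vectors, for all the finite-dimensional representations. -/
def AvgLe (ι : Type) [Fintype ι] [DecidableEq ι] {J : Type} [Fintype J] (S : J → SO ι) (l : ℝ) :
    Prop :=
  ∀ (V : Type) [NormedAddCommGroup V] [InnerProductSpace ℝ V] [FiniteDimensional ℝ V]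
    (R : SORep ι V) (v : V), v ∈ (R.toLieRep.InvAll)ᗮ →
    ‖∑ j, R.ρ (S j) v‖ ≤ l * Fintype.card J * ‖v‖

end Pool.Agent.K3h92
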