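import Pool.Agent.K3h92.Lie

/-!
# Splitting along the eigenspaces of a symmetric operator
-/

set_option autoImplicit false
set_option linter.unusedSimpArgs false
set_option linter.unusedSectionVars false

open scoped RealInnerProductSpace

namespace Pool.Agent.K3h92

open Module.End

section eig

variable {V : Type} [NormedAddCommGroup V] [InnerProductSpace ℝ V] [FiniteDimensional ℝ V]
  {T : V →ₗ[ℝ] V} (hT : T.IsSymmetric)

include hT

lemma sum_eigproj (v : V) :
    ∑ μ : Eigenvalues T, (eigenspace T (μ : ℝ)).starProjection v = v := by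
  refine OrthogonalFamily.sum_projection_of_mem_iSup hT.orthogonalFamily_eigenspaces' v ?_
  have h := hT.orthogonalComplement_iSup_eigenspaces_eq_bot'
  rw [Submodule.orthogonal_eq_bot_iff] at h
  rw [h]
  exact Submodule.mem_top

lemma eigproj_ortho {μ ν : Eigenvalues T} (h : μ ≠ ν) {u v : V}
    (hu : u ∈ eigenspace T (μ : ℝ)) (hv : v ∈ eigenspace T (ν : ℝ)) : ⟪u, v⟫ = 0 := by
  have := hT.orthogonalFamily_eigenspaces' h ⟨u, hu⟩ ⟨v, hv⟩
  simpa using this

lemma inner_eigproj (u v : V) :
    ⟪u, v⟫ = ∑ μ : Eigenvalues T, ⟪(eigenspace T (μ : ℝ)).starProjection u,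
      (eigenspace T (μ : ℝ)).starProjection v⟫ := by
  conv_lhs => rw [← sum_eigproj hT u, ← sum_eigproj hT v]
  rw [sum_inner]
  refine Finset.sum_congr rfl fun μ _ => ?_
  rw [inner_sum, Finset.sum_eq_single μ]
  · intro ν _ hν
    exact eigproj_ortho hT hν.symm (Submodule.starProjection_apply_mem _ _)
      (Submodule.starProjection_apply_mem _ _)
  · intro h
    exact absurd (Finset.mem_univ _) h

lemma norm_sq_eigproj (v : V) :
    ‖v‖ ^ 2 = ∑ μ : Eigenvalues T, ‖(eigenspace T (μ : ℝ)).starProjection v‖ ^ 2 := by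
  rw [← real_inner_self_eq_norm_sq, inner_eigproj hT]
  simp only [real_inner_self_eq_norm_sq]

lemma eigproj_comm {A : V →ₗ[ℝ] V} (hA : ∀ v, T (A v) = A (T v)) (μ : Eigenvalues T) (v : V) :
    (eigenspace T (μ : ℝ)).starProjection (A v) =
      A ((eigenspace T (μ : ℝ)).starProjection v) := by
  have hmem : ∀ ν : Eigenvalues T, A ((eigenspace T (ν : ℝ)).starProjection v) ∈
      eigenspace T (ν : ℝ) := by
    intro ν
    rw [mem_eigenspace_iff, hA]
    have := (mem_eigenspace_iff (f := T) (μ := (ν:ℝ))).1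
      (Submodule.starProjection_apply_mem (eigenspace T (ν:ℝ)) v)
    rw [this, map_smul]
  conv_lhs => rw [← sum_eigproj hT v]
  rw [map_sum, map_sum, Finset.sum_eq_single μ]
  · exact Submodule.starProjection_eq_self_iff.2 (hmem μ)
  · intro ν _ hν
    rw [Submodule.starProjection_apply_eq_zero_iff]
    rw [Submodule.mem_orthogonal]
    intro w hw
    exact eigproj_ortho hT hν.symm hw (hmem ν)
  · intro h
    exact absurd (Finset.mem_univ _) h

/-- A bilinear inequality which holds on each eigenspace holds in general. -/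
lemma bilin_of_eig {ε : ℝ} (hε : 0 ≤ ε) (u v : V)
    (H : ∀ μ : Eigenvalues T, |⟪(eigenspace T (μ : ℝ)).starProjection u,
      (eigenspace T (μ : ℝ)).starProjection v⟫| ≤
        ε * (‖(eigenspace T (μ : ℝ)).starProjection u‖ *
          ‖(eigenspace T (μ : ℝ)).starProjection v‖)) :
    |⟪u, v⟫| ≤ ε * (‖u‖ * ‖v‖) := by
  rw [inner_eigproj hT u v]
  refine (Finset.abs_sum_le_sum_abs _ _).trans ?_
  refine (Finset.sum_le_sum fun μ _ => H μ).trans ?_
  rw [← Finset.mul_sum]
  refine mul_le_mul_of_nonneg_left ?_ hε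
  have h1 := Finset.sum_mul_sq_le_sq_mul_sq Finset.univ
    (fun μ : Eigenvalues T => ‖(eigenspace T (μ : ℝ)).starProjection u‖)
    (fun μ : Eigenvalues T => ‖(eigenspace T (μ : ℝ)).starProjection v‖)
  rw [← norm_sq_eigproj hT, ← norm_sq_eigproj hT, ← mul_pow] at h1
  exact le_of_sq_le_sq h1 (by positivity)

end eig

end Pool.Agent.K3h92
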