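import Pool.Agent.K3h92.Tree

/-!
# The encoding step: from `SO(κ)` to `SO(κ × Bits r)` with `O(r)` generators
-/

set_option autoImplicit false
set_option linter.unusedSimpArgs false
set_option linter.unusedSectionVars false

open Matrix
open scoped RealInnerProductSpace

namespace Pool.Agent.K3h92

section avg

variable {ι : Type} [Fintype ι] [DecidableEq ι] {V : Type}
  [NormedAddCommGroup V] [InnerProductSpace ℝ V] [FiniteDimensional ℝ V]

lemma disp_sq (R : SORep ι V) (g : SO ι) (w : V) :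
    ‖R.ρ g w - w‖ ^ 2 = 2 * ‖w‖ ^ 2 - 2 * ⟪R.ρ g w, w⟫ := by
  rw [norm_sub_sq_real, R.norm_ρ]; ring

lemma AvgLe.disp {J : Type} [Fintype J] {S : J → SO ι} {l : ℝ} (hS : AvgLe ι S l)
    (R : SORep ι V) {w : V} (hw : w ∈ R.InvAllᗮ) :
    (2 - 2 * l) * Fintype.card J * ‖w‖ ^ 2 ≤ ∑ j, ‖R.ρ (S j) w - w‖ ^ 2 := by
  have h1 := hS V R w hw
  have h2 : ⟪∑ j, R.ρ (S j) w, w⟫ ≤ l * Fintype.card J * ‖w‖ * ‖w‖ :=
    (real_inner_le_norm _ _).trans (mul_le_mul_of_nonneg_right h1 (norm_nonneg _))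
  simp only [disp_sq, Finset.sum_sub_distrib, Finset.sum_const, Finset.card_univ, nsmul_eq_mul,
    ← Finset.mul_sum, ← sum_inner]
  nlinarith

lemma Kaz_of_unit {J : Type} [Fintype J] {S : J → SO ι} {c : ℝ}
    (h : ∀ (V : Type) [NormedAddCommGroup V] [InnerProductSpace ℝ V] [FiniteDimensional ℝ V]
      (R : SORep ι V) (v : V), v ∈ R.InvAllᗮ → ‖v‖ = 1 → c ≤ ∑ j, ‖R.ρ (S j) v - v‖ ^ 2) :
    Kaz ι S c := by
  intro V _ _ _ R v hv
  by_cases h0 : v = 0
  · subst h0; simp
  have hn : ‖v‖ ≠ 0 := norm_ne_zero_iff.2 h0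
  have h1 := h V R (‖v‖⁻¹ • v) (Submodule.smul_mem _ _ hv) (by
    rw [norm_smul, norm_inv, norm_norm, inv_mul_cancel₀ hn])
  have h2 : ∀ j, ‖R.ρ (S j) (‖v‖⁻¹ • v) - ‖v‖⁻¹ • v‖ ^ 2 =
      (‖v‖⁻¹) ^ 2 * ‖R.ρ (S j) v - v‖ ^ 2 := by
    intro j
    rw [map_smul, ← smul_sub, norm_smul, mul_pow, norm_inv, norm_norm]
  simp only [h2, ← Finset.mul_sum] at h1
  have h3 : 0 < ‖v‖ ^ 2 := by positivity
  calc c * ‖v‖ ^ 2 ≤ ((‖v‖⁻¹) ^ 2 * ∑ j, ‖R.ρ (S j) v - v‖ ^ 2) * ‖v‖ ^ 2 := by gcongr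
    _ = _ := by field_simp

end avg

section rows

variable {κ : Type} [Fintype κ] [DecidableEq κ] {r : ℕ} {q : ℕ} {V : Type}
  [NormedAddCommGroup V] [InnerProductSpace ℝ V] [FiniteDimensional ℝ V]
  (R : SORep (κ × Bits r) V)

lemma row_InvAll (y : Bits r) :
    (R.pull (fun c : κ => (c, y)) (row_inj y)).InvAll =
      R.InvK (fun a : κ × Bits r => a.2) {y} := by
  ext v
  rw [LieRep.mem_InvAll, LieRep.mem_InvK]
  constructor
  · rintro h ⟨a, x⟩ ⟨b, z⟩ hab hy
    simp only [Set.mem_singleton_iff] at hab hy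
    subst hab
    subst hy
    exact h a b
  · intro h a b
    exact h (a, y) (b, y) rfl rfl

lemma row_full (hr : r ≤ 2 ^ q) {L : Bits r → ℕ → SO κ} {S : Bits r → SO κ}
    (hL : ∀ u, bal q (L u) = S u) (hS : AvgLe κ S (1 / 2)) (y : Bits r) {w : V}
    (hw : w ∈ (R.InvK (fun a : κ × Bits r => a.2) {y})ᗮ) :
    (Fintype.card (Bits r) : ℝ) * ‖w‖ ^ 2 ≤ (2 ^ q) ^ 3 * totDisp q R L w := by
  have h1 := hS.disp (R.pull (fun c : κ => (c, y)) (row_inj y)) (w := w)
    (by rw [row_InvAll]; exact hw)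
  have h2 := row_disp R hr L S hL y w
  simp only [SORep.pull_ρ] at h1
  calc (Fintype.card (Bits r) : ℝ) * ‖w‖ ^ 2 =
      (2 - 2 * (1 / 2)) * Fintype.card (Bits r) * ‖w‖ ^ 2 := by ring
    _ ≤ _ := h1
    _ ≤ _ := h2

lemma blk_off (s : Bits r → SO κ) (a c : κ × Bits r) (h : a.2 ≠ c.2) :
    (blk s : Matrix (κ × Bits r) (κ × Bits r) ℝ) a c = 0 := by
  rw [blk_coe, if_neg h]

lemma totDisp_split (L : Bits r → ℕ → SO κ) (K : Set (Bits r)) (v : V) :
    totDisp q R L v =
      totDisp q R L ((R.InvK (fun a : κ × Bits r => a.2) K).starProjection v) +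
      totDisp q R L (v - (R.InvK (fun a : κ × Bits r => a.2) K).starProjection v) := by
  unfold totDisp
  simp only [← Finset.sum_add_distrib]
  refine Finset.sum_congr rfl fun t _ => Finset.sum_congr rfl fun l _ =>
    Finset.sum_congr rfl fun b _ => ?_
  exact R.disp_split (R.ρ_projK _ K (fun a c h => blk_off _ a c h) v)

lemma totDisp_nonneg (L : Bits r → ℕ → SO κ) (v : V) : 0 ≤ totDisp q R L v := by
  unfold totDisp
  positivity

lemma rows_full (hr : r ≤ 2 ^ q) {L : Bits r → ℕ → SO κ} {S : Bits r → SO κ}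
    (hL : ∀ u, bal q (L u) = S u) (hS : AvgLe κ S (1 / 2)) (K : Finset (Bits r)) :
    ∀ v : V, (Fintype.card (Bits r) : ℝ) *
      ‖v - (R.InvK (fun a : κ × Bits r => a.2) K).starProjection v‖ ^ 2 ≤
        (2 ^ q) ^ 3 * totDisp q R L v := by
  induction K using Finset.induction_on with
  | empty =>
    intro v
    have h1 : R.InvK (fun a : κ × Bits r => a.2) ((∅ : Finset (Bits r)) : Set (Bits r)) = ⊤ := by
      ext v
      rw [LieRep.mem_InvK]
      simp
    have h2 := totDisp_nonneg (q := q) R L v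
    have h3 : v - (⊤ : Submodule ℝ V).starProjection v = 0 := by
      rw [Submodule.starProjection_eq_self_iff.2 Submodule.mem_top, sub_self]
    rw [h1, h3, norm_zero]
    have h4 := mul_nonneg (by positivity : (0:ℝ) ≤ (2 ^ q) ^ 3) h2
    simpa using h4
  | insert y K hyK ih =>
    intro v
    set Wy := R.InvK (fun a : κ × Bits r => a.2) ({y} : Set (Bits r)) with hWy
    set WK := R.InvK (fun a : κ × Bits r => a.2) (K : Set (Bits r)) with hWK
    set P := Wy.starProjection v with hP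
    have hPy : P ∈ Wy := Submodule.starProjection_apply_mem _ _
    have hmem : WK.starProjection P ∈ Wy := by
      rw [hWy, LieRep.mem_InvK]
      intro a b hab ha
      rw [LieRep.A_projK _ _ _ hab]
      rw [hWy, LieRep.mem_InvK] at hPy
      rw [hPy a b hab ha, map_zero]
    have hmem2 : WK.starProjection P ∈
        R.InvK (fun a : κ × Bits r => a.2) ((insert y K : Finset (Bits r)) : Set (Bits r)) := by
      rw [LieRep.mem_InvK]
      intro a b hab ha
      rw [Finset.coe_insert, Set.mem_insert_iff] at ha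
      rcases ha with ha | ha
      · rw [hWy, LieRep.mem_InvK] at hmem
        exact hmem a b hab ha
      · have : WK.starProjection P ∈ WK := Submodule.starProjection_apply_mem _ _
        rw [hWK, LieRep.mem_InvK] at this
        exact this a b hab ha
    have h1 := proj_min (R.InvK (fun a : κ × Bits r => a.2)
      ((insert y K : Finset (Bits r)) : Set (Bits r))) v hmem2
    have h2 : ‖v - WK.starProjection P‖ ^ 2 = ‖v - P‖ ^ 2 + ‖P - WK.starProjection P‖ ^ 2 := by
      have e1 : ⟪v - P, P - WK.starProjection P⟫ = 0 :=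
        Submodule.inner_left_of_mem_orthogonal (Wy.sub_mem hPy hmem)
          (Submodule.sub_starProjection_mem_orthogonal (K := Wy) v)
      have e2 := norm_add_sq_real (v - P) (P - WK.starProjection P)
      rw [e1, sub_add_sub_cancel] at e2
      linarith
    have h3 := row_full R hr hL hS y (w := v - P)
      (Submodule.sub_starProjection_mem_orthogonal (K := Wy) v)
    have h4 := ih P
    have h5 := totDisp_split (q := q) R L {y} v
    rw [h5]
    have h6 : ‖v - (R.InvK (fun a : κ × Bits r => a.2)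
      ((insert y K : Finset (Bits r)) : Set (Bits r))).starProjection v‖ ^ 2 ≤
        ‖v - P‖ ^ 2 + ‖P - WK.starProjection P‖ ^ 2 := by
      rw [← h2]; gcongr
    have h7 : (0 : ℝ) ≤ Fintype.card (Bits r) := by positivity
    nlinarith [mul_le_mul_of_nonneg_left h6 h7]

end rows

section wperm

variable {κ₀ : Type} [Fintype κ₀] [DecidableEq κ₀] {r : ℕ}

/-- Exchange of the extra bit with the bit `i`. -/
def bitSwap (i : Fin r) : Equiv.Perm (ZMod 2 × Bits r) where
  toFun p := (p.2 i, Function.update p.2 i p.1)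
  invFun p := (p.2 i, Function.update p.2 i p.1)
  left_inv p := by simp
  right_inv p := by simp

/-- The corresponding permutation of `(κ₀ × ZMod 2) × Bits r`. -/
def wPerm (κ₀ : Type) (i : Fin r) : Equiv.Perm ((κ₀ × ZMod 2) × Bits r) :=
  (Equiv.prodAssoc κ₀ (ZMod 2) (Bits r)).symm.permCongr
    (Equiv.prodCongrRight (fun _ : κ₀ => bitSwap i))

lemma wPerm_apply (i : Fin r) (a : (κ₀ × ZMod 2) × Bits r) :
    wPerm κ₀ i a = ((a.1.1, a.2 i), Function.update a.2 i a.1.2) := rfl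

lemma sign_wPerm (h : Even (Fintype.card κ₀)) (i : Fin r) :
    Equiv.Perm.sign (wPerm κ₀ i) = 1 := by
  unfold wPerm
  rw [Equiv.Perm.sign_permCongr, Equiv.Perm.sign_prodCongrRight, Finset.prod_const,
    Finset.card_univ]
  obtain ⟨k, hk⟩ := h
  rw [hk, ← two_mul, pow_mul]
  simp

lemma wPerm_wPerm (i : Fin r) (a : (κ₀ × ZMod 2) × Bits r) :
    wPerm κ₀ i (wPerm κ₀ i a) = a := by
  simp [wPerm_apply]

variable {V : Type} [NormedAddCommGroup V] [InnerProductSpace ℝ V] [FiniteDimensional ℝ V]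
  (R : SORep ((κ₀ × ZMod 2) × Bits r) V)

lemma T_bound (h : Even (Fintype.card κ₀)) (i : Fin r) (v : V) :
    ‖v - (R.InvT (foldAt (κ₀ × ZMod 2) i).τ).starProjection v‖ ≤
      ‖v - (R.Inv (fun a : (κ₀ × ZMod 2) × Bits r => a.2)).starProjection v‖ +
      ‖R.ρ (permSO (wPerm κ₀ i) (sign_wPerm h i)) v - v‖ := by
  set w := permSO (wPerm κ₀ i) (sign_wPerm h i) with hw
  set W := R.Inv (fun a : (κ₀ × ZMod 2) × Bits r => a.2) with hW
  have h1 : R.ρ w (W.starProjection (R.ρ w⁻¹ v)) ∈ R.InvT (foldAt (κ₀ × ZMod 2) i).τ := by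
    have hu : W.starProjection (R.ρ w⁻¹ v) ∈ W := Submodule.starProjection_apply_mem _ _
    rw [hW, LieRep.mem_Inv] at hu
    rw [LieRep.mem_InvT]
    intro a
    have e1 := R.ρ_perm (wPerm κ₀ i) (sign_wPerm h i) (wPerm κ₀ i a)
      (wPerm κ₀ i ((foldAt (κ₀ × ZMod 2) i).τ a)) (W.starProjection (R.ρ w⁻¹ v))
    rw [wPerm_wPerm, wPerm_wPerm] at e1
    rw [← e1, hu _ _ ?_, map_zero]
    rw [wPerm_apply, wPerm_apply]
    funext j
    change Function.update a.2 i a.1.2 j = Function.update (a.2 + Pi.single i 1) i a.1.2 j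
    by_cases hj : j = i
    · subst hj; simp
    · simp [Function.update_of_ne hj, Pi.single_eq_of_ne hj]
  refine (proj_min _ v h1).trans ?_
  have h2 : ‖v - R.ρ w (W.starProjection (R.ρ w⁻¹ v))‖ =
      ‖R.ρ w⁻¹ v - W.starProjection (R.ρ w⁻¹ v)‖ := by
    rw [← R.norm_ρ w (R.ρ w⁻¹ v - _), map_sub, R.ρ_self_inv]
  rw [h2]
  refine (proj_min W (R.ρ w⁻¹ v) (Submodule.starProjection_apply_mem W v)).trans ?_
  have h3 : R.ρ w⁻¹ v - W.starProjection v = (v - W.starProjection v) + (R.ρ w⁻¹ v - v) := by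
    abel
  rw [h3]
  refine (norm_add_le _ _).trans ?_
  rw [R.disp_inv]

end wperm

end Pool.Agent.K3h92
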