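import Pool.Agent.K3h92.Defs

/-!
# Casimir operator and isotropy lemmas for orthogonal representations of `so(ι)`
-/

set_option autoImplicit false
set_option linter.unusedSimpArgs false
set_option linter.unusedSectionVars false

open scoped RealInnerProductSpace

namespace Pool.Agent.K3h92

section isotropy

variable {V : Type} [NormedAddCommGroup V] [InnerProductSpace ℝ V]

/-- First-order isotropy. -/
lemma iso1 (J : V →ₗ[ℝ] V) (hJ : ∀ u v, ⟪J u, v⟫ = -⟪u, J v⟫) {u u' : V} (h1 : J u = -u')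
    (h2 : J u' = u) : ‖u‖ ^ 2 = ‖u'‖ ^ 2 := by
  have h3 := hJ u' u
  rw [h1, h2, inner_neg_right, neg_neg, real_inner_self_eq_norm_sq,
    real_inner_self_eq_norm_sq] at h3
  exact h3

/-- Second-order isotropy. -/
lemma iso2 (J : V →ₗ[ℝ] V) (hJ : ∀ u v, ⟪J u, v⟫ = -⟪u, J v⟫) {P Q S : V}
    (h1 : J P = -(2:ℝ) • S) (h2 : J Q = (2:ℝ) • S) (h3 : J S = P - Q) :
    ‖P‖ ^ 2 = ‖Q‖ ^ 2 ∧ ‖P‖ ^ 2 = 2 * ‖S‖ ^ 2 + ⟪P, Q⟫ := by
  have e1 := hJ P S
  have e2 := hJ Q S
  rw [h1, h3, inner_smul_left, inner_sub_right, real_inner_self_eq_norm_sq,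
    real_inner_self_eq_norm_sq] at e1
  rw [h2, h3, inner_smul_left, inner_sub_right, real_inner_self_eq_norm_sq,
    real_inner_self_eq_norm_sq, real_inner_comm] at e2
  simp only [map_neg, conj_trivial] at e1 e2
  constructor <;> linarith

end isotropy

section basic

variable {ι : Type} [Fintype ι] [DecidableEq ι] {V : Type} [NormedAddCommGroup V]
  [InnerProductSpace ℝ V] (R : LieRep ι V)

omit [Fintype ι] in
lemma LieRep.diag (a : ι) : R.A a a = 0 := by
  have h := R.anti a a
  ext v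
  have h2 := congrArg (fun T : V →ₗ[ℝ] V => T v) h
  simp only [LinearMap.neg_apply] at h2
  have h3 : (2:ℝ) • R.A a a v = 0 := by
    rw [two_smul]
    nth_rw 1 [h2]
    exact neg_add_cancel _
  rcases smul_eq_zero.1 h3 with h4 | h4
  · norm_num at h4
  · exact h4

omit [Fintype ι] in
lemma LieRep.br_apply (a b c d : ι) (v : V) : R.A a b (R.A c d v) = R.A c d (R.A a b v) +
    ((if b = c then R.A a d v else 0) - (if a = c then R.A b d v else 0) -
      (if b = d then R.A a c v else 0) + (if a = d then R.A b c v else 0)) := by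
  have h := congrArg (fun T : V →ₗ[ℝ] V => T v) (R.br a b c d)
  simp only [LinearMap.sub_apply, Module.End.mul_apply, LinearMap.add_apply] at h
  rw [sub_eq_iff_eq_add'] at h
  rw [h]
  congr 1
  split_ifs <;> simp

omit [Fintype ι] in
lemma LieRep.skew' (a b : ι) (u v : V) : ⟪u, R.A a b v⟫ = -⟪R.A a b u, v⟫ := by
  rw [R.skew, neg_neg]

/-- The Casimir operator (sum over unordered pairs). -/
noncomputable def LieRep.cas : V →ₗ[ℝ] V := -(1/2:ℝ) • ∑ a, ∑ b, R.A a b * R.A a b

lemma LieRep.cas_apply (v : V) : R.cas v = -(1/2:ℝ) • ∑ a, ∑ b, R.A a b (R.A a b v) := by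
  simp [LieRep.cas, LinearMap.sum_apply]

lemma LieRep.cas_inner (u v : V) :
    ⟪R.cas u, v⟫ = (1/2:ℝ) * ∑ a, ∑ b, ⟪R.A a b u, R.A a b v⟫ := by
  rw [LieRep.cas_apply, inner_smul_left, sum_inner]
  simp only [sum_inner, R.skew]
  simp

lemma LieRep.cas_symm : R.cas.IsSymmetric := by
  intro u v
  rw [R.cas_inner, real_inner_comm, R.cas_inner]
  simp only [real_inner_comm]

lemma LieRep.cas_inner_self (v : V) :
    ⟪R.cas v, v⟫ = (1/2:ℝ) * ∑ a, ∑ b, ‖R.A a b v‖ ^ 2 := by
  rw [R.cas_inner]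
  simp only [real_inner_self_eq_norm_sq]

lemma sum_ite_snd (c : ι) (f : ι → ι → V) :
    (∑ a, ∑ b, if b = c then f a b else 0) = ∑ a, f a c := by
  simp

lemma sum_ite_fst (c : ι) (f : ι → ι → V) :
    (∑ a, ∑ b, if a = c then f a b else 0) = ∑ b, f c b := by
  rw [Finset.sum_comm]
  simp

lemma LieRep.cas_comm (c d : ι) (v : V) : R.cas (R.A c d v) = R.A c d (R.cas v) := by
  rw [R.cas_apply, R.cas_apply, map_smul, map_sum]
  congr 1
  simp only [map_sum]
  have key : ∀ a b, R.A a b (R.A a b (R.A c d v)) = R.A c d (R.A a b (R.A a b v)) +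
      (((if b = c then R.A a b (R.A a d v) else 0) - (if a = c then R.A a b (R.A b d v) else 0) -
      (if b = d then R.A a b (R.A a c v) else 0) + (if a = d then R.A a b (R.A b c v) else 0)) +
      ((if b = c then R.A a d (R.A a b v) else 0) - (if a = c then R.A b d (R.A a b v) else 0) -
      (if b = d then R.A a c (R.A a b v) else 0) +
      (if a = d then R.A b c (R.A a b v) else 0))) := by
    intro a b
    rw [R.br_apply a b c d v, map_add, R.br_apply a b c d (R.A a b v)]
    have h1 : ∀ (q : Prop) [Decidable q] (w : V), R.A a b (if q then w else 0) =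
        if q then R.A a b w else 0 := by
      intro q _ w
      split_ifs <;> simp
    simp only [map_add, map_sub, h1]
    abel
  simp only [key, Finset.sum_add_distrib, Finset.sum_sub_distrib, sum_ite_snd, sum_ite_fst]
  have hz : ∀ (a b : ι) (w : V), R.A a b w = -R.A b a w := fun a b w => by
    rw [R.anti b a, LinearMap.neg_apply]
  have e1 : ∑ b, R.A c b (R.A b d v) = -∑ b, R.A b c (R.A b d v) := by
    rw [← Finset.sum_neg_distrib]
    exact Finset.sum_congr rfl fun b _ => hz c b _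
  have e2 : ∑ b, R.A d b (R.A b c v) = -∑ b, R.A b d (R.A b c v) := by
    rw [← Finset.sum_neg_distrib]
    exact Finset.sum_congr rfl fun b _ => hz d b _
  have e3 : ∑ b, R.A b d (R.A c b v) = -∑ b, R.A b d (R.A b c v) := by
    rw [← Finset.sum_neg_distrib]
    exact Finset.sum_congr rfl fun b _ => by rw [hz c b, map_neg]
  have e4 : ∑ b, R.A b c (R.A d b v) = -∑ b, R.A b c (R.A b d v) := by
    rw [← Finset.sum_neg_distrib]
    exact Finset.sum_congr rfl fun b _ => by rw [hz d b, map_neg]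
  rw [e1, e2, e3, e4]
  abel

lemma LieRep.mem_InvAll_iff_cas (v : V) : v ∈ R.InvAll ↔ R.cas v = 0 := by
  rw [R.mem_InvAll]
  constructor
  · intro h
    rw [R.cas_apply]
    simp [h]
  · intro h a b
    have h1 := R.cas_inner_self v
    rw [h, inner_zero_left] at h1
    have h2 : ∑ a, ∑ b, ‖R.A a b v‖ ^ 2 = 0 := by linarith
    have h3 := (Finset.sum_eq_zero_iff_of_nonneg
      (fun a _ => Finset.sum_nonneg fun b _ => sq_nonneg _)).1 h2 a (Finset.mem_univ a)
    have h4 := (Finset.sum_eq_zero_iff_of_nonneg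
      (fun b _ => sq_nonneg _)).1 h3 b (Finset.mem_univ b)
    simpa using h4

end basic

end Pool.Agent.K3h92
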