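import Pool.Agent.K3h92.Top
import Pool.Agent.K3h92.Lie

/-!
# Homomorphisms into `SO(ι)`: extension by the identity, block-diagonal elements, permutations
-/

set_option autoImplicit false
set_option linter.unusedSimpArgs false
set_option linter.unusedSectionVars false

open Matrix

namespace Pool.Agent.K3h92

section ext

variable {ι ι' : Type} [Fintype ι] [Fintype ι'] [DecidableEq ι] [DecidableEq ι']

/-- The inclusion matrix of an injection of index sets. -/
def incl (f : ι' → ι) : Matrix ι ι' ℝ := fun a b => if a = f b then 1 else 0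

lemma incl_tr_mul {f : ι' → ι} (hf : Function.Injective f) : (incl f)ᵀ * incl f = 1 := by
  ext a b
  simp only [Matrix.mul_apply, Matrix.transpose_apply, incl, Matrix.one_apply]
  rw [Finset.sum_eq_single (f a)]
  · simp [hf.eq_iff]
  · intro c _ hc
    simp [hc]
  · simp

/-- The extension of a matrix by the identity. -/
def extMat (f : ι' → ι) (g : Matrix ι' ι' ℝ) : Matrix ι ι ℝ :=
  1 + incl f * (g - 1) * (incl f)ᵀ

lemma extMat_one (f : ι' → ι) : extMat f (1 : Matrix ι' ι' ℝ) = 1 := by
  simp [extMat]

lemma extMat_mul {f : ι' → ι} (hf : Function.Injective f) (g h : Matrix ι' ι' ℝ) :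
    extMat f (g * h) = extMat f g * extMat f h := by
  have e : incl f * (g - 1) * (incl f)ᵀ * (incl f * (h - 1) * (incl f)ᵀ) =
      incl f * ((g - 1) * (h - 1)) * (incl f)ᵀ := by
    calc incl f * (g - 1) * (incl f)ᵀ * (incl f * (h - 1) * (incl f)ᵀ) =
        incl f * (g - 1) * ((incl f)ᵀ * incl f) * (h - 1) * (incl f)ᵀ := by
          simp only [Matrix.mul_assoc]
      _ = _ := by rw [incl_tr_mul hf]; simp only [Matrix.mul_assoc, Matrix.mul_one]
  unfold extMat
  rw [add_mul, mul_add, mul_add, e, one_mul, mul_one, one_mul]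
  have e2 : g * h - 1 = (h - 1) + ((g - 1) + (g - 1) * (h - 1)) := by noncomm_ring
  rw [e2, Matrix.mul_add, Matrix.add_mul, Matrix.mul_add, Matrix.add_mul]
  abel

lemma extMat_transpose (f : ι' → ι) (g : Matrix ι' ι' ℝ) : (extMat f g)ᵀ = extMat f gᵀ := by
  simp [extMat, Matrix.transpose_mul, Matrix.mul_assoc]

lemma extMat_mem {f : ι' → ι} (hf : Function.Injective f) {g : Matrix ι' ι' ℝ}
    (hg : g ∈ SO ι') : extMat f g ∈ SO ι := by
  rw [SO.mem_iff] at hg ⊢
  constructor
  · rw [extMat_transpose, ← extMat_mul hf, hg.1, extMat_one]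
  · unfold extMat
    rw [Matrix.mul_assoc, Matrix.det_one_add_mul_comm, Matrix.mul_assoc, incl_tr_mul hf]
    simp [hg.2]

/-- The extension homomorphism. -/
def SO.ext (f : ι' → ι) (hf : Function.Injective f) : SO ι' →* SO ι where
  toFun g := ⟨extMat f g, extMat_mem hf g.2⟩
  map_one' := Subtype.ext (extMat_one f)
  map_mul' _ _ := Subtype.ext (extMat_mul hf _ _)

lemma SO.ext_coe (f : ι' → ι) (hf : Function.Injective f) (g : SO ι') :
    (SO.ext f hf g : Matrix ι ι ℝ) = extMat f g := rfl

lemma extMat_col {f : ι' → ι} (hf : Function.Injective f) (g : Matrix ι' ι' ℝ) (c : ι)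
    (a : ι') : extMat f g c (f a) = ∑ c', if c = f c' then g c' a else 0 := by
  have h1 : extMat f g * incl f = incl f * g := by
    unfold extMat
    rw [Matrix.add_mul, Matrix.mul_assoc, incl_tr_mul hf]
    simp [Matrix.mul_sub]
  have h2 := congrFun (congrFun h1 c) a
  rw [Matrix.mul_apply, Matrix.mul_apply] at h2
  simp only [incl, ite_mul, one_mul, zero_mul, mul_ite, mul_one, mul_zero,
    Finset.sum_ite_eq', Finset.mem_univ, if_true] at h2
  exact h2

lemma incl_single (f : ι' → ι) (a b : ι') :
    incl f * Matrix.single a b (1:ℝ) * (incl f)ᵀ = Matrix.single (f a) (f b) 1 := by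
  ext c d
  rw [Matrix.mul_apply]
  simp only [Matrix.transpose_apply, incl, Matrix.mul_apply, Matrix.single_apply]
  by_cases hc : f a = c
  · by_cases hd : f b = d
    · subst hc
      subst hd
      rw [Finset.sum_eq_single b, Finset.sum_eq_single a]
      · simp
      · intro x _ hx
        simp [hx.symm]
      · simp
      · intro x _ hx
        simp [hx.symm]
      · simp
    · rw [if_neg (by tauto)]
      refine Finset.sum_eq_zero fun x _ => ?_
      by_cases hx : b = x
      · subst hx
        rw [if_neg (Ne.symm hd), mul_zero]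
      · simp [hx]
  · rw [if_neg (by tauto)]
    refine Finset.sum_eq_zero fun x _ => ?_
    have : ∑ j, (if c = f j then (1:ℝ) else 0) * (if a = j ∧ b = x then 1 else 0) = 0 := by
      refine Finset.sum_eq_zero fun j _ => ?_
      by_cases hj : a = j
      · subst hj
        rw [if_neg (Ne.symm hc), zero_mul]
      · simp [hj]
    rw [this, zero_mul]

lemma extMat_rotMat (f : ι' → ι) (a b : ι') (t : ℝ) :
    extMat f (rotMat a b t) = rotMat (f a) (f b) t := by
  unfold extMat rotMat
  simp only [← incl_single f]
  simp only [Matrix.mul_add, Matrix.add_mul, Matrix.mul_sub, Matrix.sub_mul, Matrix.mul_smul,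
    Matrix.smul_mul]
  abel

lemma SO.continuous_ext (f : ι' → ι) (hf : Function.Injective f) :
    Continuous (SO.ext f hf) := by
  refine Continuous.subtype_mk ?_ _
  unfold extMat
  fun_prop

end ext

end Pool.Agent.K3h92
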