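import Pool.Agent.K3h92.Encode

/-!
# Enlarging the group: two overlapping subgroups
-/

set_option autoImplicit false
set_option linter.unusedSimpArgs false
set_option linter.unusedSectionVars false

open Matrix
open scoped RealInnerProductSpace

namespace Pool.Agent.K3h92

open Module.End

section mass

variable {ι : Type} [Fintype ι] [DecidableEq ι] {V : Type}
  [NormedAddCommGroup V] [InnerProductSpace ℝ V] (R : LieRep ι V)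

lemma norm_A_swap (a b : ι) (v : V) : ‖R.A a b v‖ = ‖R.A b a v‖ := by
  rw [R.anti b a, LinearMap.neg_apply, norm_neg]

lemma iso_out {T : Finset ι} {v : V} (hv : ∀ a ∈ T, ∀ b ∈ T, R.A a b v = 0) {a b b' : ι}
    (ha : a ∉ T) (hb : b ∈ T) (hb' : b' ∈ T) : ‖R.A a b v‖ ^ 2 = ‖R.A a b' v‖ ^ 2 := by
  by_cases h : b = b'
  · rw [h]
  have h1 : b ≠ a := fun h' => ha (h' ▸ hb)
  have h2 : b' ≠ a := fun h' => ha (h' ▸ hb')
  refine iso1 (R.A b b') (R.skew _ _) ?_ ?_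
  · rw [R.br_apply b b' a b v, hv b hb b' hb', map_zero, if_neg h2, if_neg h1,
      if_neg (Ne.symm h), if_pos rfl, R.anti a b', LinearMap.neg_apply]
    simp
  · rw [R.br_apply b b' a b' v, hv b hb b' hb', map_zero, if_neg h2, if_neg h1,
      if_pos rfl, if_neg h, R.anti a b, LinearMap.neg_apply]
    simp

lemma mass_bound {T U : Finset ι} (hUT : U ⊆ T) {v : V}
    (hv : ∀ a ∈ T, ∀ b ∈ T, R.A a b v = 0) {c : ℝ} (hc : R.cas v = c • v) :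
    (T.card : ℝ) * ∑ a ∈ Tᶜ, ∑ b ∈ U, ‖R.A a b v‖ ^ 2 ≤ U.card * (c * ‖v‖ ^ 2) := by
  have h1 : (T.card : ℝ) * ∑ a ∈ Tᶜ, ∑ b ∈ U, ‖R.A a b v‖ ^ 2 =
      U.card * ∑ a ∈ Tᶜ, ∑ b ∈ T, ‖R.A a b v‖ ^ 2 := by
    rw [Finset.mul_sum, Finset.mul_sum]
    refine Finset.sum_congr rfl fun a ha => ?_
    rw [Finset.mem_compl] at ha
    rcases U.eq_empty_or_nonempty with h0 | ⟨b₀, hb₀⟩
    · rw [h0]; simp
    · have e1 : ∀ b ∈ T, ‖R.A a b v‖ ^ 2 = ‖R.A a b₀ v‖ ^ 2 := fun b hb =>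
        iso_out R hv ha hb (hUT hb₀)
      rw [Finset.sum_congr rfl e1, Finset.sum_congr rfl (fun b hb => e1 b (hUT hb)),
        Finset.sum_const, Finset.sum_const, nsmul_eq_mul, nsmul_eq_mul]
      ring
  have h2 : 2 * ∑ a ∈ Tᶜ, ∑ b ∈ T, ‖R.A a b v‖ ^ 2 ≤ ∑ a, ∑ b, ‖R.A a b v‖ ^ 2 := by
    have e1 : ∑ a, ∑ b, ‖R.A a b v‖ ^ 2 = ∑ a ∈ T, ∑ b, ‖R.A a b v‖ ^ 2 +
        ∑ a ∈ Tᶜ, ∑ b, ‖R.A a b v‖ ^ 2 := (Finset.sum_add_sum_compl T _).symm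
    have e2 : ∑ a ∈ Tᶜ, ∑ b ∈ T, ‖R.A a b v‖ ^ 2 ≤ ∑ a ∈ Tᶜ, ∑ b, ‖R.A a b v‖ ^ 2 :=
      Finset.sum_le_sum fun a _ => Finset.sum_le_sum_of_subset_of_nonneg
        (Finset.subset_univ _) (fun b _ _ => sq_nonneg _)
    have e3 : ∑ a ∈ Tᶜ, ∑ b ∈ T, ‖R.A a b v‖ ^ 2 ≤ ∑ a ∈ T, ∑ b, ‖R.A a b v‖ ^ 2 := by
      rw [Finset.sum_comm]
      refine Finset.sum_le_sum fun b _ => ?_
      have : ∑ a ∈ Tᶜ, ‖R.A a b v‖ ^ 2 = ∑ a ∈ Tᶜ, ‖R.A b a v‖ ^ 2 :=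
        Finset.sum_congr rfl fun a _ => by rw [norm_A_swap]
      rw [this]
      exact Finset.sum_le_sum_of_subset_of_nonneg
        (Finset.subset_univ _) (fun b _ _ => sq_nonneg _)
    rw [e1]
    linarith
  have h3 : c * ‖v‖ ^ 2 = (1 / 2 : ℝ) * ∑ a, ∑ b, ‖R.A a b v‖ ^ 2 := by
    rw [← R.cas_inner_self, hc, inner_smul_left, real_inner_self_eq_norm_sq]
    simp
  rw [h1, h3]
  gcongr
  linarith

lemma ov_eig {T₁ T₂ : Finset ι} (hT : Disjoint T₁ᶜ T₂ᶜ) {N r : ℕ} (h₁ : T₁.card = N)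
    (h₂ : T₂.card = N) (hr₁ : T₁ᶜ.card = r) (hr₂ : T₂ᶜ.card = r) (hN : 0 < N) {v₁ v₂ : V}
    (hv₁ : ∀ a ∈ T₁, ∀ b ∈ T₁, R.A a b v₁ = 0) (hv₂ : ∀ a ∈ T₂, ∀ b ∈ T₂, R.A a b v₂ = 0)
    {c : ℝ} (hc0 : 0 < c) (hc₁ : R.cas v₁ = c • v₁) (hc₂ : R.cas v₂ = c • v₂) :
    |⟪v₁, v₂⟫| ≤ (r / N) * (‖v₁‖ * ‖v₂‖) := by
  have hsub₁ : T₂ᶜ ⊆ T₁ := by
    intro a ha
    by_contra h
    exact Finset.disjoint_left.1 hT (Finset.mem_compl.2 h) ha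
  have hsub₂ : T₁ᶜ ⊆ T₂ := by
    intro a ha
    by_contra h
    exact Finset.disjoint_left.1 hT ha (Finset.mem_compl.2 h)
  have hNR : (0:ℝ) < N := by exact_mod_cast hN
  have m₁ := mass_bound R hsub₁ hv₁ hc₁
  have m₂ := mass_bound R hsub₂ hv₂ hc₂
  rw [h₁, hr₂] at m₁
  rw [h₂, hr₁] at m₂
  rw [Finset.sum_comm] at m₂
  -- the inner product
  have h3 : c * ⟪v₁, v₂⟫ = ∑ a ∈ T₁ᶜ, ∑ b ∈ T₂ᶜ, ⟪R.A a b v₁, R.A a b v₂⟫ := by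
    have e0 : c * ⟪v₁, v₂⟫ = (1 / 2 : ℝ) * ∑ a, ∑ b, ⟪R.A a b v₁, R.A a b v₂⟫ := by
      rw [← R.cas_inner, hc₁, inner_smul_left]
      simp
    have e1 : ∀ a b, ⟪R.A a b v₁, R.A a b v₂⟫ =
        (if a ∈ T₁ᶜ then (if b ∈ T₂ᶜ then ⟪R.A a b v₁, R.A a b v₂⟫ else 0) else 0) +
        (if b ∈ T₁ᶜ then (if a ∈ T₂ᶜ then ⟪R.A a b v₁, R.A a b v₂⟫ else 0) else 0) := by
      intro a b
      by_cases ha₁ : a ∈ T₁
      · by_cases hb₁ : b ∈ T₁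
        · rw [hv₁ a ha₁ b hb₁]; simp
        · by_cases ha₂ : a ∈ T₂
          · have hb₂ : b ∈ T₂ := hsub₂ (Finset.mem_compl.2 hb₁)
            rw [hv₂ a ha₂ b hb₂]; simp
          · simp [Finset.mem_compl, ha₁, hb₁, ha₂]
      · have ha₂ : a ∈ T₂ := hsub₂ (Finset.mem_compl.2 ha₁)
        by_cases hb₂ : b ∈ T₂
        · rw [hv₂ a ha₂ b hb₂]; simp
        · have hb₁ : b ∈ T₁ := hsub₁ (Finset.mem_compl.2 hb₂)
          simp [Finset.mem_compl, ha₁, hb₁, ha₂, hb₂]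
    have e2 : ∑ a, ∑ b, (if a ∈ T₁ᶜ then (if b ∈ T₂ᶜ then ⟪R.A a b v₁, R.A a b v₂⟫ else 0)
        else 0) = ∑ a ∈ T₁ᶜ, ∑ b ∈ T₂ᶜ, ⟪R.A a b v₁, R.A a b v₂⟫ := by
      rw [← Finset.sum_filter_add_sum_filter_not Finset.univ (fun a => a ∈ T₁ᶜ)]
      have f1 : (Finset.univ.filter (fun a => a ∈ T₁ᶜ)) = T₁ᶜ := by ext; simp
      rw [f1]
      have f2 : ∑ a ∈ Finset.univ.filter (fun a => ¬ a ∈ T₁ᶜ), ∑ b,
          (if a ∈ T₁ᶜ then (if b ∈ T₂ᶜ then ⟪R.A a b v₁, R.A a b v₂⟫ else 0) else 0) = 0 := by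
        refine Finset.sum_eq_zero fun a ha => Finset.sum_eq_zero fun b _ => ?_
        rw [if_neg (Finset.mem_filter.1 ha).2]
      rw [f2, add_zero]
      refine Finset.sum_congr rfl fun a ha => ?_
      simp only [if_pos ha]
      rw [← Finset.sum_filter]
      congr 1
      ext; simp
    have e3 : ∑ a, ∑ b, (if b ∈ T₁ᶜ then (if a ∈ T₂ᶜ then ⟪R.A a b v₁, R.A a b v₂⟫ else 0)
        else 0) = ∑ a ∈ T₁ᶜ, ∑ b ∈ T₂ᶜ, ⟪R.A a b v₁, R.A a b v₂⟫ := by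
      rw [Finset.sum_comm, ← e2]
      refine Finset.sum_congr rfl fun a _ => Finset.sum_congr rfl fun b _ => ?_
      have : ⟪R.A b a v₁, R.A b a v₂⟫ = ⟪R.A a b v₁, R.A a b v₂⟫ := by
        rw [R.anti a b, LinearMap.neg_apply, LinearMap.neg_apply, inner_neg_neg]
      rw [this]
    rw [e0]
    rw [Finset.sum_congr rfl fun a _ => Finset.sum_congr rfl fun b _ => e1 a b]
    simp only [Finset.sum_add_distrib]
    rw [e2, e3]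
    ring
  -- Cauchy-Schwarz
  have h4 : |∑ a ∈ T₁ᶜ, ∑ b ∈ T₂ᶜ, ⟪R.A a b v₁, R.A a b v₂⟫| ≤
      Real.sqrt (∑ a ∈ T₁ᶜ, ∑ b ∈ T₂ᶜ, ‖R.A a b v₁‖ ^ 2) *
      Real.sqrt (∑ a ∈ T₁ᶜ, ∑ b ∈ T₂ᶜ, ‖R.A a b v₂‖ ^ 2) := by
    rw [← Finset.sum_product', ← Finset.sum_product', ← Finset.sum_product']
    refine (Finset.abs_sum_le_sum_abs _ _).trans ?_
    refine (Finset.sum_le_sum fun p _ => abs_real_inner_le_norm _ _).trans ?_
    rw [← Real.sqrt_mul (Finset.sum_nonneg fun p _ => sq_nonneg _)]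
    apply Real.le_sqrt_of_sq_le
    exact Finset.sum_mul_sq_le_sq_mul_sq _ _ _
  have b₁ : ∑ a ∈ T₁ᶜ, ∑ b ∈ T₂ᶜ, ‖R.A a b v₁‖ ^ 2 ≤ (r / N) * c * ‖v₁‖ ^ 2 := by
    have : (r / N : ℝ) * c * ‖v₁‖ ^ 2 = (r * (c * ‖v₁‖ ^ 2)) / N := by ring
    rw [this, le_div_iff₀ hNR]
    linarith
  have b₂ : ∑ a ∈ T₁ᶜ, ∑ b ∈ T₂ᶜ, ‖R.A a b v₂‖ ^ 2 ≤ (r / N) * c * ‖v₂‖ ^ 2 := by
    have : (r / N : ℝ) * c * ‖v₂‖ ^ 2 = (r * (c * ‖v₂‖ ^ 2)) / N := by ring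
    rw [this, le_div_iff₀ hNR]
    have e : ∑ a ∈ T₁ᶜ, ∑ b ∈ T₂ᶜ, ‖R.A a b v₂‖ ^ 2 = ∑ a ∈ T₁ᶜ, ∑ b ∈ T₂ᶜ, ‖R.A b a v₂‖ ^ 2 :=
      Finset.sum_congr rfl fun a _ => Finset.sum_congr rfl fun b _ => by rw [norm_A_swap]
    rw [e]
    linarith
  have hrc : 0 ≤ (r / N : ℝ) * c := by positivity
  have h5 : c * |⟪v₁, v₂⟫| ≤ c * ((r / N) * (‖v₁‖ * ‖v₂‖)) := by
    rw [← abs_of_pos hc0, ← abs_mul, abs_of_pos hc0, h3]
    refine h4.trans ?_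
    calc _ ≤ Real.sqrt ((r / N) * c * ‖v₁‖ ^ 2) * Real.sqrt ((r / N) * c * ‖v₂‖ ^ 2) := by
          gcongr
      _ = (Real.sqrt ((r / N) * c) * Real.sqrt ((r / N) * c)) * (‖v₁‖ * ‖v₂‖) := by
          rw [Real.sqrt_mul hrc, Real.sqrt_mul hrc, Real.sqrt_sq (norm_nonneg _),
            Real.sqrt_sq (norm_nonneg _)]
          ring
      _ = _ := by rw [Real.mul_self_sqrt hrc]; ring
  exact le_of_mul_le_mul_left h5 hc0

lemma ov [FiniteDimensional ℝ V] {T₁ T₂ : Finset ι} (hT : Disjoint T₁ᶜ T₂ᶜ) {N r : ℕ}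
    (h₁ : T₁.card = N) (h₂ : T₂.card = N) (hr₁ : T₁ᶜ.card = r) (hr₂ : T₂ᶜ.card = r)
    (hN : 0 < N) {v₁ v₂ : V}
    (hv₁ : ∀ a ∈ T₁, ∀ b ∈ T₁, R.A a b v₁ = 0) (hv₂ : ∀ a ∈ T₂, ∀ b ∈ T₂, R.A a b v₂ = 0)
    (hI : v₁ ∈ R.InvAllᗮ) :
    |⟪v₁, v₂⟫| ≤ (r / N) * (‖v₁‖ * ‖v₂‖) := by
  refine bilin_of_eig R.cas_symm (by positivity) v₁ v₂ fun μ => ?_
  rcases (R.cas_nonneg_eig μ).eq_or_lt with hμ | hμ
  · rw [R.eigproj_zero hI hμ.symm]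
    simp
  · exact ov_eig R hT h₁ h₂ hr₁ hr₂ hN
      (fun a ha b hb => by rw [R.A_eigproj, hv₁ a ha b hb, map_zero])
      (fun a ha b hb => by rw [R.A_eigproj, hv₂ a ha b hb, map_zero]) hμ
      (mem_eigenspace_iff.1 (Submodule.starProjection_apply_mem _ _))
      (mem_eigenspace_iff.1 (Submodule.starProjection_apply_mem _ _))

end mass

section kaz

variable {ι ι' : Type} [Fintype ι] [DecidableEq ι] [Fintype ι'] [DecidableEq ι']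

/-- **The enlargement step.** -/
theorem Kaz.enlarge {J : Type} [Fintype J] {S : J → SO ι'} {c : ℝ} (hc : 0 ≤ c)
    (hS : Kaz ι' S c) {f₁ f₂ : ι' → ι} (h₁ : Function.Injective f₁)
    (h₂ : Function.Injective f₂) (hcov : ∀ a, a ∈ Set.range f₁ ∨ a ∈ Set.range f₂)
    (hN : 0 < Fintype.card ι')
    (hr : 2 * (Fintype.card ι - Fintype.card ι') ≤ Fintype.card ι') :
    Kaz ι (Sum.elim (fun j => SO.ext f₁ h₁ (S j)) (fun j => SO.ext f₂ h₂ (S j))) (c / 16) := by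
  refine Kaz_of_unit ?_
  intro V _ _ _ R v hv hv1
  rw [Fintype.sum_sum_type]
  simp only [Sum.elim_inl, Sum.elim_inr]
  set W₁ := (R.pull f₁ h₁).InvAll with hW₁
  set W₂ := (R.pull f₂ h₂).InvAll with hW₂
  set v₁ := W₁.starProjection v with hv₁
  set v₂ := W₂.starProjection v with hv₂
  have k₁ : c * ‖v - v₁‖ ^ 2 ≤ ∑ j, ‖R.ρ (SO.ext f₁ h₁ (S j)) v - v‖ ^ 2 := by
    have e1 := hS V (R.pull f₁ h₁) (v - v₁) (Submodule.sub_starProjection_mem_orthogonal _)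
    refine e1.trans (Finset.sum_le_sum fun j _ => ?_)
    have e2 : (R.pull f₁ h₁).ρ (S j) (W₁.starProjection v) =
        W₁.starProjection ((R.pull f₁ h₁).ρ (S j) v) :=
      (proj_comm_orth ((R.pull f₁ h₁).ρ (S j)) ((R.pull f₁ h₁).ρ (S j)⁻¹)
        (fun u v => (R.pull f₁ h₁).inner_ρ_left _ u v) W₁
        (fun w hw => (R.pull f₁ h₁).ρ_mem_InvAll hw)
        (fun w hw => (R.pull f₁ h₁).ρ_mem_InvAll hw) v).symm
    have e3 := (R.pull f₁ h₁).disp_split e2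
    simp only [SORep.pull_ρ] at e3 ⊢
    rw [e3]
    have := sq_nonneg ‖R.ρ (SO.ext f₁ h₁ (S j)) (W₁.starProjection v) - W₁.starProjection v‖
    linarith
  have k₂ : c * ‖v - v₂‖ ^ 2 ≤ ∑ j, ‖R.ρ (SO.ext f₂ h₂ (S j)) v - v‖ ^ 2 := by
    have e1 := hS V (R.pull f₂ h₂) (v - v₂) (Submodule.sub_starProjection_mem_orthogonal _)
    refine e1.trans (Finset.sum_le_sum fun j _ => ?_)
    have e2 : (R.pull f₂ h₂).ρ (S j) (W₂.starProjection v) =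
        W₂.starProjection ((R.pull f₂ h₂).ρ (S j) v) :=
      (proj_comm_orth ((R.pull f₂ h₂).ρ (S j)) ((R.pull f₂ h₂).ρ (S j)⁻¹)
        (fun u v => (R.pull f₂ h₂).inner_ρ_left _ u v) W₂
        (fun w hw => (R.pull f₂ h₂).ρ_mem_InvAll hw)
        (fun w hw => (R.pull f₂ h₂).ρ_mem_InvAll hw) v).symm
    have e3 := (R.pull f₂ h₂).disp_split e2
    simp only [SORep.pull_ρ] at e3 ⊢
    rw [e3]
    have := sq_nonneg ‖R.ρ (SO.ext f₂ h₂ (S j)) (W₂.starProjection v) - W₂.starProjection v‖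
    linarith
  have hle : R.InvAll ≤ W₁ := by
    intro w hw
    rw [hW₁, LieRep.mem_InvAll]
    rw [LieRep.mem_InvAll] at hw
    intro a b
    exact hw _ _
  have hI : v₁ ∈ R.InvAllᗮ := by
    rw [Submodule.mem_orthogonal]
    intro w hw
    rw [hv₁, ← Submodule.inner_starProjection_left_eq_right,
      Submodule.starProjection_eq_self_iff.2 (hle hw)]
    exact (Submodule.mem_orthogonal _ _).1 hv w hw
  set T₁ : Finset ι := Finset.univ.image f₁ with hT₁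
  set T₂ : Finset ι := Finset.univ.image f₂ with hT₂
  have c₁ : T₁.card = Fintype.card ι' := by
    rw [hT₁, Finset.card_image_of_injective _ h₁, Finset.card_univ]
  have c₂ : T₂.card = Fintype.card ι' := by
    rw [hT₂, Finset.card_image_of_injective _ h₂, Finset.card_univ]
  have hdis : Disjoint T₁ᶜ T₂ᶜ := by
    rw [Finset.disjoint_left]
    intro a ha₁ ha₂
    rw [Finset.mem_compl] at ha₁ ha₂
    rcases hcov a with ⟨b, hb⟩ | ⟨b, hb⟩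
    · exact ha₁ (hb ▸ Finset.mem_image_of_mem _ (Finset.mem_univ b))
    · exact ha₂ (hb ▸ Finset.mem_image_of_mem _ (Finset.mem_univ b))
  have hz₁ : ∀ a ∈ T₁, ∀ b ∈ T₁, R.A a b v₁ = 0 := by
    intro a ha b hb
    obtain ⟨x, _, rfl⟩ := Finset.mem_image.1 ha
    obtain ⟨y, _, rfl⟩ := Finset.mem_image.1 hb
    exact ((R.pull f₁ h₁).toLieRep.mem_InvAll _).1 (Submodule.starProjection_apply_mem W₁ v) x y
  have hz₂ : ∀ a ∈ T₂, ∀ b ∈ T₂, R.A a b v₂ = 0 := by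
    intro a ha b hb
    obtain ⟨x, _, rfl⟩ := Finset.mem_image.1 ha
    obtain ⟨y, _, rfl⟩ := Finset.mem_image.1 hb
    exact ((R.pull f₂ h₂).toLieRep.mem_InvAll _).1 (Submodule.starProjection_apply_mem W₂ v) x y
  have hov := ov R.toLieRep hdis c₁ c₂ (r := Fintype.card ι - Fintype.card ι')
    (by rw [Finset.card_compl, c₁]) (by rw [Finset.card_compl, c₂]) hN hz₁ hz₂ hI
  have hNR : (0:ℝ) < Fintype.card ι' := by exact_mod_cast hN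
  have hratio : ((Fintype.card ι - Fintype.card ι' : ℕ) : ℝ) / Fintype.card ι' ≤ 1 / 2 := by
    rw [div_le_div_iff₀ hNR (by norm_num)]
    have : ((2 * (Fintype.card ι - Fintype.card ι') : ℕ) : ℝ) ≤ Fintype.card ι' := by
      exact_mod_cast hr
    push_cast at this ⊢
    linarith
  have hov2 : ⟪v₁, v₂⟫ ≤ 1 / 2 * (‖v₁‖ * ‖v₂‖) :=
    (le_abs_self _).trans (hov.trans (by gcongr))
  have p₁ := proj_pyth W₁ v
  have p₂ := proj_pyth W₂ v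
  rw [hv1, ← hv₁] at p₁
  rw [hv1, ← hv₂] at p₂
  have hdist : ‖v₁ - v₂‖ ^ 2 ≤ 2 * (‖v - v₁‖ ^ 2 + ‖v - v₂‖ ^ 2) := by
    have e1 : v₁ - v₂ = (v - v₂) - (v - v₁) := by abel
    have e2 : ‖v₁ - v₂‖ ≤ ‖v - v₂‖ + ‖v - v₁‖ := by
      rw [e1]; exact norm_sub_le _ _
    have e3 : ‖v₁ - v₂‖ ^ 2 ≤ (‖v - v₂‖ + ‖v - v₁‖) ^ 2 := by gcongr
    nlinarith [sq_nonneg (‖v - v₂‖ - ‖v - v₁‖)]
  rw [norm_sub_sq_real] at hdist
  have hkey : 1 / 16 ≤ ‖v - v₁‖ ^ 2 + ‖v - v₂‖ ^ 2 := by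
    nlinarith [sq_nonneg (‖v₁‖ - ‖v₂‖)]
  nlinarith [mul_le_mul_of_nonneg_left hkey hc]

end kaz

end Pool.Agent.K3h92
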