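import Pool.Agent.K3h92.Encode

/-!
# The encoding step: conclusion
-/

set_option autoImplicit false
set_option linter.unusedSimpArgs false
set_option linter.unusedSectionVars false

open Matrix
open scoped RealInnerProductSpace

namespace Pool.Agent.K3h92

section step

variable {κ₀ : Type} [Fintype κ₀] [DecidableEq κ₀] {r : ℕ}

lemma even_prod (κ₀ : Type) [Fintype κ₀] : Even (Fintype.card (κ₀ × ZMod 2)) := by
  rw [Fintype.card_prod, ZMod.card]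
  exact even_two.mul_left _

/-- Translations as elements of `SO`. -/
def trSO (κ₀ : Type) [Fintype κ₀] [DecidableEq κ₀] {r : ℕ} (t : Bits r) :
    SO ((κ₀ × ZMod 2) × Bits r) :=
  permSO (trPerm (κ₀ × ZMod 2) t) (sign_trPerm (even_prod κ₀) t)

/-- The exchange elements. -/
def wSO (h : Even (Fintype.card κ₀)) (i : Fin r) : SO ((κ₀ × ZMod 2) × Bits r) :=
  permSO (wPerm κ₀ i) (sign_wPerm h i)

lemma trSO_zero : trSO κ₀ (0 : Bits r) = 1 := by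
  refine Subtype.ext ?_
  ext a b
  change (if a = trPerm (κ₀ × ZMod 2) 0 b then (1:ℝ) else 0) = (1 : Matrix _ _ ℝ) a b
  rw [trPerm_apply, add_zero, Matrix.one_apply]

lemma trSO_add (s t : Bits r) : trSO κ₀ (s + t) = trSO κ₀ s * trSO κ₀ t := by
  unfold trSO
  rw [permSO_mul]
  congr 1
  refine Equiv.ext fun a => ?_
  rw [Equiv.Perm.mul_apply, trPerm_apply, trPerm_apply, trPerm_apply, add_assoc, add_comm t s]

variable {V : Type} [NormedAddCommGroup V] [InnerProductSpace ℝ V]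
  (R : SORep ((κ₀ × ZMod 2) × Bits r) V)

lemma tr_disp_le (v : V) (t : Bits r) (s : Finset (Fin r)) :
    ‖R.ρ (trSO κ₀ (∑ i ∈ s, Pi.single i (t i))) v - v‖ ≤
      ∑ i ∈ s, ‖R.ρ (trSO κ₀ (Pi.single i 1)) v - v‖ := by
  induction s using Finset.induction_on with
  | empty => simp [trSO_zero]
  | insert i s hi ih =>
    rw [Finset.sum_insert hi, Finset.sum_insert hi, trSO_add]
    refine (R.disp_mul _ _ v).trans (add_le_add ?_ ih)
    rcases zmod2_cases (t i) with h | h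
    · rw [h, Pi.single_zero, trSO_zero]
      simp
    · rw [h]

lemma tr_disp (v : V) (t : Bits r) :
    ‖R.ρ (trSO κ₀ t) v - v‖ ≤ ∑ i, ‖R.ρ (trSO κ₀ (Pi.single i 1)) v - v‖ := by
  have h := tr_disp_le R v t Finset.univ
  have h2 : ∑ i : Fin r, (Pi.single i (t i) : Bits r) = t := by
    funext j
    rw [Finset.sum_apply]
    simp [Pi.single_apply]
  rw [h2] at h
  exact h

/-- The generators of the encoding step. -/
def stepGen (h : Even (Fintype.card κ₀)) (q : ℕ) (L : Bits r → ℕ → SO (κ₀ × ZMod 2)) :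
    (Fin (2 ^ q) × ZMod 2) ⊕ (Fin r ⊕ Fin r) → SO ((κ₀ × ZMod 2) × Bits r)
  | Sum.inl j => blk (sgen L j.1 j.2)
  | Sum.inr (Sum.inl i) => trSO κ₀ (Pi.single i 1)
  | Sum.inr (Sum.inr i) => wSO h i

variable [FiniteDimensional ℝ V]

lemma totDisp_le (q : ℕ) (L : Bits r → ℕ → SO (κ₀ × ZMod 2)) (v : V) {Δ : ℝ}
    (h1 : ∀ l < 2 ^ q, ∀ b, ‖R.ρ (blk (sgen L l b)) v - v‖ ≤ Δ)
    (h2 : ∀ i : Fin r, ‖R.ρ (trSO κ₀ (Pi.single i 1)) v - v‖ ≤ Δ) :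
    totDisp q R L v ≤ Fintype.card (Bits r) * (2 * 2 ^ q * ((2 * r + 1) * Δ) ^ 2) := by
  unfold totDisp
  have h3 : ∀ t : Bits r, ‖R.ρ (trSO κ₀ t) v - v‖ ≤ r * Δ := by
    intro t
    refine (tr_disp R v t).trans ((Finset.sum_le_sum fun i _ => h2 i).trans ?_)
    simp
  have h4 : ∀ t : Bits r, ∀ l ∈ Finset.range (2 ^ q), ∀ b : ZMod 2,
      ‖R.ρ (blk (fun x => sgen L l b (x + t))) v - v‖ ^ 2 ≤ ((2 * r + 1) * Δ) ^ 2 := by
    intro t l hl b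
    have e1 : blk (fun x => sgen L l b (x + t)) =
        (trSO κ₀ t)⁻¹ * blk (sgen L l b) * trSO κ₀ t := 
          (blk_conj (even_prod κ₀) t (sgen L l b)).symm
    rw [e1]
    have e2 := R.disp_conj (blk (sgen L l b)) (trSO κ₀ t) v
    have e3 := h1 l (Finset.mem_range.1 hl) b
    have e4 := h3 t
    have e5 : ‖R.ρ ((trSO κ₀ t)⁻¹ * blk (sgen L l b) * trSO κ₀ t) v - v‖ ≤
        (2 * r + 1) * Δ := by linarith
    gcongr
  calc ∑ t : Bits r, ∑ l ∈ Finset.range (2 ^ q), ∑ b : ZMod 2,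
      ‖R.ρ (blk (fun x => sgen L l b (x + t))) v - v‖ ^ 2 ≤
      ∑ t : Bits r, ∑ l ∈ Finset.range (2 ^ q), ∑ b : ZMod 2, ((2 * r + 1) * Δ) ^ 2 :=
        Finset.sum_le_sum fun t _ => Finset.sum_le_sum fun l hl =>
          Finset.sum_le_sum fun b _ => h4 t l hl b
    _ = _ := by
      simp only [Finset.sum_const, Finset.card_univ, Finset.card_range, nsmul_eq_mul, ZMod.card]
      push_cast
      ring

/-- **The encoding step.** -/
theorem step_kaz (h : Even (Fintype.card κ₀)) (hκ : 4 ≤ Fintype.card (κ₀ × ZMod 2)) {q : ℕ}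
    (hr1 : 1 ≤ r) (hr : r ≤ 2 ^ q) {L : Bits r → ℕ → SO (κ₀ × ZMod 2)}
    {S : Bits r → SO (κ₀ × ZMod 2)} (hL : ∀ u, bal q (L u) = S u)
    (hS : AvgLe (κ₀ × ZMod 2) S (1 / 2)) :
    Kaz ((κ₀ × ZMod 2) × Bits r) (stepGen h q L) ((1 / (122 * (r : ℝ) ^ 2 * (2 ^ q) ^ 2)) ^ 2) := by
  refine Kaz_of_unit ?_
  intro V _ _ _ R v hv hv1
  by_contra hcon
  push Not at hcon
  set η : ℝ := 1 / (122 * (r : ℝ) ^ 2 * (2 ^ q) ^ 2) with hη
  have hrR : (1 : ℝ) ≤ r := by exact_mod_cast hr1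
  have hqR : (1 : ℝ) ≤ 2 ^ q := one_le_pow₀ (by norm_num)
  have hη0 : 0 < η := by positivity
  set Δ : ℝ := Real.sqrt (∑ j, ‖R.ρ (stepGen h q L j) v - v‖ ^ 2) with hΔ
  have hsum0 : 0 ≤ ∑ j, ‖R.ρ (stepGen h q L j) v - v‖ ^ 2 :=
    Finset.sum_nonneg fun j _ => sq_nonneg _
  have hΔ0 : 0 ≤ Δ := Real.sqrt_nonneg _
  have hΔη : Δ < η := by
    rw [hΔ, Real.sqrt_lt hsum0 hη0.le]
    exact hcon
  have hj : ∀ j, ‖R.ρ (stepGen h q L j) v - v‖ ≤ Δ := by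
    intro j
    rw [hΔ]
    apply Real.le_sqrt_of_sq_le
    exact Finset.single_le_sum (f := fun j => ‖R.ρ (stepGen h q L j) v - v‖ ^ 2)
      (fun j _ => sq_nonneg _) (Finset.mem_univ j)
  have h1 : ∀ l < 2 ^ q, ∀ b, ‖R.ρ (blk (sgen L l b)) v - v‖ ≤ Δ := fun l hl b =>
    hj (Sum.inl (⟨l, hl⟩, b))
  have h2 : ∀ i : Fin r, ‖R.ρ (trSO κ₀ (Pi.single i 1)) v - v‖ ≤ Δ := fun i =>
    hj (Sum.inr (Sum.inl i))
  have h3 : ∀ i : Fin r, ‖R.ρ (wSO h i) v - v‖ ≤ Δ := fun i => hj (Sum.inr (Sum.inr i))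
  have h4 := totDisp_le R q L v h1 h2
  have h5 := rows_full R hr hL hS Finset.univ v
  rw [Finset.coe_univ, LieRep.InvK_univ] at h5
  set a : ℝ := ‖v - (R.Inv (fun a : (κ₀ × ZMod 2) × Bits r => a.2)).starProjection v‖ with ha
  have ha0 : 0 ≤ a := norm_nonneg _
  have ha1 : a ≤ 1 := (proj_norm_le _ v).trans hv1.le
  have hX : (0 : ℝ) < Fintype.card (Bits r) := by
    exact_mod_cast Fintype.card_pos
  have h6 : a ^ 2 ≤ (2 ^ q) ^ 3 * (2 * 2 ^ q * ((2 * r + 1) * Δ) ^ 2) := by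
    have : (Fintype.card (Bits r) : ℝ) * a ^ 2 ≤
        Fintype.card (Bits r) * ((2 ^ q) ^ 3 * (2 * 2 ^ q * ((2 * r + 1) * Δ) ^ 2)) := by
      calc _ ≤ _ := h5
        _ ≤ (2 ^ q) ^ 3 * (Fintype.card (Bits r) * (2 * 2 ^ q * ((2 * r + 1) * Δ) ^ 2)) := by
          gcongr
        _ = _ := by ring
    exact le_of_mul_le_mul_left this hX
  set Q : ℝ := 2 ^ q with hQ
  have h7 : a ≤ 9 / 2 * r * Q ^ 2 * Δ := by
    have e1 : Q ^ 3 * (2 * Q * ((2 * r + 1) * Δ) ^ 2) ≤ (9 / 2 * r * Q ^ 2 * Δ) ^ 2 := by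
      have e2 : (2 * (r:ℝ) + 1) ^ 2 ≤ 9 * r ^ 2 := by nlinarith
      have e3 : 0 ≤ Q ^ 4 * Δ ^ 2 := by positivity
      nlinarith [mul_le_mul_of_nonneg_right e2 e3, mul_nonneg e3 (sq_nonneg (r:ℝ))]
    exact le_of_sq_le_sq (h6.trans e1) (by positivity)
  have h8 : Q ^ 2 * (r:ℝ) ^ 2 * η = 1 / 122 := by
    rw [hη]
    field_simp
  have hQr : 1 ≤ Q ^ 2 * (r:ℝ) := by
    have : 1 ≤ Q ^ 2 := by nlinarith
    nlinarith
  have h9 : Q ^ 2 * (r:ℝ) ^ 2 * Δ ≤ 1 / 122 := by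
    rw [← h8]
    gcongr
  have h10 : (r : ℝ) * a ≤ 9 / 2 * (Q ^ 2 * (r:ℝ) ^ 2 * Δ) := by
    nlinarith
  have h10' : a ≤ (r : ℝ) * a := by nlinarith
  have h11 : (r:ℝ) * Δ ≤ Q ^ 2 * (r:ℝ) ^ 2 * Δ := by
    have : (r:ℝ) * Δ * 1 ≤ (r:ℝ) * Δ * (Q ^ 2 * r) := by gcongr
    nlinarith
  have h12 : Δ ≤ (r:ℝ) * Δ := by nlinarith
  have hT : ∀ i : Fin r, ‖v - (R.toLieRep.InvT (foldAt (κ₀ × ZMod 2) i).τ).starProjection v‖ ≤
      a + Δ := by
    intro i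
    have e1 := T_bound R h i v
    have e2 : ‖R.ρ (permSO (wPerm κ₀ i) (sign_wPerm h i)) v - v‖ ≤ Δ := h3 i
    linarith
  have hs1 : a + Δ ≤ 1 := by
    linarith
  have h13 := chain_estimate R.toLieRep hκ hv1 hv (δ := a + Δ) hs1 (by positivity) hT
  have h14 : a ^ 2 ≤ a := by
    have := mul_le_mul_of_nonneg_left ha1 ha0
    linarith [this, sq a]
  have h15 : 3 * (r:ℝ) * (a + Δ) = 3 * (r * a) + 3 * (r * Δ) := by ring
  rw [h15] at h13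
  linarith

end step

end Pool.Agent.K3h92
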