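import Pool.Agent.K3h92.Sq
import Pool.Agent.K3h92.Step
import Pool.Agent.K3h92.Ov

/-!
# Families indexed by bit strings with a small average
-/

set_option autoImplicit false
set_option linter.unusedSimpArgs false
set_option linter.unusedSectionVars false

open Matrix
open scoped RealInnerProductSpace

namespace Pool.Agent.K3h92

section basic

variable {ι : Type} [Fintype ι] [DecidableEq ι]

lemma AvgLe.mono {J : Type} [Fintype J] {S : J → SO ι} {l l' : ℝ} (h : AvgLe ι S l)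
    (hl : l ≤ l') : AvgLe ι S l' := by
  intro V _ _ _ R v hv
  refine (h V R v hv).trans ?_
  gcongr

lemma AvgLe.of_equiv {J J' : Type} [Fintype J] [Fintype J'] (e : J' ≃ J) {S : J → SO ι} {l : ℝ}
    (h : AvgLe ι S l) : AvgLe ι (fun j => S (e j)) l := by
  intro V _ _ _ R v hv
  rw [e.sum_comp (fun j => R.ρ (S j) v), Fintype.card_congr e]
  exact h V R v hv

lemma AvgLe.prod_const {J J' : Type} [Fintype J] [Fintype J'] {S : J → SO ι} {l : ℝ}
    (h : AvgLe ι S l) : AvgLe ι (fun p : J × J' => S p.1) l := by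
  intro V _ _ _ R v hv
  rw [Fintype.sum_prod_type, Fintype.card_prod]
  simp only [Finset.sum_const, Finset.card_univ]
  rw [← Finset.smul_sum, ← Nat.cast_smul_eq_nsmul ℝ, norm_smul, Real.norm_natCast]
  have := h V R v hv
  calc (Fintype.card J' : ℝ) * ‖∑ j, R.ρ (S j) v‖ ≤
      (Fintype.card J' : ℝ) * (l * Fintype.card J * ‖v‖) := by gcongr
    _ = _ := by push_cast; ring

lemma AvgLe.mul {J J' : Type} [Fintype J] [Fintype J'] {S : J → SO ι} {S' : J' → SO ι}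
    {l l' : ℝ} (hl : 0 ≤ l) (h : AvgLe ι S l) (h' : AvgLe ι S' l') :
    AvgLe ι (fun p : J × J' => S p.1 * S' p.2) (l * l') := by
  intro V _ _ _ R v hv
  rw [Fintype.sum_prod_type, Fintype.card_prod]
  have e1 : ∑ x, ∑ y, R.ρ (S x * S' y) v = ∑ x, R.ρ (S x) (∑ y, R.ρ (S' y) v) := by
    refine Finset.sum_congr rfl fun x _ => ?_
    rw [map_sum]
    refine Finset.sum_congr rfl fun y _ => R.ρ_mul _ _ _
  simp only [e1]
  have h1 := h V R (∑ y, R.ρ (S' y) v) (Submodule.sum_mem _ fun y _ => R.ρ_mem_orth _ hv)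
  have h2 := h' V R v hv
  refine h1.trans ?_
  calc l * Fintype.card J * ‖∑ y, R.ρ (S' y) v‖ ≤
      l * Fintype.card J * (l' * Fintype.card J' * ‖v‖) := by gcongr
    _ = _ := by push_cast; ring

/-- `SO(ι)` has a family indexed by `b` bits with an average of norm at most `1 - δ`. -/
def HA (ι : Type) [Fintype ι] [DecidableEq ι] (b : ℕ) (δ : ℝ) : Prop :=
  ∃ S : Bits b → SO ι, AvgLe ι S (1 - δ)

lemma HA.mono {b : ℕ} {δ δ' : ℝ} (h : HA ι b δ) (hδ : δ' ≤ δ) : HA ι b δ' := by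
  obtain ⟨S, hS⟩ := h
  exact ⟨S, hS.mono (by linarith)⟩

lemma HA.pad_add {b : ℕ} {δ : ℝ} (h : HA ι b δ) (c : ℕ) : HA ι (b + c) δ := by
  obtain ⟨S, hS⟩ := h
  exact ⟨_, (hS.prod_const (J' := Bits c)).of_equiv (Fin.appendEquiv b c).symm⟩

lemma HA.pad {b b' : ℕ} {δ : ℝ} (h : HA ι b δ) (hb : b ≤ b') : HA ι b' δ := by
  obtain ⟨c, rfl⟩ := Nat.exists_eq_add_of_le hb
  exact h.pad_add c

lemma HA.mul {b b' : ℕ} {l l' : ℝ} (hl : 0 ≤ l) (h : HA ι b (1 - l))
    (h' : HA ι b' (1 - l')) : HA ι (b + b') (1 - l * l') := by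
  obtain ⟨S, hS⟩ := h
  obtain ⟨S', hS'⟩ := h'
  have h1 : AvgLe ι S l := by simpa using hS
  have h2 : AvgLe ι S' l' := by simpa using hS'
  refine ⟨_, ((h1.mul hl h2).mono (le_of_eq ?_)).of_equiv (Fin.appendEquiv b b').symm⟩
  ring

lemma HA.pow {b : ℕ} {l : ℝ} (hl : 0 ≤ l) (h : HA ι b (1 - l)) (n : ℕ) :
    HA ι (b * (n + 1)) (1 - l ^ (n + 1)) := by
  induction n with
  | zero => simpa using h
  | succ n ih =>
    rw [mul_add, mul_one, pow_succ]
    exact HA.mul (pow_nonneg hl _) ih h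

lemma HA.amplify {b : ℕ} {δ : ℝ} (hδ : 0 < δ) (hδ1 : δ ≤ 1) (h : HA ι b δ) :
    ∃ b', HA ι b' (1 / 2) := by
  obtain ⟨n, hn⟩ := exists_pow_lt_of_lt_one (by norm_num : (0:ℝ) < 1 / 2)
    (by linarith : 1 - δ < 1)
  have h1 : HA ι b (1 - (1 - δ)) := by simpa using h
  refine ⟨_, (HA.pow (by linarith) h1 n).mono ?_⟩
  have h2 : (1 - δ) ^ (n + 1) ≤ (1 - δ) ^ n :=
    pow_le_pow_of_le_one (by linarith) (by linarith) (Nat.le_succ n)
  linarith

/-- From a Kazhdan constant to an average. -/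
lemma Kaz.toHA {J : Type} [Fintype J] {S : J → SO ι} {c : ℝ} (hS : Kaz ι S c) (hc : 0 ≤ c)
    {b : ℕ} (hb : Fintype.card J < 2 ^ b) : HA ι b (c / (4 * 4 ^ b)) := by
  classical
  have hcard : Fintype.card (Bits b) = 2 ^ b := by simp [ZMod.card]
  obtain ⟨e⟩ : Nonempty (Option J ↪ Bits b) := by
    apply Function.Embedding.nonempty_of_card_le
    rw [Fintype.card_option, hcard]
    omega
  obtain ⟨T, hT1, hT0⟩ : ∃ T : Bits b → SO ι, (∀ j, T (e (some j)) = S j) ∧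
      T (e none) = 1 := by
    refine ⟨fun x => if h : ∃ j, e (some j) = x then S h.choose else 1, ?_, ?_⟩
    · intro j
      have h : ∃ j', e (some j') = e (some j) := ⟨j, rfl⟩
      simp only [dif_pos h]
      congr 1
      exact Option.some_injective _ (e.injective h.choose_spec)
    · simp only
      rw [dif_neg]
      rintro ⟨j, hj⟩
      exact absurd (e.injective hj) (by simp)
  refine ⟨T, ?_⟩
  intro V _ _ _ R v hv
  set N : ℝ := (Fintype.card (Bits b) : ℝ) with hN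
  have hN2 : N = 2 ^ b := by rw [hN, hcard]; simp
  have hN0 : 0 < N := by rw [hN2]; positivity
  have h1 : ∑ x, ∑ y, ‖R.ρ (T x) v - R.ρ (T y) v‖ ^ 2 =
      2 * (N ^ 2 * ‖v‖ ^ 2 - ‖∑ x, R.ρ (T x) v‖ ^ 2) := by
    have e1 : ∀ x y, ‖R.ρ (T x) v - R.ρ (T y) v‖ ^ 2 =
        2 * ‖v‖ ^ 2 - 2 * ⟪R.ρ (T x) v, R.ρ (T y) v⟫ := by
      intro x y
      rw [norm_sub_sq_real, R.norm_ρ, R.norm_ρ]; ring
    have e2 : ∑ x, ∑ y, ‖R.ρ (T x) v - R.ρ (T y) v‖ ^ 2 =
        ∑ x, ∑ y, (2 * ‖v‖ ^ 2 - 2 * ⟪R.ρ (T x) v, R.ρ (T y) v⟫) :=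
      Finset.sum_congr rfl fun x _ => Finset.sum_congr rfl fun y _ => e1 x y
    have e3 : ∑ x, ∑ y, ⟪R.ρ (T x) v, R.ρ (T y) v⟫ = ‖∑ x, R.ρ (T x) v‖ ^ 2 := by
      rw [← real_inner_self_eq_norm_sq, sum_inner]
      refine Finset.sum_congr rfl fun x _ => ?_
      rw [inner_sum]
    rw [e2]
    simp only [Finset.sum_sub_distrib, ← Finset.mul_sum]
    rw [e3]
    simp only [Finset.sum_const, Finset.card_univ, nsmul_eq_mul]
    rw [← hN]
    ring
  have h2 : c * ‖v‖ ^ 2 ≤ ∑ x, ∑ y, ‖R.ρ (T x) v - R.ρ (T y) v‖ ^ 2 := by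
    refine (hS V R v hv).trans ?_
    have e1 : ∑ j, ‖R.ρ (S j) v - v‖ ^ 2 ≤
        ∑ y, ‖R.ρ (T (e none)) v - R.ρ (T y) v‖ ^ 2 := by
      have e2 : ∑ j, ‖R.ρ (S j) v - v‖ ^ 2 =
          ∑ y ∈ (Finset.univ : Finset J).map
            ⟨fun j => e (some j), fun a b h => Option.some_injective _ (e.injective h)⟩,
            ‖R.ρ (T (e none)) v - R.ρ (T y) v‖ ^ 2 := by
        rw [Finset.sum_map]
        refine Finset.sum_congr rfl fun j _ => ?_
        change _ = ‖R.ρ (T (e none)) v - R.ρ (T (e (some j))) v‖ ^ 2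
        rw [hT1, hT0, R.ρ_one, norm_sub_rev]
      rw [e2]
      exact Finset.sum_le_sum_of_subset_of_nonneg (Finset.subset_univ _)
        (fun y _ _ => sq_nonneg _)
    exact e1.trans (Finset.single_le_sum
      (f := fun x => ∑ y, ‖R.ρ (T x) v - R.ρ (T y) v‖ ^ 2)
      (fun x _ => Finset.sum_nonneg fun y _ => sq_nonneg _) (Finset.mem_univ (e none)))
  rw [h1] at h2
  have h3 : ‖∑ x, R.ρ (T x) v‖ ^ 2 ≤ ((1 - c / (4 * 4 ^ b)) * N * ‖v‖) ^ 2 := by
    have e1 : (4:ℝ) ^ b = N ^ 2 := by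
      rw [hN2, ← pow_mul, mul_comm, pow_mul]; norm_num
    rw [e1]
    have e2 : ((1 - c / (4 * N ^ 2)) * N * ‖v‖) ^ 2 =
        (N ^ 2 - c / 2 + (c / (4 * N)) ^ 2) * ‖v‖ ^ 2 := by
      field_simp
      ring
    rw [e2]
    nlinarith [mul_nonneg (sq_nonneg (c / (4 * N))) (sq_nonneg ‖v‖)]
  -- the bound `c ≤ 4 N²` holds unless `v = 0`
  have h4 : 0 ≤ (1 - c / (4 * 4 ^ b)) * N * ‖v‖ := by
    rcases (norm_nonneg v).eq_or_lt with h0 | h0
    · rw [← h0]; simp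
    · have e1 : (4:ℝ) ^ b = N ^ 2 := by
        rw [hN2, ← pow_mul, mul_comm, pow_mul]; norm_num
      have e2 : c ≤ 4 * N ^ 2 := by
        have : c * ‖v‖ ^ 2 ≤ (4 * N ^ 2) * ‖v‖ ^ 2 := by
          nlinarith [sq_nonneg ‖∑ x, R.ρ (T x) v‖, mul_nonneg (sq_nonneg N) (sq_nonneg ‖v‖)]
        exact le_of_mul_le_mul_right this (by positivity)
      have e3 : c / (4 * 4 ^ b) ≤ 1 := by
        rw [e1, div_le_one (by positivity)]; exact e2
      have : 0 ≤ 1 - c / (4 * 4 ^ b) := by linarith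
      positivity
  exact le_of_sq_le_sq h3 h4

lemma Kaz.toHA_half {J : Type} [Fintype J] {S : J → SO ι} {c : ℝ} (hS : Kaz ι S c)
    (hc : 0 < c) : ∃ b, HA ι b (1 / 2) := by
  obtain ⟨b, hb⟩ : ∃ b, Fintype.card J < 2 ^ b := ⟨_, Nat.lt_two_pow_self⟩
  have h1 := hS.toHA hc.le hb
  have h2 : 0 < min 1 (c / (4 * 4 ^ b)) := lt_min one_pos (by positivity)
  exact (h1.mono (min_le_right _ _)).amplify h2 (min_le_left _ _)

lemma HA.toKaz {b : ℕ} (h : HA ι b (1 / 2)) : ∃ S : Bits b → SO ι, Kaz ι S 1 := by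
  obtain ⟨S, hS⟩ := h
  refine ⟨S, ?_⟩
  intro V _ _ _ R v hv
  refine le_trans ?_ (hS.disp R hv)
  have h1 : (1:ℝ) ≤ Fintype.card (Bits b) := by
    exact_mod_cast Fintype.card_pos
  nlinarith [sq_nonneg ‖v‖]

end basic

section transfer

variable {ι ι' : Type} [Fintype ι] [DecidableEq ι] [Fintype ι'] [DecidableEq ι']

lemma pull_equiv_InvAll {V : Type} [NormedAddCommGroup V] [InnerProductSpace ℝ V]
    (R : SORep ι' V) (e : ι ≃ ι') : (R.pull e e.injective).InvAll = R.InvAll := by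
  ext v
  rw [LieRep.mem_InvAll, LieRep.mem_InvAll]
  constructor
  · intro h a b
    have := h (e.symm a) (e.symm b)
    simpa using this
  · intro h a b
    exact h _ _

lemma AvgLe.transfer {J : Type} [Fintype J] {S : J → SO ι} {l : ℝ} (h : AvgLe ι S l)
    (e : ι ≃ ι') : AvgLe ι' (fun j => SO.ext e e.injective (S j)) l := by
  intro V _ _ _ R v hv
  exact h V (R.pull e e.injective) v (by rw [pull_equiv_InvAll]; exact hv)

lemma Kaz.transfer {J : Type} [Fintype J] {S : J → SO ι} {c : ℝ} (h : Kaz ι S c)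
    (e : ι ≃ ι') : Kaz ι' (fun j => SO.ext e e.injective (S j)) c := by
  intro V _ _ _ R v hv
  exact h V (R.pull e e.injective) v (by rw [pull_equiv_InvAll]; exact hv)

lemma HA.transfer {b : ℕ} {δ : ℝ} (h : HA ι b δ) (e : ι ≃ ι') : HA ι' b δ := by
  obtain ⟨S, hS⟩ := h
  exact ⟨_, hS.transfer e⟩

lemma Kaz.reindex {J J' : Type} [Fintype J] [Fintype J'] {S : J → SO ι} {c : ℝ}
    (h : Kaz ι S c) (e : J' ≃ J) : Kaz ι (fun j => S (e j)) c := by
  intro V _ _ _ R v hv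
  rw [e.sum_comp (fun j => ‖R.ρ (S j) v - v‖ ^ 2)]
  exact h V R v hv

lemma Kaz.mono {J : Type} [Fintype J] {S : J → SO ι} {c c' : ℝ}
    (h : Kaz ι S c) (hc : c' ≤ c) : Kaz ι S c' := by
  intro V _ _ _ R v hv
  refine le_trans ?_ (h V R v hv)
  gcongr

end transfer

end Pool.Agent.K3h92
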