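import Pool.Agent.K3h92.Top

/-!
# The six rotations of Lubotzky, Phillips and Sarnak: shared definitions
-/

set_option autoImplicit false

open Matrix

namespace Pool.Agent.K3h92

/-- The Hecke polynomials: `S_0 = 1`, `S_1 = B`, `S_{l+2} = B S_{l+1} - 5 S_l`. -/
def hecke {A : Type*} [Ring A] (B : A) : ℕ → A
  | 0 => 1
  | 1 => B
  | (l + 2) => B * hecke B (l + 1) - 5 * hecke B l

/-- The angle `arccos (-3/5)` of the LPS rotations. -/
noncomputable def lpsAngle : ℝ := Real.arccos (-3 / 5)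

/-- The three coordinate planes of `ℝ³`. -/
def plane : Fin 3 → Fin 3 × Fin 3 := ![(0, 1), (1, 2), (2, 0)]

lemma plane_ne (k : Fin 3) : (plane k).1 ≠ (plane k).2 := by
  fin_cases k <;> decide

/-- The six LPS rotations: by the angles `± arccos (-3/5)` in the coordinate planes. -/
noncomputable def lps (j : Fin 3 × Bool) : SO (Fin 3) :=
  rot (plane j.1).1 (plane j.1).2 (plane_ne j.1) (if j.2 then lpsAngle else -lpsAngle)

/-- The kernel `((1 + tr g) / 4) ^ n`. -/
noncomputable def ker4 (n : ℕ) (g : SO (Fin 3)) : ℝ :=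
  ((1 + Matrix.trace (g : Matrix (Fin 3) (Fin 3) ℝ)) / 4) ^ n

end Pool.Agent.K3h92
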