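import Pool.Agent.K3h92.Rec
import Pool.Agent.K3h54.Lps.LpsBase
import Pool.Agent.K3h54.Lps.LpsArith
import Pool.Agent.K3h56.LpsAnalytic

/-!
# Uniform Kazhdan constants for all the groups `SO(n)`
-/

set_option autoImplicit false
set_option linter.unusedSimpArgs false
set_option linter.unusedSectionVars false

open Matrix
open scoped RealInnerProductSpace

namespace Pool.Agent.K3h92

theorem base3 : ∃ c : ℝ, 0 < c ∧ Kaz (Fin 3) lps c :=
  K3h54.Lps.base3_of K3h54.Lps.lps_arith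
    (fun V _ _ _ R c hc hcas I _ w s v hv hs n hn hn1 =>
      K3h56.so3_analytic V R c hc hcas I w s v hv hs n hn hn1)

section fin

lemma Kaz.enlarge_fin {N n : ℕ} (hN : 0 < N) (h1 : N ≤ n) (h2 : 2 * (n - N) ≤ N)
    {J : Type} [Fintype J] {S : J → SO (Fin N)} {c : ℝ} (hc : 0 ≤ c) (hS : Kaz (Fin N) S c) :
    ∃ S' : J ⊕ J → SO (Fin n), Kaz (Fin n) S' (c / 16) := by
  have i1 : Function.Injective (fun i : Fin N => (⟨i, lt_of_lt_of_le i.2 h1⟩ : Fin n)) :=
    fun a b h => Fin.ext (by simpa using h)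
  have i2 : Function.Injective (fun i : Fin N => (⟨i + (n - N), by omega⟩ : Fin n)) :=
    fun a b h => Fin.ext (by simpa using h)
  refine ⟨_, hS.enlarge hc i1 i2 ?_ (by simpa using hN) (by simpa using h2)⟩
  intro a
  by_cases ha : (a : ℕ) < N
  · left
    exact ⟨⟨a, ha⟩, rfl⟩
  · right
    refine ⟨⟨a - (n - N), by omega⟩, ?_⟩
    apply Fin.ext
    simp only
    omega

lemma Kaz.toFin {ι : Type} [Fintype ι] [DecidableEq ι] {J : Type} [Fintype J] {S : J → SO ι}
    {c : ℝ} (hS : Kaz ι S c) {K : ℕ} (hK : Fintype.card J ≤ K) :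
    ∃ S' : Fin K → SO ι, Kaz ι S' c := by
  classical
  obtain ⟨e⟩ : Nonempty (J ↪ Fin K) := by
    apply Function.Embedding.nonempty_of_card_le
    rwa [Fintype.card_fin]
  obtain ⟨T, hT⟩ : ∃ T : Fin K → SO ι, ∀ j, T (e j) = S j := by
    refine ⟨fun x => if h : ∃ j, e j = x then S h.choose else 1, ?_⟩
    intro j
    have h : ∃ j', e j' = e j := ⟨j, rfl⟩
    simp only [dif_pos h]
    congr 1
    exact e.injective h.choose_spec
  refine ⟨T, ?_⟩
  intro V _ _ _ R v hv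
  refine (hS V R v hv).trans ?_
  have e1 : ∑ j, ‖R.ρ (S j) v - v‖ ^ 2 =
      ∑ y ∈ (Finset.univ : Finset J).map e, ‖R.ρ (T y) v - v‖ ^ 2 := by
    rw [Finset.sum_map]
    refine Finset.sum_congr rfl fun j _ => ?_
    rw [hT]
  rw [e1]
  exact Finset.sum_le_sum_of_subset_of_nonneg (Finset.subset_univ _)
    (fun y _ _ => sq_nonneg _)

lemma nonuniform : ∀ n : ℕ, 3 ≤ n → ∃ b, HA (Fin n) b (1 / 2) := by
  have h : ∀ n : ℕ, 3 ≤ n → ∃ (K : ℕ) (S : Fin K → SO (Fin n)) (c : ℝ),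
      0 < c ∧ Kaz (Fin n) S c := by
    intro n hn
    induction n, hn using Nat.le_induction with
    | base =>
      obtain ⟨c, hc, h⟩ := base3
      obtain ⟨S, hS⟩ := h.toFin le_rfl
      exact ⟨_, S, c, hc, hS⟩
    | succ n hn ih =>
      obtain ⟨K, S, c, hc, hS⟩ := ih
      obtain ⟨S', hS'⟩ := hS.enlarge_fin (n := n + 1) (by omega) (by omega) (by omega) hc.le
      obtain ⟨S'', hS''⟩ := hS'.toFin le_rfl
      exact ⟨_, S'', c / 16, by positivity, hS''⟩
  intro n hn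
  obtain ⟨K, S, c, hc, hS⟩ := h n hn
  exact hS.toHA_half hc

/-- All the groups `SO(4 · 2^i)` have families of the same size with small averages. -/
theorem uniform_pow : ∃ L : ℕ, ∀ i, HA (Fin (4 * 2 ^ i)) (2 ^ L) (1 / 2) := by
  obtain ⟨C, hC⟩ := exists_mixing
  obtain ⟨L₀, hL₀⟩ := exists_good C
  have hge : ∀ i : ℕ, 3 ≤ 4 * 2 ^ i := fun i => by
    have : 1 ≤ 2 ^ i := Nat.one_le_two_pow
    omega
  choose bf hbf using fun i : ℕ => nonuniform (4 * 2 ^ i) (hge i)
  set b₀ := bf 0 with hb₀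
  set M := ∑ i ∈ Finset.range (b₀ + 1), bf i with hM
  set L := max L₀ M with hL
  have hgood : Good C L := hL₀ L (le_max_left _ _)
  have hML : M ≤ 2 ^ L := (le_max_right L₀ M).trans Nat.lt_two_pow_self.le
  have hsmall : ∀ i, i ≤ b₀ → bf i ≤ 2 ^ L := by
    intro i hi
    refine le_trans ?_ hML
    exact Finset.single_le_sum (f := bf) (fun _ _ => Nat.zero_le _)
      (Finset.mem_range.2 (by omega))
  refine ⟨L, ?_⟩
  intro i
  induction i using Nat.strong_induction_on with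
  | _ i ih =>
    by_cases h1 : i ≤ b₀
    · exact (hbf i).pad (hsmall i h1)
    · by_cases h2 : i ≤ 2 ^ L
      · have h3 : HA (Fin (4 * 2 ^ 0)) i (1 / 2) := (hbf 0).pad (by omega)
        have h4 := rec_step hC hgood (by omega) h2 h3
        rw [Nat.zero_add] at h4
        exact h4
      · have h3 := ih (i - 2 ^ L) (by
          have : 0 < 2 ^ L := by positivity
          omega)
        have h4 := rec_step hC hgood Nat.one_le_two_pow le_rfl h3
        have h5 : i - 2 ^ L + 2 ^ L = i := by omega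
        rw [h5] at h4
        exact h4

/-- **Uniform Kazhdan constants.** -/
theorem uniform_kaz : ∃ (K : ℕ) (c : ℝ), 0 < c ∧ ∀ n : ℕ, 3 ≤ n →
    ∃ S : Fin K → SO (Fin n), Kaz (Fin n) S c := by
  obtain ⟨L, hL⟩ := uniform_pow
  obtain ⟨c₃, hc₃, h₃⟩ := base3
  set J := (Bits (2 ^ L) ⊕ Bits (2 ^ L)) ⊕ (Bits (2 ^ L) ⊕ Bits (2 ^ L)) with hJ
  refine ⟨max (Fintype.card (Fin 3 × Bool)) (Fintype.card J), min c₃ (1 / 256),
    lt_min hc₃ (by norm_num), ?_⟩
  intro n hn
  by_cases h3 : n = 3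
  · subst h3
    exact (h₃.mono (min_le_left _ _)).toFin (le_max_left _ _)
  · obtain ⟨i, hi1, hi2⟩ : ∃ i, 4 * 2 ^ i ≤ n ∧ n < 4 * 2 ^ (i + 1) := by
      have h4 : 4 ≤ n := by omega
      refine ⟨Nat.log 2 (n / 4), ?_, ?_⟩
      · have := Nat.pow_log_le_self 2 (x := n / 4) (by omega)
        omega
      · have := Nat.lt_pow_succ_log_self (b := 2) (by norm_num) (n / 4)
        omega
    obtain ⟨S, hS⟩ := (hL i).toKaz
    set N := 4 * 2 ^ i with hN
    have hN2 : 4 * 2 ^ (i + 1) = 2 * N := by rw [hN, pow_succ]; ring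
    have hN4 : N = 2 * (2 * 2 ^ i) := by rw [hN]; ring
    have hNpos : 0 < N := by rw [hN]; positivity
    rw [hN2] at hi2
    obtain ⟨S₁, hS₁⟩ := hS.enlarge_fin (n := min n (N + 2 * 2 ^ i)) hNpos (by omega)
      (by omega) zero_le_one
    obtain ⟨S₂, hS₂⟩ := hS₁.enlarge_fin (n := n) (by omega) (by omega)
      (by omega) (by norm_num)
    exact (hS₂.mono ((min_le_right _ _).trans (by norm_num))).toFin (le_max_right _ _)

end fin

end Pool.Agent.K3h92
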