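import Pool.Agent.K3h92.Proj

/-!
# The angle estimate for several blocks
-/

set_option autoImplicit false
set_option linter.unusedSimpArgs false
set_option linter.unusedSectionVars false

open Matrix
open scoped RealInnerProductSpace

namespace Pool.Agent.K3h92

/-- A colouring `col` of the index set with an involution `τ` preserving `col` and exchanging the
two sides `side`. -/
structure Fold (ι β : Type) where
  col : ι → β
  side : ι → Bool
  τ : ι → ι
  col_τ : ∀ a, col (τ a) = col a
  side_τ : ∀ a, side (τ a) = !side a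
  τ_τ : ∀ a, τ (τ a) = a

section fold

variable {ι β : Type} [Fintype ι] [DecidableEq ι] [DecidableEq β] (F : Fold ι β)

/-- Half of the block of colour `z`. -/
abbrev Fold.half (z : β) : Type := {a : ι // F.col a = z ∧ F.side a = false}

/-- The parametrisation of the block of colour `z`. -/
def Fold.emb (z : β) : F.half z ⊕ F.half z → ι
  | Sum.inl a => a.1
  | Sum.inr a => F.τ a.1

lemma Fold.τ_inj : Function.Injective F.τ := fun a b h => by
  rw [← F.τ_τ a, h, F.τ_τ]

lemma Fold.emb_inj (z : β) : Function.Injective (F.emb z) := by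
  rintro (⟨a, ha1, ha2⟩ | ⟨a, ha1, ha2⟩) (⟨b, hb1, hb2⟩ | ⟨b, hb1, hb2⟩) h
  · simp only [Fold.emb] at h
    subst h
    rfl
  · exfalso
    simp only [Fold.emb] at h
    have := F.side_τ b
    rw [← h, ha2, hb2] at this
    simp at this
  · exfalso
    simp only [Fold.emb] at h
    have := F.side_τ a
    rw [h, ha2, hb2] at this
    simp at this
  · simp only [Fold.emb] at h
    have := F.τ_inj h
    subst this
    rfl

lemma Fold.emb_col (z : β) (p : F.half z ⊕ F.half z) : F.col (F.emb z p) = z := by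
  rcases p with ⟨a, ha1, ha2⟩ | ⟨a, ha1, ha2⟩
  · exact ha1
  · simp only [Fold.emb]
    rw [F.col_τ, ha1]

lemma Fold.emb_surj {z : β} {a : ι} (ha : F.col a = z) : ∃ p, F.emb z p = a := by
  cases hs : F.side a
  · exact ⟨Sum.inl ⟨a, ha, hs⟩, rfl⟩
  · refine ⟨Sum.inr ⟨F.τ a, ?_, ?_⟩, F.τ_τ a⟩
    · rw [F.col_τ, ha]
    · rw [F.side_τ, hs]; rfl

variable {V : Type} [NormedAddCommGroup V] [InnerProductSpace ℝ V] [FiniteDimensional ℝ V]
  (R : LieRep ι V)

lemma Fold.pull_InvAll (z : β) :
    (R.pull (F.emb z) (F.emb_inj z)).InvAll = R.InvK F.col {z} := by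
  ext v
  rw [LieRep.mem_InvAll, R.mem_InvK]
  constructor
  · intro h a b hab hz
    rw [Set.mem_singleton_iff] at hz
    obtain ⟨p, hp⟩ := F.emb_surj hz
    obtain ⟨q, hq⟩ := F.emb_surj (hab ▸ hz : F.col b = z)
    have := h p q
    rw [LieRep.pull_A, hp, hq] at this
    exact this
  · intro h p q
    rw [LieRep.pull_A]
    exact h _ _ (by rw [F.emb_col, F.emb_col]) (by rw [F.emb_col]; rfl)

/-- The angle estimate for one block. -/
lemma Fold.angle_one {g t : V}
    (hg : ∀ a b, F.col a = F.col b → F.side a = F.side b → R.A a b g = 0)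
    (ht : ∀ a, R.A a (F.τ a) t = 0) (z : β) (hgz : g ∈ (R.InvK F.col {z})ᗮ) {ε : ℝ}
    (hε : 4 ≤ Fintype.card (F.half z)) (hε' : eps (Fintype.card (F.half z)) ≤ ε) :
    |⟪g, t⟫| ≤ Real.sqrt ε * (‖g‖ * ‖t‖) := by
  have h := LieRep.angle (R.pull (F.emb z) (F.emb_inj z)) (h := g) (t := t) ?_ ?_ ?_ ?_ hε
  · refine h.trans (mul_le_mul_of_nonneg_right (Real.sqrt_le_sqrt hε') (by positivity))
  · intro x y
    change R.A _ _ g = 0
    apply hg
    · rw [F.emb_col, F.emb_col]
    · simp only [Fold.emb]; rw [x.2.2, y.2.2]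
  · intro x y
    change R.A _ _ g = 0
    apply hg
    · rw [F.emb_col, F.emb_col]
    · simp only [Fold.emb]; rw [F.side_τ, F.side_τ, x.2.2, y.2.2]
  · rw [F.pull_InvAll]; exact hgz
  · intro q
    exact ht q.1

/-- The angle estimate for several blocks. -/
theorem Fold.angle (ε : ℝ)
    (hε : ∀ z, (∃ a, F.col a = z) → 4 ≤ Fintype.card (F.half z) ∧
      eps (Fintype.card (F.half z)) ≤ ε) (K : Finset β) :
    ∀ {g t : V}, (∀ a b, F.col a = F.col b → F.side a = F.side b → R.A a b g = 0) →
    (∀ a, R.A a (F.τ a) t = 0) → g ∈ (R.InvK F.col K)ᗮ →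
    |⟪g, t⟫| ≤ Real.sqrt ε * (‖g‖ * ‖t‖) := by
  induction K using Finset.induction_on with
  | empty =>
    intro g t _ _ hg
    have h1 : R.InvK F.col ((∅ : Finset β) : Set β) = ⊤ := by
      ext v
      rw [R.mem_InvK]
      simp
    rw [h1, Submodule.top_orthogonal_eq_bot, Submodule.mem_bot] at hg
    rw [hg]
    simp
  | insert z K hzK ih =>
    intro g t hg ht hgK
    set W := R.InvK F.col ({z} : Set β) with hW
    set P := W.starProjection with hP
    have hcomm : ∀ {a b : ι}, F.col a = F.col b → ∀ v, R.A a b (P v) = P (R.A a b v) :=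
      fun hab v => R.A_projK F.col {z} hab v
    have hg1 : ∀ a b, F.col a = F.col b → F.side a = F.side b → R.A a b (P g) = 0 := by
      intro a b h1 h2
      rw [hcomm h1, hg a b h1 h2, map_zero]
    have ht1 : ∀ a, R.A a (F.τ a) (P t) = 0 := by
      intro a
      rw [hcomm (F.col_τ a).symm, ht, map_zero]
    have hg2 : ∀ a b, F.col a = F.col b → F.side a = F.side b → R.A a b (g - P g) = 0 := by
      intro a b h1 h2
      rw [map_sub, hg1 a b h1 h2, hg a b h1 h2, sub_zero]
    have ht2 : ∀ a, R.A a (F.τ a) (t - P t) = 0 := by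
      intro a
      rw [map_sub, ht1, ht, sub_zero]
    have hK : P g ∈ (R.InvK F.col K)ᗮ := by
      rw [Submodule.mem_orthogonal]
      intro w hw
      have e1 : ⟪w, P g⟫ = ⟪P w, g⟫ := by
        rw [hP, Submodule.inner_starProjection_left_eq_right]
      rw [e1]
      rw [Submodule.mem_orthogonal] at hgK
      apply hgK
      rw [R.mem_InvK]
      intro a b hab hK
      rw [Finset.coe_insert, Set.mem_insert_iff] at hK
      rcases hK with hK | hK
      · have : P w ∈ W := Submodule.starProjection_apply_mem _ _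
        rw [hW, R.mem_InvK] at this
        exact this a b hab hK
      · rw [hcomm hab, (R.mem_InvK _ _ _).1 hw a b hab hK, map_zero]
    have h1 := ih hg1 ht1 hK
    have h2 : |⟪g - P g, t - P t⟫| ≤ Real.sqrt ε * (‖g - P g‖ * ‖t - P t‖) := by
      by_cases hz : ∃ a, F.col a = z
      · exact F.angle_one R hg2 ht2 z (Submodule.sub_starProjection_mem_orthogonal _)
          (hε z hz).1 (hε z hz).2
      · have hW' : W = ⊤ := by
          ext v
          rw [hW, R.mem_InvK]
          simp only [Submodule.mem_top, iff_true]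
          intro a b _ ha
          exact absurd ⟨a, ha⟩ hz
        have h0 : g - P g = 0 := by
          have : g - P g ∈ Wᗮ := Submodule.sub_starProjection_mem_orthogonal _
          rw [hW', Submodule.top_orthogonal_eq_bot, Submodule.mem_bot] at this
          exact this
        rw [h0]; simp
    rw [proj_inner W g t]
    refine (abs_add_le _ _).trans ((add_le_add h1 h2).trans ?_)
    rw [← mul_add]
    refine mul_le_mul_of_nonneg_left ?_ (Real.sqrt_nonneg _)
    have p1 := proj_pyth W g
    have p2 := proj_pyth W t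
    have h3 : (‖P g‖ * ‖P t‖ + ‖g - P g‖ * ‖t - P t‖) ^ 2 ≤ (‖g‖ * ‖t‖) ^ 2 := by
      rw [mul_pow, p1, p2]
      nlinarith [sq_nonneg (‖P g‖ * ‖t - P t‖ - ‖g - P g‖ * ‖P t‖)]
    exact le_of_sq_le_sq h3 (by positivity)

end fold

end Pool.Agent.K3h92
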