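import Pool.Agent.K3h92.Lie

/-!
# The Omega inequality
-/

set_option autoImplicit false
set_option linter.unusedSimpArgs false
set_option linter.unusedSectionVars false

open scoped RealInnerProductSpace

namespace Pool.Agent.K3h92

section omega

variable {ι : Type} [Fintype ι] [DecidableEq ι] {V : Type} [NormedAddCommGroup V]
  [InnerProductSpace ℝ V] (R : LieRep ι V)

lemma cyc1 (f : ι → ι → ι → ℝ) : ∑ a, ∑ b, ∑ c, f b c a = ∑ a, ∑ b, ∑ c, f a b c := by
  calc ∑ a, ∑ b, ∑ c, f b c a = ∑ b, ∑ a, ∑ c, f b c a := Finset.sum_comm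
    _ = ∑ b, ∑ c, ∑ a, f b c a := Finset.sum_congr rfl fun b _ => Finset.sum_comm

lemma cyc2 (f : ι → ι → ι → ℝ) : ∑ a, ∑ b, ∑ c, f c a b = ∑ a, ∑ b, ∑ c, f a b c := by
  calc ∑ a, ∑ b, ∑ c, f c a b = ∑ a, ∑ c, ∑ b, f c a b :=
        Finset.sum_congr rfl fun a _ => Finset.sum_comm
    _ = ∑ c, ∑ a, ∑ b, f c a b := Finset.sum_comm

lemma sum_ite_snd' (c : ι) (f : ι → ι → ℝ) :
    (∑ a, ∑ b, if b = c then f a b else 0) = ∑ a, f a c := by
  simp

theorem LieRep.omega_ineq (u : ι → V) :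
    0 ≤ (1/2 : ℝ) * ∑ a, ∑ b, ∑ c, ‖R.A a b (u c)‖ ^ 2 - ∑ a, ‖∑ b, R.A a b (u b)‖ ^ 2 +
      ((Fintype.card ι : ℝ) - 2) * ∑ a, ⟪u a, ∑ b, R.A a b (u b)⟫ := by
  have h0 : 0 ≤ ∑ a, ∑ b, ∑ c, ‖R.A a b (u c) + R.A b c (u a) + R.A c a (u b)‖ ^ 2 :=
    Finset.sum_nonneg fun a _ => Finset.sum_nonneg fun b _ => Finset.sum_nonneg fun c _ =>
      sq_nonneg _
  set f : ι → ι → ι → ℝ := fun a b c => ‖R.A a b (u c)‖ ^ 2 with hf
  set g : ι → ι → ι → ℝ := fun a b c => ⟪R.A a b (u c), R.A b c (u a)⟫ with hg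
  have h1 : ∀ a b c, ‖R.A a b (u c) + R.A b c (u a) + R.A c a (u b)‖ ^ 2 =
      f a b c + f b c a + f c a b + 2 * (g a b c + g b c a + g c a b) := by
    intro a b c
    simp only [hf, hg]
    rw [← real_inner_self_eq_norm_sq]
    simp only [inner_add_left, inner_add_right, real_inner_self_eq_norm_sq]
    rw [real_inner_comm (R.A a b (u c)) (R.A b c (u a)),
      real_inner_comm (R.A a b (u c)) (R.A c a (u b)),
      real_inner_comm (R.A b c (u a)) (R.A c a (u b))]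
    ring
  simp only [h1, Finset.sum_add_distrib, ← Finset.mul_sum] at h0
  rw [cyc1 f, cyc2 f, cyc1 g, cyc2 g] at h0
  have h2 : ∑ a, ∑ b, ∑ c, g a b c = - ∑ a, ‖∑ b, R.A a b (u b)‖ ^ 2 +
      ((Fintype.card ι : ℝ) - 2) * ∑ a, ⟪u a, ∑ b, R.A a b (u b)⟫ := by
    have k1 : ∀ a b c, g a b c = -⟪R.A b c (u c), R.A b a (u a)⟫ + (⟪u c, R.A c a (u a)⟫ -
        (if b = a then ⟪u c, R.A c a (u a)⟫ else 0) -
        (if b = c then ⟪u c, R.A c a (u a)⟫ else 0)) := by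
      intro a b c
      simp only [hg]
      rw [R.skew, R.br_apply a b b c (u a)]
      simp only [if_true, inner_add_right, inner_sub_right]
      have e5 : ⟪u c, R.A b c (R.A a b (u a))⟫ = ⟪R.A b c (u c), R.A b a (u a)⟫ := by
        rw [R.skew' b c, R.anti b a, LinearMap.neg_apply, inner_neg_right, neg_neg]
      have e1 : ⟪u c, R.A a c (u a)⟫ = -⟪u c, R.A c a (u a)⟫ := by
        rw [R.anti c a, LinearMap.neg_apply, inner_neg_right]
      have e2 : ⟪u c, if a = b then R.A b c (u a) else 0⟫ =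
          -(if b = a then ⟪u c, R.A c a (u a)⟫ else 0) := by
        by_cases hab : a = b
        · subst hab
          simp [e1]
        · rw [if_neg hab, if_neg (Ne.symm hab)]; simp
      have e3 : ⟪u c, if b = c then R.A a b (u a) else 0⟫ =
          -(if b = c then ⟪u c, R.A c a (u a)⟫ else 0) := by
        by_cases hbc : b = c
        · subst hbc
          simp [e1]
        · rw [if_neg hbc, if_neg hbc]; simp
      have e4 : ⟪u c, if a = c then R.A b b (u a) else 0⟫ = 0 := by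
        split_ifs <;> simp [R.diag]
      rw [e1, e2, e3, e4, e5]
      ring
    simp only [k1, Finset.sum_add_distrib, Finset.sum_sub_distrib, Finset.sum_neg_distrib]
    have t1 : ∑ a, ∑ b, ∑ c, ⟪R.A b c (u c), R.A b a (u a)⟫ =
        ∑ a, ‖∑ b, R.A a b (u b)‖ ^ 2 := by
      rw [Finset.sum_comm]
      refine Finset.sum_congr rfl fun b _ => ?_
      rw [← real_inner_self_eq_norm_sq, inner_sum]
      simp only [sum_inner]
    have t2 : ∑ a : ι, ∑ b : ι, ∑ c, ⟪u c, R.A c a (u a)⟫ =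
        (Fintype.card ι : ℝ) * ∑ a, ⟪u a, ∑ b, R.A a b (u b)⟫ := by
      simp only [Finset.sum_const, Finset.card_univ, nsmul_eq_mul, ← Finset.mul_sum]
      congr 1
      rw [Finset.sum_comm]
      simp only [inner_sum]
    have t3 : ∑ a : ι, ∑ b : ι, ∑ c, (if b = a then ⟪u c, R.A c a (u a)⟫ else 0) =
        ∑ a, ⟪u a, ∑ b, R.A a b (u b)⟫ := by
      have : ∀ a b : ι, ∑ c, (if b = a then ⟪u c, R.A c a (u a)⟫ else 0) =
          if b = a then ∑ c, ⟪u c, R.A c a (u a)⟫ else 0 := by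
        intro a b
        split_ifs <;> simp
      simp only [this, Finset.sum_ite_eq', Finset.mem_univ, if_true]
      rw [Finset.sum_comm]
      simp only [inner_sum]
    have t4 : ∑ a : ι, ∑ b : ι, ∑ c, (if b = c then ⟪u c, R.A c a (u a)⟫ else 0) =
        ∑ a, ⟪u a, ∑ b, R.A a b (u b)⟫ := by
      simp only [Finset.sum_ite_eq, Finset.mem_univ, if_true]
      rw [Finset.sum_comm]
      simp only [inner_sum]
    rw [t1, t2, t3, t4]
    ring
  rw [h2] at h0
  linarith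

lemma LieRep.half_sum_eq (u : ι → V) :
    (1/2 : ℝ) * ∑ a, ∑ b, ∑ c, ‖R.A a b (u c)‖ ^ 2 = ∑ c, ⟪R.cas (u c), u c⟫ := by
  simp only [R.cas_inner_self, ← Finset.mul_sum]
  congr 1
  rw [Finset.sum_comm (f := fun y a => ∑ x, ‖R.A a x (u y)‖ ^ 2)]
  exact Finset.sum_congr rfl fun a _ => Finset.sum_comm

theorem LieRep.omega_ineq' (u : ι → V) :
    0 ≤ ∑ c, ⟪R.cas (u c), u c⟫ - ∑ a, ‖∑ b, R.A a b (u b)‖ ^ 2 +
      ((Fintype.card ι : ℝ) - 2) * ∑ a, ⟪u a, ∑ b, R.A a b (u b)⟫ := by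
  rw [← R.half_sum_eq]
  exact R.omega_ineq u

end omega

end Pool.Agent.K3h92
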