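import Pool.Agent.K3h78.PN.Stm

/-!
# Project PN, brick HENS (helper92): simple roots persist
-/

set_option autoImplicit false

open MvPolynomial Topology Filter

namespace Pool.Agent.K3h92.PN

open Pool.Agent.K3h78.PN

section

variable {E : Type} [NontriviallyNormedField E] [CharZero E] {s : Type} [Fintype s]

theorem coef_strict (c : MvPolynomial s ℚ) (ξ : s → E) :
    ∃ c' : (s → E) →L[E] E,
      HasStrictFDerivAt (fun ξ : s → E => eval₂Hom (Rat.castHom E) ξ c) c' ξ := by
  induction c using MvPolynomial.induction_on with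
  | C a =>
    refine ⟨0, ?_⟩
    have h : (fun ξ : s → E => eval₂Hom (Rat.castHom E) ξ (C a)) = fun _ => (a : E) := by
      funext ξ
      simp
    rw [h]
    exact hasStrictFDerivAt_const _ _
  | add p q hp hq =>
    obtain ⟨p', hp⟩ := hp
    obtain ⟨q', hq⟩ := hq
    refine ⟨p' + q', ?_⟩
    have h : (fun ξ : s → E => eval₂Hom (Rat.castHom E) ξ (p + q)) =
        fun ξ => eval₂Hom (Rat.castHom E) ξ p + eval₂Hom (Rat.castHom E) ξ q := by
      funext ξ
      rw [map_add]
    rw [h]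
    exact hp.add hq
  | mul_X p i hp =>
    obtain ⟨p', hp⟩ := hp
    have h : (fun ξ : s → E => eval₂Hom (Rat.castHom E) ξ (p * X i)) =
        fun ξ => eval₂Hom (Rat.castHom E) ξ p * ξ i := by
      funext ξ
      rw [map_mul]
      simp
    rw [h]
    exact ⟨_, hp.mul ((ContinuousLinearMap.proj (R := E) (φ := fun _ : s => E) i).hasStrictFDerivAt)⟩

theorem ev_strict (Q : Polynomial (MvPolynomial s ℚ)) (z : (s → E) × E) :
    ∃ g' : (s → E) × E →L[E] E,
      HasStrictFDerivAt (fun z : (s → E) × E => ev Q z.1 z.2) g' z ∧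
      ∀ h : E, g' (0, h) = ev (Polynomial.derivative Q) z.1 z.2 * h := by
  induction Q using Polynomial.induction_on' with
  | add p q hp hq =>
    obtain ⟨p', hp, hp2⟩ := hp
    obtain ⟨q', hq, hq2⟩ := hq
    refine ⟨p' + q', ?_, ?_⟩
    · have h : (fun z : (s → E) × E => ev (p + q) z.1 z.2) =
          fun z => ev p z.1 z.2 + ev q z.1 z.2 := by
        funext z
        exact Polynomial.eval₂_add _ _
      rw [h]
      exact hp.add hq
    · intro h
      rw [add_apply, hp2, hq2, Polynomial.derivative_add]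
      unfold ev
      rw [Polynomial.eval₂_add]
      ring
  | monomial n a =>
    obtain ⟨a', ha⟩ := coef_strict a z.1
    have h : (fun z : (s → E) × E => ev (Polynomial.monomial n a) z.1 z.2) =
        fun z => eval₂Hom (Rat.castHom E) z.1 a * z.2 ^ n := by
      funext z
      exact Polynomial.eval₂_monomial _ _
    have h1 : HasStrictFDerivAt (fun z : (s → E) × E => eval₂Hom (Rat.castHom E) z.1 a)
        (a'.comp (ContinuousLinearMap.fst E (s → E) E)) z :=
      HasStrictFDerivAt.comp z ha (ContinuousLinearMap.fst E (s → E) E).hasStrictFDerivAt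
    have h2 : HasStrictFDerivAt (fun z : (s → E) × E => z.2)
        (ContinuousLinearMap.snd E (s → E) E) z :=
      (ContinuousLinearMap.snd E (s → E) E).hasStrictFDerivAt
    have h3 := h1.mul (h2.pow n)
    refine ⟨(eval₂Hom (Rat.castHom E) z.1 a) •
        ((n • z.2 ^ (n - 1)) • ContinuousLinearMap.snd E (s → E) E) +
      z.2 ^ n • (a'.comp (ContinuousLinearMap.fst E (s → E) E)), ?_, ?_⟩
    · rw [h]
      exact h3
    · intro k
      simp only [add_apply, ContinuousLinearMap.smul_apply,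
        ContinuousLinearMap.comp_apply, ContinuousLinearMap.coe_fst', ContinuousLinearMap.coe_snd',
        map_zero, smul_zero, add_zero, smul_eq_mul, Polynomial.derivative_monomial, ev,
        Polynomial.eval₂_monomial, map_mul, map_natCast]
      ring

theorem core [CompleteSpace E] (Q : Polynomial (MvPolynomial s ℚ)) (u : s → E) (v : E)
    (h0 : ev Q u v = 0) (h1 : ev (Polynomial.derivative Q) u v ≠ 0) :
    ∃ ε : ℝ, 0 < ε ∧ ∀ ξ : s → E, (∀ i, ‖ξ i - u i‖ < ε) → ∃ y : E, ev Q ξ y = 0 := by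
  obtain ⟨g', hg, hg2⟩ := ev_strict Q (u, v)
  have hf : HasStrictFDerivAt (fun z : (s → E) × E => (z.1, ev Q z.1 z.2))
      ((ContinuousLinearMap.fst E (s → E) E).prod g') (u, v) :=
    (ContinuousLinearMap.fst E (s → E) E).hasStrictFDerivAt.prodMk hg
  have hsurj : ((ContinuousLinearMap.fst E (s → E) E).prod g').range = ⊤ := by
    rw [LinearMap.range_eq_top]
    rintro ⟨α, β⟩
    refine ⟨(α, (β - g' (α, 0)) / ev (Polynomial.derivative Q) u v), ?_⟩
    have h2 : g' (α, (β - g' (α, 0)) / ev (Polynomial.derivative Q) u v) = β := by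
      have h3 : ((α, (β - g' (α, 0)) / ev (Polynomial.derivative Q) u v) : (s → E) × E) =
          (α, 0) + (0, (β - g' (α, 0)) / ev (Polynomial.derivative Q) u v) := by
        simp
      rw [h3, map_add, hg2]
      field_simp
      ring
    exact Prod.ext rfl h2
  have hmap := hf.map_nhds_eq_of_surj hsurj
  have hmem : Set.range (fun z : (s → E) × E => (z.1, ev Q z.1 z.2)) ∈
      𝓝 ((u, ev Q u v) : (s → E) × E) := by
    rw [← hmap, mem_map]
    exact Filter.univ_mem' fun z => ⟨z, rfl⟩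
  rw [h0] at hmem
  obtain ⟨ε, hε, hb⟩ := Metric.mem_nhds_iff.1 hmem
  refine ⟨ε, hε, fun ξ hξ => ?_⟩
  have h4 : ((ξ, 0) : (s → E) × E) ∈ Metric.ball ((u, 0) : (s → E) × E) ε := by
    rw [Metric.mem_ball, Prod.dist_eq, dist_self, max_lt_iff]
    refine ⟨?_, hε⟩
    rw [dist_pi_lt_iff hε]
    intro i
    rw [dist_eq_norm]
    exact hξ i
  obtain ⟨z, hz⟩ := hb h4
  have h5 : z.1 = ξ := congrArg Prod.fst hz
  have h6 : ev Q z.1 z.2 = 0 := congrArg Prod.snd hz
  exact ⟨z.2, by rw [← h5]; exact h6⟩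

end

/-- **HENS** -/
theorem t_HENS : S_HENS := by
  intro L _ _ _ _ E _ _ _ _ s _ n θ Q u v h0 h1
  have halg : Algebra.IsAlgebraic L E := Algebra.IsAlgebraic.of_finite L E
  let _ : NontriviallyNormedField E := spectralNorm.nontriviallyNormedField L E
  have hcomp : CompleteSpace E := spectralNorm.completeSpace L E
  obtain ⟨ε, hε, h⟩ := core Q (fun i => (u i : E)) v h0 h1
  have hC : 0 < 1 + ∑ m : Fin n, ‖θ‖ ^ (m : ℕ) := by
    have : 0 ≤ ∑ m : Fin n, ‖θ‖ ^ (m : ℕ) := Finset.sum_nonneg fun m _ => by positivity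
    linarith
  refine ⟨ε / (1 + ∑ m : Fin n, ‖θ‖ ^ (m : ℕ)), by positivity, fun b hb => ?_⟩
  refine h _ fun i => ?_
  rw [add_sub_cancel_left]
  have h2 : ∀ x : L, ‖algebraMap L E x‖ = ‖x‖ := fun x => spectralNorm_extends x
  have hδ : 0 < ε / (1 + ∑ m : Fin n, ‖θ‖ ^ (m : ℕ)) := by positivity
  calc ‖∑ m : Fin n, θ ^ (m : ℕ) * algebraMap L E (b i m)‖ ≤
      ∑ m : Fin n, ‖θ ^ (m : ℕ) * algebraMap L E (b i m)‖ := norm_sum_le _ _
    _ ≤ ∑ m : Fin n, ‖θ‖ ^ (m : ℕ) * (ε / (1 + ∑ m : Fin n, ‖θ‖ ^ (m : ℕ))) := by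
        refine Finset.sum_le_sum fun m _ => ?_
        rw [norm_mul, norm_pow, h2]
        exact mul_le_mul_of_nonneg_left (hb i m).le (by positivity)
    _ = (∑ m : Fin n, ‖θ‖ ^ (m : ℕ)) * (ε / (1 + ∑ m : Fin n, ‖θ‖ ^ (m : ℕ))) := by
        rw [Finset.sum_mul]
    _ < (1 + ∑ m : Fin n, ‖θ‖ ^ (m : ℕ)) * (ε / (1 + ∑ m : Fin n, ‖θ‖ ^ (m : ℕ))) :=
        mul_lt_mul_of_pos_right (by linarith) hδ
    _ = ε := by
        field_simp

end Pool.Agent.K3h92.PN
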