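import Pool.Agent.K3h78.PP.Stm

/-!
# The Littlewood-Offord bound for independent identically distributed steps
-/

set_option autoImplicit false

open Finset

namespace Pool.Agent.K3h92.PP

/-- the sum of `a (f k)` if `f` has the values `i`, `j` on `T` and agrees with `g` outside `T` -/
theorem sum_eq {b n : ℕ} (a : Fin b → ℝ) (i j : Fin b) (T : Finset (Fin n))
    (f : Fin n → Fin b) (hT : (univ.filter fun k => f k = i ∨ f k = j) = T) :
    ∑ k, a (f k) = ∑ k ∈ Tᶜ, a (f k) + (((univ.filter fun k => f k = i).card : ℝ) * a i +
      ((T.card : ℝ) - ((univ.filter fun k => f k = i).card : ℝ)) * a j) := by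
  classical
  rw [← Finset.sum_compl_add_sum T]
  congr 1
  have hsub : (univ.filter fun k => f k = i) ⊆ T := by
    rw [← hT]
    intro k hk
    rw [mem_filter] at hk ⊢
    exact ⟨hk.1, Or.inl hk.2⟩
  rw [← Finset.sum_sdiff hsub]
  have h1 : ∑ k ∈ T \ (univ.filter fun k => f k = i), a (f k) =
      ∑ k ∈ T \ (univ.filter fun k => f k = i), a j := by
    refine Finset.sum_congr rfl fun k hk => ?_
    rw [mem_sdiff, ← hT, mem_filter, mem_filter] at hk
    rcases hk.1.2 with h | h
    · exact (hk.2 ⟨mem_univ k, h⟩).elim
    · rw [h]
  have h2 : ∑ k ∈ (univ.filter fun k => f k = i), a (f k) =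
      ∑ k ∈ (univ.filter fun k => f k = i), a i := by
    refine Finset.sum_congr rfl fun k hk => ?_
    rw [(mem_filter.1 hk).2]
  rw [h1, h2, Finset.sum_const, Finset.sum_const, card_sdiff_of_subset hsub, nsmul_eq_mul,
    nsmul_eq_mul, Nat.cast_sub (card_le_card hsub)]
  ring

theorem t_LO : Pool.Agent.K3h78.PP.S_LO := by
  classical
  intro b n a i j ha t
  have hij : i ≠ j := fun h => ha (by rw [h])
  set X : Finset (Fin n → Fin b) := univ.filter fun f => ∑ k, a (f k) = t with hX
  have hcard : Nat.card {f : Fin n → Fin b // ∑ k, a (f k) = t} = X.card := by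
    rw [Nat.card_eq_fintype_card, Fintype.card_subtype]
  rw [hcard]
  let TT : (Fin n → Fin b) → Finset (Fin n) := fun f => univ.filter fun k => f k = i ∨ f k = j
  let II : (Fin n → Fin b) → Finset (Fin n) := fun f => univ.filter fun k => f k = i
  -- one set `T`
  have key : ∀ T : Finset (Fin n), (X.filter fun f => TT f = T).card ≤
      (b - 2) ^ (n - T.card) * T.card.choose (T.card / 2) := by
    intro T
    let G : (Fin n → Fin b) → (Fin n → Fin b) := fun f k => if k ∈ T then i else f k
    let Y : Finset (Fin n → Fin b) := Fintype.piFinset fun k =>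
      if k ∈ T then {i} else (univ \ {i, j} : Finset (Fin b))
    have hY : Y.card = (b - 2) ^ (n - T.card) := by
      rw [Fintype.card_piFinset]
      have h1 : ∀ k : Fin n, (if k ∈ T then ({i} : Finset (Fin b)) else univ \ {i, j}).card =
          if k ∈ T then 1 else b - 2 := by
        intro k
        split_ifs
        · exact card_singleton i
        · rw [card_sdiff_of_subset (subset_univ _), card_univ, Fintype.card_fin, card_pair hij]
      rw [Finset.prod_congr rfl fun k _ => h1 k, Finset.prod_ite, Finset.prod_const_one, one_mul,
        Finset.prod_const]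
      congr 1
      have h2 : (univ.filter fun k : Fin n => k ∉ T) = Tᶜ := by
        ext k; simp
      rw [h2, card_compl, Fintype.card_fin]
    have hmap : ∀ f ∈ X.filter fun f => TT f = T, G f ∈ Y := by
      intro f hf
      rw [mem_filter] at hf
      rw [Fintype.mem_piFinset]
      intro k
      show (if k ∈ T then i else f k) ∈ _
      split_ifs with hk
      · exact mem_singleton_self i
      · rw [mem_sdiff]
        refine ⟨mem_univ _, fun h => hk ?_⟩
        rw [← hf.2]
        show k ∈ univ.filter fun k => f k = i ∨ f k = j
        rw [mem_filter]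
        refine ⟨mem_univ k, ?_⟩
        simpa using h
    rw [Finset.card_eq_sum_card_fiberwise hmap, ← hY]
    refine (Finset.sum_le_card_nsmul _ _ _ ?_).trans (le_of_eq (smul_eq_mul _ _))
    intro g _
    rcases ((X.filter fun f => TT f = T).filter fun f => G f = g).eq_empty_or_nonempty with h | h
    · rw [h, card_empty]
      exact Nat.zero_le _
    · obtain ⟨f₀, hf₀⟩ := h
      have hII : ∀ f ∈ (X.filter fun f => TT f = T).filter fun f => G f = g,
          (II f) ∈ powersetCard (II f₀).card T := by
        intro f hf
        rw [mem_filter, mem_filter, hX, mem_filter] at hf hf₀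
        have e1 := sum_eq a i j T f hf.1.2
        have e2 := sum_eq a i j T f₀ hf₀.1.2
        have e3 : ∑ k ∈ Tᶜ, a (f k) = ∑ k ∈ Tᶜ, a (f₀ k) := by
          refine Finset.sum_congr rfl fun k hk => ?_
          rw [mem_compl] at hk
          have h1 := congrFun (hf.2.trans hf₀.2.symm) k
          have h2 : (if k ∈ T then i else f k) = if k ∈ T then i else f₀ k := h1
          rw [if_neg hk, if_neg hk] at h2
          rw [h2]
        rw [hf.1.1.2] at e1
        rw [hf₀.1.1.2] at e2
        have e4 : (((II f).card : ℝ) - ((II f₀).card : ℝ)) * (a i - a j) = 0 := by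
          have e5 : (II f).card = (univ.filter fun k => f k = i).card := rfl
          have e6 : (II f₀).card = (univ.filter fun k => f₀ k = i).card := rfl
          rw [e5, e6]
          rw [e3] at e1
          linarith
        have e5 : ((II f).card : ℝ) = ((II f₀).card : ℝ) := by
          rcases mul_eq_zero.1 e4 with h | h
          · linarith
          · exact (ha (by linarith)).elim
        rw [mem_powersetCard]
        refine ⟨?_, by exact_mod_cast e5⟩
        rw [← hf.1.2]
        intro k hk
        have hk' : k ∈ univ.filter fun k => f k = i := hk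
        rw [mem_filter] at hk'
        show k ∈ univ.filter fun k => f k = i ∨ f k = j
        rw [mem_filter]
        exact ⟨mem_univ k, Or.inl hk'.2⟩
      have hinj : Set.InjOn II ((X.filter fun f => TT f = T).filter fun f => G f = g :
          Finset (Fin n → Fin b)) := by
        intro f hf f' hf' he
        rw [mem_coe, mem_filter, mem_filter] at hf hf'
        funext k
        have hk : f k = i ↔ f' k = i := by
          have h1 : k ∈ II f ↔ k ∈ II f' := by rw [he]
          simpa [II] using h1
        by_cases hkT : k ∈ T
        · have h1 : k ∈ TT f := by rw [hf.1.2]; exact hkT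
          have h2 : k ∈ TT f' := by rw [hf'.1.2]; exact hkT
          have h3 : f k = i ∨ f k = j := (mem_filter.1 h1).2
          have h4 : f' k = i ∨ f' k = j := (mem_filter.1 h2).2
          rcases h3 with h3 | h3
          · rw [h3, hk.1 h3]
          · rcases h4 with h4 | h4
            · rw [h4, hk.2 h4]
            · rw [h3, h4]
        · have h1 := congrFun (hf.2.trans hf'.2.symm) k
          have h2 : (if k ∈ T then i else f k) = if k ∈ T then i else f' k := h1
          rwa [if_neg hkT, if_neg hkT] at h2
      refine (Finset.card_le_card_of_injOn II hII hinj).trans ?_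
      rw [card_powersetCard]
      exact Nat.choose_le_middle _ _
  have hmapT : ∀ f ∈ X, TT f ∈ (univ : Finset (Fin n)).powerset := fun f _ =>
    mem_powerset.2 (subset_univ _)
  rw [Finset.card_eq_sum_card_fiberwise hmapT]
  refine (Finset.sum_le_sum fun T _ => key T).trans ?_
  rw [Finset.sum_powerset_apply_card (fun m => (b - 2) ^ (n - m) * m.choose (m / 2)),
    card_univ, Fintype.card_fin]
  refine le_of_eq (Finset.sum_congr rfl fun m _ => ?_)
  rw [smul_eq_mul, mul_assoc]

end Pool.Agent.K3h92.PP
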