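import Pool.Agent.K3h92.Pull

/-!
# Permutations and block-diagonal elements of `SO(ι)`
-/

set_option autoImplicit false
set_option linter.unusedSimpArgs false
set_option linter.unusedSectionVars false

open Matrix
open scoped RealInnerProductSpace

namespace Pool.Agent.K3h92

section perm

variable {ι : Type} [Fintype ι] [DecidableEq ι] {V : Type}
  [NormedAddCommGroup V] [InnerProductSpace ℝ V]

lemma incl_perm_mem (σ : Equiv.Perm ι) (h : Equiv.Perm.sign σ = 1) :
    (incl σ : Matrix ι ι ℝ) ∈ SO ι := by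
  rw [SO.mem_iff]
  refine ⟨incl_tr_mul σ.injective, ?_⟩
  have : (incl σ : Matrix ι ι ℝ) = (σ.permMatrix ℝ)ᵀ := by
    ext a b
    simp [incl, Equiv.Perm.permMatrix, PEquiv.toMatrix_apply, Matrix.transpose_apply, eq_comm]
  rw [this, Matrix.det_transpose, Matrix.det_permutation, h]
  simp

/-- An even permutation as an element of `SO(ι)`. -/
def permSO (σ : Equiv.Perm ι) (h : Equiv.Perm.sign σ = 1) : SO ι := ⟨incl σ, incl_perm_mem σ h⟩

lemma permSO_coe (σ : Equiv.Perm ι) (h : Equiv.Perm.sign σ = 1) (a b : ι) :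
    (permSO σ h : Matrix ι ι ℝ) a b = if a = σ b then 1 else 0 := rfl

lemma SORep.ρ_perm (R : SORep ι V) (σ : Equiv.Perm ι) (h : Equiv.Perm.sign σ = 1) (a b : ι)
    (v : V) : R.ρ (permSO σ h) (R.A a b v) = R.A (σ a) (σ b) (R.ρ (permSO σ h) v) := by
  rw [R.Ad_apply]
  simp only [permSO_coe]
  rw [Finset.sum_eq_single (σ a), Finset.sum_eq_single (σ b)]
  · simp
  · intro d _ hd; simp [hd]
  · simp
  · intro d _ hd; simp [hd]
  · simp

lemma permSO_mul (σ τ : Equiv.Perm ι) (h : Equiv.Perm.sign σ = 1)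
    (h' : Equiv.Perm.sign τ = 1) : permSO σ h * permSO τ h' =
      permSO (σ * τ) (by rw [Equiv.Perm.sign_mul, h, h', one_mul]) := by
  refine Subtype.ext ?_
  ext a b
  change ((permSO σ h : Matrix ι ι ℝ) * (permSO τ h' : Matrix ι ι ℝ)) a b = _
  rw [Matrix.mul_apply, permSO_coe]
  simp only [permSO_coe]
  rw [Finset.sum_eq_single (τ b)]
  · rw [if_pos rfl, mul_one]; rfl
  · intro c _ hc; simp [hc]
  · simp

end perm

section block

variable {κ X : Type} [Fintype κ] [DecidableEq κ] [Fintype X] [DecidableEq X]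

/-- The block-diagonal homomorphism. -/
def blk : (X → SO κ) →* SO (κ × X) where
  toFun s := ⟨Matrix.blockDiagonal (fun x => (s x : Matrix κ κ ℝ)), by
    rw [SO.mem_iff]
    constructor
    · rw [Matrix.blockDiagonal_transpose, ← Matrix.blockDiagonal_mul]
      have : (fun k => ((s k : Matrix κ κ ℝ))ᵀ * (s k : Matrix κ κ ℝ)) = 1 := by
        funext k
        exact ((SO.mem_iff _).1 (s k).2).1
      rw [this, Matrix.blockDiagonal_one]
    · rw [Matrix.det_blockDiagonal]
      exact Finset.prod_eq_one fun x _ => ((SO.mem_iff _).1 (s x).2).2⟩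
  map_one' := Subtype.ext (by
    change Matrix.blockDiagonal (fun _ : X => ((1 : SO κ) : Matrix κ κ ℝ)) = 1
    exact Matrix.blockDiagonal_one)
  map_mul' s t := Subtype.ext (by
    change Matrix.blockDiagonal (fun x : X => ((s x * t x : SO κ) : Matrix κ κ ℝ)) = _
    exact Matrix.blockDiagonal_mul _ _)

lemma blk_coe (s : X → SO κ) (a b : κ × X) : (blk s : Matrix (κ × X) (κ × X) ℝ) a b =
    if a.2 = b.2 then (s a.2 : Matrix κ κ ℝ) a.1 b.1 else 0 := rfl

lemma row_inj (y : X) : Function.Injective (fun c : κ => (c, y)) := fun a b h => by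
  simpa using h

lemma ext_row (y : X) (g : SO κ) :
    SO.ext (fun c : κ => (c, y)) (row_inj y) g = blk (Pi.mulSingle y g) := by
  refine Subtype.ext ?_
  ext ⟨a, x⟩ ⟨b, z⟩
  rw [SO.ext_coe, blk_coe]
  by_cases hz : z = y
  · subst hz
    have h1 : extMat (fun c : κ => (c, z)) (g : Matrix κ κ ℝ) (a, x) (b, z) =
        ∑ c', if (a, x) = (c', z) then (g : Matrix κ κ ℝ) c' b else 0 :=
      extMat_col (row_inj (κ := κ) z) (g : Matrix κ κ ℝ) (a, x) b
    rw [h1]
    by_cases hx : x = z
    · subst hx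
      simp [Prod.ext_iff]
    · simp [Prod.ext_iff, hx]
  · -- transposed column formula
    unfold extMat
    rw [Matrix.add_apply, Matrix.mul_apply]
    have : ∀ c, (incl (fun c : κ => (c, y)))ᵀ c (b, z) = 0 := by
      intro c
      simp [incl, Matrix.transpose_apply, hz]
    simp only [this, mul_zero, Finset.sum_const_zero, add_zero, Matrix.one_apply, Prod.mk.injEq]
    by_cases hx : x = z
    · subst hx
      simp [Pi.mulSingle_eq_of_ne hz, Matrix.one_apply]
    · simp [hx]

variable [AddCommGroup X]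

/-- Translation of the blocks as a permutation. -/
def trPerm (κ : Type) (t : X) : Equiv.Perm (κ × X) := Equiv.prodCongr (Equiv.refl κ)
  (Equiv.addRight t)

lemma trPerm_apply (t : X) (a : κ × X) : trPerm κ t a = (a.1, a.2 + t) := rfl

lemma sign_trPerm (h : Even (Fintype.card κ)) (t : X) :
    Equiv.Perm.sign (trPerm κ t) = 1 := by
  have h1 : trPerm κ t = Equiv.prodCongrRight (fun _ : κ => Equiv.addRight t) := by
    ext a <;> rfl
  rw [h1, Equiv.Perm.sign_prodCongrRight]
  rw [Finset.prod_const, Finset.card_univ]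
  obtain ⟨k, hk⟩ := h
  rw [hk, ← two_mul, pow_mul]
  simp

lemma blk_conj (h : Even (Fintype.card κ)) (t : X) (s : X → SO κ) :
    (permSO (trPerm κ t) (sign_trPerm h t))⁻¹ * blk s * permSO (trPerm κ t) (sign_trPerm h t) =
      blk (fun x => s (x + t)) := by
  rw [mul_assoc, inv_mul_eq_iff_eq_mul]
  refine Subtype.ext ?_
  ext ⟨a, x⟩ ⟨b, z⟩
  change ((blk s : Matrix (κ × X) (κ × X) ℝ) * (permSO (trPerm κ t) (sign_trPerm h t) :
    Matrix (κ × X) (κ × X) ℝ)) (a, x) (b, z) = ((permSO (trPerm κ t) (sign_trPerm h t) :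
    Matrix (κ × X) (κ × X) ℝ) * (blk (fun x => s (x + t)) : Matrix (κ × X) (κ × X) ℝ))
      (a, x) (b, z)
  rw [Matrix.mul_apply, Matrix.mul_apply]
  rw [Finset.sum_eq_single (b, z + t), Finset.sum_eq_single (a, x - t)]
  · simp only [permSO_coe, trPerm_apply, blk_coe, sub_add_cancel, if_true, mul_one, one_mul]
    by_cases hx : x = z + t
    · subst hx; simp
    · have : ¬ (x - t = z) := fun h' => hx (by rw [← h']; abel)
      rw [if_neg hx, if_neg this]
  · intro c _ hc
    rw [permSO_coe, trPerm_apply, if_neg, zero_mul]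
    intro h'
    apply hc
    rw [Prod.ext_iff] at h' ⊢
    simp only at h' ⊢
    exact ⟨h'.1.symm, by rw [h'.2]; abel⟩
  · simp
  · intro c _ hc
    rw [permSO_coe, trPerm_apply, if_neg hc, mul_zero]
  · simp

end block

end Pool.Agent.K3h92
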