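import Pool.Agent.K3h92.Perm

/-!
# Invariants of blocks and the corresponding projections
-/

set_option autoImplicit false
set_option linter.unusedSimpArgs false
set_option linter.unusedSectionVars false

open Matrix
open scoped RealInnerProductSpace

namespace Pool.Agent.K3h92

section proj

variable {V : Type} [NormedAddCommGroup V] [InnerProductSpace ℝ V] [FiniteDimensional ℝ V]

/-- A skew operator preserving `W` commutes with the projection to `W`. -/
lemma proj_comm_skew (A : V →ₗ[ℝ] V) (hA : ∀ u v, ⟪A u, v⟫ = -⟪u, A v⟫) (W : Submodule ℝ V)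
    (hW : ∀ w ∈ W, A w ∈ W) (v : V) : W.starProjection (A v) = A (W.starProjection v) := by
  have h1 : A v = A (W.starProjection v) + A (v - W.starProjection v) := by
    rw [← map_add]; congr 1; abel
  have h2 : A (v - W.starProjection v) ∈ Wᗮ := by
    rw [Submodule.mem_orthogonal]
    intro w hw
    rw [real_inner_comm, hA]
    have := Submodule.inner_left_of_mem_orthogonal (hW w hw)
      (Submodule.sub_starProjection_mem_orthogonal (K := W) v)
    rw [this, neg_zero]
  conv_lhs => rw [h1]
  rw [map_add, Submodule.starProjection_eq_self_iff.2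
    (hW _ (Submodule.starProjection_apply_mem _ _)),
    (Submodule.starProjection_apply_eq_zero_iff W).2 h2, add_zero]

/-- An orthogonal operator preserving `W` (with its inverse) commutes with the projection. -/
lemma proj_comm_orth (A B : V →ₗ[ℝ] V) (hA : ∀ u v, ⟪A u, v⟫ = ⟪u, B v⟫) (W : Submodule ℝ V)
    (hW : ∀ w ∈ W, A w ∈ W) (hW' : ∀ w ∈ W, B w ∈ W) (v : V) :
    W.starProjection (A v) = A (W.starProjection v) := by
  have h1 : A v = A (W.starProjection v) + A (v - W.starProjection v) := by
    rw [← map_add]; congr 1; abel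
  have h2 : A (v - W.starProjection v) ∈ Wᗮ := by
    rw [Submodule.mem_orthogonal]
    intro w hw
    rw [real_inner_comm, hA]
    exact Submodule.inner_left_of_mem_orthogonal (hW' w hw)
      (Submodule.sub_starProjection_mem_orthogonal (K := W) v)
  conv_lhs => rw [h1]
  rw [map_add, Submodule.starProjection_eq_self_iff.2
    (hW _ (Submodule.starProjection_apply_mem _ _)),
    (Submodule.starProjection_apply_eq_zero_iff W).2 h2, add_zero]

/-- Pythagoras for the projection. -/
lemma proj_pyth (W : Submodule ℝ V) (v : V) :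
    ‖v‖ ^ 2 = ‖W.starProjection v‖ ^ 2 + ‖v - W.starProjection v‖ ^ 2 := by
  have h : ⟪W.starProjection v, v - W.starProjection v⟫ = 0 :=
    Submodule.inner_right_of_mem_orthogonal (Submodule.starProjection_apply_mem _ _)
      (Submodule.sub_starProjection_mem_orthogonal (K := W) v)
  have h2 := norm_add_sq_real (W.starProjection v) (v - W.starProjection v)
  rw [h, add_sub_cancel] at h2
  linarith

lemma proj_inner (W : Submodule ℝ V) (u v : V) :
    ⟪u, v⟫ = ⟪W.starProjection u, W.starProjection v⟫ +
      ⟪u - W.starProjection u, v - W.starProjection v⟫ := by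
  have h1 : ⟪W.starProjection u, v - W.starProjection v⟫ = 0 :=
    Submodule.inner_right_of_mem_orthogonal (Submodule.starProjection_apply_mem _ _)
      (Submodule.sub_starProjection_mem_orthogonal (K := W) v)
  have h2 : ⟪u - W.starProjection u, W.starProjection v⟫ = 0 :=
    Submodule.inner_left_of_mem_orthogonal (Submodule.starProjection_apply_mem _ _)
      (Submodule.sub_starProjection_mem_orthogonal (K := W) u)
  simp only [inner_sub_left, inner_sub_right] at h1 h2 ⊢
  linarith

/-- The projection is the closest point. -/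
lemma proj_min (W : Submodule ℝ V) (v : V) {w : V} (hw : w ∈ W) :
    ‖v - W.starProjection v‖ ≤ ‖v - w‖ := by
  have h : ⟪v - W.starProjection v, W.starProjection v - w⟫ = 0 :=
    Submodule.inner_left_of_mem_orthogonal
      (W.sub_mem (Submodule.starProjection_apply_mem _ _) hw)
      (Submodule.sub_starProjection_mem_orthogonal (K := W) v)
  have h2 := norm_add_sq_real (v - W.starProjection v) (W.starProjection v - w)
  rw [h, sub_add_sub_cancel] at h2
  have h3 : ‖v - W.starProjection v‖ ^ 2 ≤ ‖v - w‖ ^ 2 := by
    rw [h2]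
    nlinarith [sq_nonneg ‖W.starProjection v - w‖]
  exact le_of_sq_le_sq h3 (norm_nonneg _)

lemma proj_norm_le (W : Submodule ℝ V) (v : V) : ‖v - W.starProjection v‖ ≤ ‖v‖ := by
  have := proj_min W v W.zero_mem
  simpa using this

end proj

section invk

variable {ι : Type} [Fintype ι] [DecidableEq ι] {V : Type}
  [NormedAddCommGroup V] [InnerProductSpace ℝ V] (R : LieRep ι V) {β : Type}

/-- The vectors killed by the generators of the blocks `col = z`, `z ∈ K`. -/
def LieRep.InvK (col : ι → β) (K : Set β) : Submodule ℝ V :=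
  ⨅ (a : ι) (b : ι) (_ : col a = col b) (_ : col a ∈ K), LinearMap.ker (R.A a b)

lemma LieRep.mem_InvK (col : ι → β) (K : Set β) (v : V) :
    v ∈ R.InvK col K ↔ ∀ a b, col a = col b → col a ∈ K → R.A a b v = 0 := by
  simp [LieRep.InvK, Submodule.mem_iInf]

lemma LieRep.InvK_univ (col : ι → β) : R.InvK col Set.univ = R.Inv col := by
  ext v
  rw [R.mem_InvK, R.mem_Inv]
  simp

lemma LieRep.InvK_preserved (col : ι → β) (K : Set β) {a b : ι} (hab : col a = col b) {w : V}
    (hw : w ∈ R.InvK col K) : R.A a b w ∈ R.InvK col K := by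
  rw [R.mem_InvK] at hw ⊢
  intro c d hcd hK
  by_cases h : col a = col c
  · rw [hw a b hab (h ▸ hK), map_zero]
  · rw [R.br_apply c d a b w, hw c d hcd hK, map_zero]
    have h1 : d ≠ a := fun h' => h (by rw [hcd, h'])
    have h2 : c ≠ a := fun h' => h (by rw [h'])
    have h3 : d ≠ b := fun h' => h (by rw [hab, ← h', hcd])
    have h4 : c ≠ b := fun h' => h (by rw [hab, ← h'])
    simp [h1, h2, h3, h4]

variable [FiniteDimensional ℝ V]

lemma LieRep.A_projK (col : ι → β) (K : Set β) {a b : ι} (hab : col a = col b) (v : V) :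
    R.A a b ((R.InvK col K).starProjection v) = (R.InvK col K).starProjection (R.A a b v) :=
  (proj_comm_skew (R.A a b) (R.skew a b) _ (fun _ hw => R.InvK_preserved col K hab hw) v).symm

end invk

section invk_rho

variable {ι : Type} [Fintype ι] [DecidableEq ι] {V : Type}
  [NormedAddCommGroup V] [InnerProductSpace ℝ V] (R : SORep ι V) {β : Type}

lemma SORep.ρ_InvK (col : ι → β) (K : Set β) {g : SO ι}
    (hg : ∀ a c, col a ≠ col c → (g : Matrix ι ι ℝ) a c = 0) {w : V}
    (hw : w ∈ R.InvK col K) : R.ρ g w ∈ R.InvK col K := by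
  rw [LieRep.mem_InvK] at hw ⊢
  intro a b hab hK
  rw [R.Ad_apply']
  refine Finset.sum_eq_zero fun c _ => Finset.sum_eq_zero fun d _ => ?_
  by_cases hc : col a = col c
  · by_cases hd : col b = col d
    · rw [hw c d (by rw [← hc, hab, hd]) (hc ▸ hK), map_zero, smul_zero]
    · rw [hg b d hd, mul_zero, zero_smul]
  · rw [hg a c hc, zero_mul, zero_smul]

variable [FiniteDimensional ℝ V]

lemma SORep.ρ_projK (col : ι → β) (K : Set β) {g : SO ι}
    (hg : ∀ a c, col a ≠ col c → (g : Matrix ι ι ℝ) a c = 0) (v : V) :
    R.ρ g ((R.InvK col K).starProjection v) = (R.InvK col K).starProjection (R.ρ g v) := by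
  refine (proj_comm_orth (R.ρ g) (R.ρ g⁻¹) (fun u v => R.inner_ρ_left g u v) _
    (fun w hw => R.ρ_InvK col K hg hw) (fun w hw => R.ρ_InvK col K ?_ hw) v).symm
  intro a c hac
  rw [SO.coe_inv, Matrix.transpose_apply]
  exact hg c a (Ne.symm hac)

/-- Displacements split along an invariant projection. -/
lemma SORep.disp_split {W : Submodule ℝ V} {g : SO ι} {v : V}
    (h : R.ρ g (W.starProjection v) = W.starProjection (R.ρ g v)) :
    ‖R.ρ g v - v‖ ^ 2 = ‖R.ρ g (W.starProjection v) - W.starProjection v‖ ^ 2 +
      ‖R.ρ g (v - W.starProjection v) - (v - W.starProjection v)‖ ^ 2 := by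
  rw [proj_pyth W (R.ρ g v - v)]
  congr 2
  · rw [map_sub, h]
  · rw [map_sub, map_sub, h]
    congr 1
    abel

end invk_rho

end Pool.Agent.K3h92
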