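import Pool.Agent.K3h92.Second2

/-!
# The second-moment bound: the angle estimate
-/

set_option autoImplicit false
set_option linter.unusedSimpArgs false
set_option linter.unusedSectionVars false

open scoped RealInnerProductSpace

namespace Pool.Agent.K3h92

open Module.End

section second

variable {P : Type} [Fintype P] [DecidableEq P] {V : Type} [NormedAddCommGroup V]
  [InnerProductSpace ℝ V]

/-- The bound on the squared cosine of the angle. -/
noncomputable def eps (p : ℝ) : ℝ := 4 * (p - 1) / (p + 2) ^ 2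

lemma eps_nonneg {p : ℝ} (hp : 4 ≤ p) : 0 ≤ eps p := by
  unfold eps
  apply div_nonneg
  · linarith
  · positivity

lemma angle_eig {R : LieRep (P ⊕ P) V} {h t : V} (hL : ∀ x z, R.L x z h = 0)
    (hR : ∀ x z, R.Rt x z h = 0) (ht : ∀ q, R.a q q t = 0) (hp : 4 ≤ Fintype.card P) {c : ℝ}
    (hc : R.cas h = c • h) (hc0 : 0 < c) :
    ⟪h, t⟫ ^ 2 ≤ eps (Fintype.card P) * (‖h‖ ^ 2 * ‖t‖ ^ 2) := by
  have hQ := Q_bound hL hR hp hc hc0.le
  have hN := sum_N hL hR
  set p : ℝ := (Fintype.card P : ℝ) with hpdef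
  have hp4 : (4 : ℝ) ≤ p := by
    rw [hpdef]; exact_mod_cast hp
  set X := ∑ q, R.a q q (R.a q q h) with hX
  -- inner products with `X`
  have h1 : ⟪X, t⟫ = 0 := by
    rw [hX, sum_inner]
    refine Finset.sum_eq_zero fun q _ => ?_
    rw [R.skew, ht, inner_zero_right, neg_zero]
  have h2 : p * ⟪X, h⟫ = -(c * ‖h‖ ^ 2) := by
    have e1 : ⟪X, h⟫ = -∑ q, ‖R.a q q h‖ ^ 2 := by
      rw [hX, sum_inner, ← Finset.sum_neg_distrib]
      refine Finset.sum_congr rfl fun q _ => ?_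
      rw [R.skew, real_inner_self_eq_norm_sq]
    have e2 : p * ∑ q, ‖R.a q q h‖ ^ 2 = ∑ x, ∑ y, ‖R.a x y h‖ ^ 2 := by
      rw [Finset.mul_sum]
      refine Finset.sum_congr rfl fun x _ => ?_
      rw [Finset.sum_congr rfl (fun y _ => N_all hL hR x x y x), Finset.sum_const,
        Finset.card_univ, nsmul_eq_mul]
    rw [e1, mul_neg, e2, hN, hc, inner_smul_left, real_inner_self_eq_norm_sq]
    simp
  -- `c • h + p • X` is small
  have h3 : ‖c • h + p • X‖ ^ 2 = p ^ 2 * ‖X‖ ^ 2 - c ^ 2 * ‖h‖ ^ 2 := by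
    rw [← real_inner_self_eq_norm_sq]
    simp only [inner_add_left, inner_add_right, inner_smul_left, inner_smul_right,
      real_inner_self_eq_norm_sq, conj_trivial]
    rw [real_inner_comm X h]
    have : c * (p * ⟪X, h⟫) = -(c * (c * ‖h‖ ^ 2)) := by rw [h2]; ring
    nlinarith [this]
  have h4 : c * ⟪h, t⟫ = ⟪c • h + p • X, t⟫ := by
    rw [inner_add_left, inner_smul_left, inner_smul_left, h1]
    simp
  have h5 : (c * ⟪h, t⟫) ^ 2 ≤ (p ^ 2 * ‖X‖ ^ 2 - c ^ 2 * ‖h‖ ^ 2) * ‖t‖ ^ 2 := by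
    rw [h4, ← h3, ← mul_pow]
    exact sq_le_sq' (by linarith [neg_le_of_abs_le (abs_real_inner_le_norm (c • h + p • X) t)])
      (real_inner_le_norm _ _)
  have h6 : p ^ 2 * ‖X‖ ^ 2 - c ^ 2 * ‖h‖ ^ 2 ≤ eps p * (c ^ 2 * ‖h‖ ^ 2) := by
    have hpos : (0:ℝ) < (p + 2) ^ 2 := by positivity
    unfold eps
    rw [div_mul_eq_mul_div, le_div_iff₀ hpos]
    nlinarith [hQ]
  have h7 : c ^ 2 * ⟪h, t⟫ ^ 2 ≤ c ^ 2 * (eps p * (‖h‖ ^ 2 * ‖t‖ ^ 2)) := by
    calc c ^ 2 * ⟪h, t⟫ ^ 2 = (c * ⟪h, t⟫) ^ 2 := by ring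
      _ ≤ (p ^ 2 * ‖X‖ ^ 2 - c ^ 2 * ‖h‖ ^ 2) * ‖t‖ ^ 2 := h5
      _ ≤ (eps p * (c ^ 2 * ‖h‖ ^ 2)) * ‖t‖ ^ 2 :=
          mul_le_mul_of_nonneg_right h6 (sq_nonneg _)
      _ = _ := by ring
  exact le_of_mul_le_mul_left h7 (by positivity)

variable [FiniteDimensional ℝ V]

lemma LieRep.A_eigproj {ι : Type} [Fintype ι] [DecidableEq ι] (R : LieRep ι V) (a b : ι)
    (μ : Eigenvalues R.cas) (v : V) :
    R.A a b ((eigenspace R.cas (μ : ℝ)).starProjection v) =
      (eigenspace R.cas (μ : ℝ)).starProjection (R.A a b v) :=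
  (eigproj_comm R.cas_symm (fun w => R.cas_comm a b w) μ v).symm

/-- A vector orthogonal to the invariants has no component of Casimir eigenvalue `0`. -/
lemma LieRep.eigproj_zero {ι : Type} [Fintype ι] [DecidableEq ι] (R : LieRep ι V)
    {v : V} (hv : v ∈ R.InvAllᗮ) {μ : Eigenvalues R.cas} (hμ : (μ : ℝ) = 0) :
    (eigenspace R.cas (μ : ℝ)).starProjection v = 0 := by
  rw [Submodule.starProjection_apply_eq_zero_iff]
  rw [Submodule.mem_orthogonal] at hv ⊢
  intro w hw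
  apply hv
  rw [R.mem_InvAll_iff_cas]
  rw [mem_eigenspace_iff, hμ, zero_smul] at hw
  exact hw

lemma LieRep.cas_nonneg_eig {ι : Type} [Fintype ι] [DecidableEq ι] (R : LieRep ι V)
    (μ : Eigenvalues R.cas) : 0 ≤ (μ : ℝ) := by
  have hev : HasEigenvalue R.cas (μ : ℝ) := μ.2
  obtain ⟨v, hv⟩ := hev.exists_hasEigenvector
  have h1 := R.cas_inner_self v
  have h2 := (mem_eigenspace_iff.1 hv.1 : R.cas v = _)
  rw [h2, inner_smul_left, real_inner_self_eq_norm_sq] at h1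
  have h3 : 0 < ‖v‖ ^ 2 := by
    have := norm_pos_iff.2 hv.2
    positivity
  have h4 : 0 ≤ (1 / 2 : ℝ) * ∑ a, ∑ b, ‖R.A a b v‖ ^ 2 := by
    apply mul_nonneg (by norm_num)
    exact Finset.sum_nonneg fun a _ => Finset.sum_nonneg fun b _ => sq_nonneg _
  rw [← h1] at h4
  simp only [conj_trivial] at h4
  exact nonneg_of_mul_nonneg_left h4 h3

/-- **The angle estimate.** -/
theorem LieRep.angle (R : LieRep (P ⊕ P) V) {h t : V} (hL : ∀ x z, R.L x z h = 0)
    (hR : ∀ x z, R.Rt x z h = 0) (hI : h ∈ R.InvAllᗮ) (ht : ∀ q, R.a q q t = 0)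
    (hp : 4 ≤ Fintype.card P) :
    |⟪h, t⟫| ≤ Real.sqrt (eps (Fintype.card P)) * (‖h‖ * ‖t‖) := by
  refine bilin_of_eig R.cas_symm (Real.sqrt_nonneg _) h t fun μ => ?_
  rcases (R.cas_nonneg_eig μ).eq_or_lt with hμ | hμ
  · rw [R.eigproj_zero hI hμ.symm]
    simp
  · have h1 := angle_eig (R := R) (h := (eigenspace R.cas (μ : ℝ)).starProjection h)
      (t := (eigenspace R.cas (μ : ℝ)).starProjection t) (c := μ)
      (fun x z => by rw [LieRep.L, R.A_eigproj, hL, map_zero])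
      (fun x z => by rw [LieRep.Rt, R.A_eigproj, hR, map_zero])
      (fun q => by rw [LieRep.a, R.A_eigproj, ht, map_zero]) hp
      (mem_eigenspace_iff.1 (Submodule.starProjection_apply_mem _ _)) hμ
    rw [← Real.sqrt_sq_eq_abs, ← mul_pow] at *
    calc Real.sqrt (⟪(eigenspace R.cas (μ : ℝ)).starProjection h,
            (eigenspace R.cas (μ : ℝ)).starProjection t⟫ ^ 2) ≤ Real.sqrt (eps (Fintype.card P) *
            (‖(eigenspace R.cas (μ : ℝ)).starProjection h‖ *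
            ‖(eigenspace R.cas (μ : ℝ)).starProjection t‖) ^ 2) := Real.sqrt_le_sqrt h1
      _ = _ := by
        rw [Real.sqrt_mul (eps_nonneg (by exact_mod_cast hp)), Real.sqrt_sq (by positivity)]

end second

end Pool.Agent.K3h92
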