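import Pool.Agent.K3h92.Ext
import Pool.Agent.K3h92.Second3

/-!
# Restriction of representations; permutations and block-diagonal elements
-/

set_option autoImplicit false
set_option linter.unusedSimpArgs false
set_option linter.unusedSectionVars false

open Matrix
open scoped RealInnerProductSpace

namespace Pool.Agent.K3h92

section pull

variable {ι ι' : Type} [Fintype ι] [Fintype ι'] [DecidableEq ι] [DecidableEq ι'] {V : Type}
  [NormedAddCommGroup V] [InnerProductSpace ℝ V]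

lemma sum_ext_aux {M : Type} [AddCommGroup M] [Module ℝ M] (f : ι' → ι) (p q : ι' → ℝ)
    (B : ι → ι → M) : ∑ c, ∑ d, ((∑ x, if c = f x then p x else 0) *
      (∑ y, if d = f y then q y else 0)) • B c d = ∑ x, ∑ y, (p x * q y) • B (f x) (f y) := by
  have key : ∀ (G : ι → M) (r : ι' → ℝ), ∑ c, (∑ x, if c = f x then r x else 0) • G c =
      ∑ x, r x • G (f x) := by
    intro G r
    simp only [Finset.sum_smul, ite_smul, zero_smul]
    rw [Finset.sum_comm]
    refine Finset.sum_congr rfl fun x _ => ?_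
    simp
  calc ∑ c, ∑ d, ((∑ x, if c = f x then p x else 0) *
      (∑ y, if d = f y then q y else 0)) • B c d =
      ∑ c, (∑ x, if c = f x then p x else 0) • ∑ d, (∑ y, if d = f y then q y else 0) •
        B c d := by
        refine Finset.sum_congr rfl fun c _ => ?_
        rw [Finset.smul_sum]
        refine Finset.sum_congr rfl fun d _ => ?_
        rw [smul_smul]
    _ = ∑ x, p x • ∑ y, q y • B (f x) (f y) := by
        rw [key]
        refine Finset.sum_congr rfl fun x _ => ?_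
        rw [key]
    _ = _ := by
        refine Finset.sum_congr rfl fun x _ => ?_
        rw [Finset.smul_sum]
        refine Finset.sum_congr rfl fun d _ => ?_
        rw [smul_smul]

/-- Restriction of a representation along an injection of the index sets. -/
def SORep.pull (R : SORep ι V) (f : ι' → ι) (hf : Function.Injective f) : SORep ι' V where
  toLieRep := R.toLieRep.pull f hf
  ρ := R.ρ.comp (SO.ext f hf)
  norm_ρ g v := R.norm_ρ _ v
  Ad g a b := by
    have h1 := R.Ad (SO.ext f hf g) (f a) (f b)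
    have h2 : (∑ c, ∑ d, (((SO.ext f hf g : SO ι) : Matrix ι ι ℝ) c (f a) *
        ((SO.ext f hf g : SO ι) : Matrix ι ι ℝ) d (f b)) • R.A c d) =
        ∑ c, ∑ d, ((g : Matrix ι' ι' ℝ) c a * (g : Matrix ι' ι' ℝ) d b) • R.A (f c) (f d) := by
      simp only [SO.ext_coe, extMat_col hf]
      exact sum_ext_aux f (fun x => (g : Matrix ι' ι' ℝ) x a)
        (fun x => (g : Matrix ι' ι' ℝ) x b) (fun c d => R.A c d)
    rw [h2] at h1
    exact h1
  deriv a b hab v := by
    have h1 := R.deriv (f a) (f b) (hf.ne hab) v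
    refine h1.congr_of_eventuallyEq (Filter.Eventually.of_forall fun t => ?_)
    have : SO.ext f hf (rot a b hab t) = rot (f a) (f b) (hf.ne hab) t :=
      Subtype.ext (extMat_rotMat f a b t)
    simp only [MonoidHom.comp_apply, this]
  cont v := (R.cont v).comp (SO.continuous_ext f hf)

@[simp] lemma SORep.pull_ρ (R : SORep ι V) (f : ι' → ι) (hf : Function.Injective f)
    (g : SO ι') : (R.pull f hf).ρ g = R.ρ (SO.ext f hf g) := rfl

@[simp] lemma SORep.pull_toLieRep (R : SORep ι V) (f : ι' → ι) (hf : Function.Injective f) :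
    (R.pull f hf).toLieRep = R.toLieRep.pull f hf := rfl

end pull

section rep

variable {ι : Type} [Fintype ι] [DecidableEq ι] {V : Type}
  [NormedAddCommGroup V] [InnerProductSpace ℝ V] (R : SORep ι V)

@[simp] lemma SORep.ρ_one (v : V) : R.ρ 1 v = v := by simp

lemma SORep.ρ_mul (g h : SO ι) (v : V) : R.ρ (g * h) v = R.ρ g (R.ρ h v) := by simp

@[simp] lemma SORep.ρ_inv_self (g : SO ι) (v : V) : R.ρ g⁻¹ (R.ρ g v) = v := by
  rw [← R.ρ_mul]; simp

@[simp] lemma SORep.ρ_self_inv (g : SO ι) (v : V) : R.ρ g (R.ρ g⁻¹ v) = v := by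
  rw [← R.ρ_mul]; simp

lemma SORep.inner_ρ (g : SO ι) (u v : V) : ⟪R.ρ g u, R.ρ g v⟫ = ⟪u, v⟫ := by
  have h1 := R.norm_ρ g (u + v)
  have h2 := R.norm_ρ g u
  have h3 := R.norm_ρ g v
  rw [map_add] at h1
  have h4 := norm_add_sq_real (R.ρ g u) (R.ρ g v)
  have h5 := norm_add_sq_real u v
  rw [h1, h2, h3] at h4
  linarith

lemma SORep.inner_ρ_left (g : SO ι) (u v : V) : ⟪R.ρ g u, v⟫ = ⟪u, R.ρ g⁻¹ v⟫ := by
  rw [← R.inner_ρ g u, R.ρ_self_inv]

/-- Displacement of a vector. -/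
lemma SORep.disp_inv (g : SO ι) (v : V) : ‖R.ρ g⁻¹ v - v‖ = ‖R.ρ g v - v‖ := by
  rw [← R.norm_ρ g (R.ρ g⁻¹ v - v), map_sub, R.ρ_self_inv, norm_sub_rev]

lemma SORep.disp_mul (g h : SO ι) (v : V) :
    ‖R.ρ (g * h) v - v‖ ≤ ‖R.ρ g v - v‖ + ‖R.ρ h v - v‖ := by
  have : R.ρ (g * h) v - v = R.ρ g (R.ρ h v - v) + (R.ρ g v - v) := by
    rw [R.ρ_mul, map_sub]; abel
  rw [this]
  refine (norm_add_le _ _).trans ?_
  rw [R.norm_ρ]
  linarith

lemma SORep.disp_conj (g h : SO ι) (v : V) :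
    ‖R.ρ (h⁻¹ * g * h) v - v‖ ≤ ‖R.ρ g v - v‖ + 2 * ‖R.ρ h v - v‖ := by
  have h1 := R.disp_mul (h⁻¹ * g) h v
  have h2 := R.disp_mul h⁻¹ g v
  rw [R.disp_inv] at h2
  linarith

lemma SORep.Ad_apply (g : SO ι) (a b : ι) (v : V) : R.ρ g (R.A a b v) =
    ∑ c, ∑ d, ((g : Matrix ι ι ℝ) c a * (g : Matrix ι ι ℝ) d b) • R.A c d (R.ρ g v) := by
  have h := congrArg (fun T : V →ₗ[ℝ] V => T v) (R.Ad g a b)
  simpa [LinearMap.sum_apply] using h

/-- The converse form of the adjoint action. -/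
lemma SORep.Ad_apply' (g : SO ι) (a b : ι) (v : V) : R.A a b (R.ρ g v) =
    ∑ c, ∑ d, ((g : Matrix ι ι ℝ) a c * (g : Matrix ι ι ℝ) b d) • R.ρ g (R.A c d v) := by
  have h := R.Ad_apply g⁻¹ a b (R.ρ g v)
  rw [R.ρ_inv_self] at h
  have h2 := congrArg (R.ρ g) h
  rw [R.ρ_self_inv, map_sum] at h2
  rw [h2]
  refine Finset.sum_congr rfl fun c _ => ?_
  rw [map_sum]
  refine Finset.sum_congr rfl fun d _ => ?_
  rw [map_smul]
  rfl

lemma SORep.ρ_mem_InvAll {g : SO ι} {v : V} (hv : v ∈ R.InvAll) : R.ρ g v ∈ R.InvAll := by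
  rw [LieRep.mem_InvAll] at hv ⊢
  intro a b
  rw [R.Ad_apply']
  simp [hv]

omit [DecidableEq ι] in
lemma sum_comm_six {M : Type} [AddCommGroup M] (F : ι → ι → ι → ι → ι → ι → M) :
    ∑ a, ∑ b, ∑ c, ∑ d, ∑ c', ∑ d', F a b c d c' d' =
    ∑ c, ∑ d, ∑ c', ∑ d', ∑ a, ∑ b, F a b c d c' d' := by
  have s1 : ∀ G : ι → ι → ι → ι → ι → M, ∑ b, ∑ c, ∑ d, ∑ c', ∑ d', G b c d c' d' =
      ∑ c, ∑ d, ∑ c', ∑ d', ∑ b, G b c d c' d' := by
    intro G
    rw [Finset.sum_comm]
    refine Finset.sum_congr rfl fun c _ => ?_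
    rw [Finset.sum_comm]
    refine Finset.sum_congr rfl fun d _ => ?_
    rw [Finset.sum_comm]
    refine Finset.sum_congr rfl fun c' _ => ?_
    rw [Finset.sum_comm]
  rw [Finset.sum_congr rfl fun a _ => s1 (F a)]
  exact s1 (fun a c d c' d' => ∑ b, F a b c d c' d')

/-- The Casimir operator commutes with the group. -/
lemma SORep.cas_ρ (g : SO ι) (v : V) : R.cas (R.ρ g v) = R.ρ g (R.cas v) := by
  rw [LieRep.cas_apply, LieRep.cas_apply, map_smul]
  congr 1
  have h1 : ∀ a b, R.A a b (R.A a b (R.ρ g v)) = ∑ c, ∑ d, ∑ c', ∑ d',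
      (((g : Matrix ι ι ℝ) a c * (g : Matrix ι ι ℝ) a c') *
        ((g : Matrix ι ι ℝ) b d * (g : Matrix ι ι ℝ) b d')) •
        R.ρ g (R.A c' d' (R.A c d v)) := by
    intro a b
    rw [R.Ad_apply', map_sum]
    refine Finset.sum_congr rfl fun c _ => ?_
    rw [map_sum]
    refine Finset.sum_congr rfl fun d _ => ?_
    rw [map_smul, R.Ad_apply', Finset.smul_sum]
    refine Finset.sum_congr rfl fun c' _ => ?_
    rw [Finset.smul_sum]
    refine Finset.sum_congr rfl fun d' _ => ?_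
    rw [smul_smul]
    congr 1
    ring
  have h2 : ∀ c c' : ι, ∑ a, (g : Matrix ι ι ℝ) a c * (g : Matrix ι ι ℝ) a c' =
      if c = c' then 1 else 0 := by
    intro c c'
    have := congrFun (congrFun ((SO.mem_iff _).1 g.2).1 c) c'
    rw [Matrix.mul_apply, Matrix.one_apply] at this
    simpa using this
  simp only [h1]
  have h3 : ∑ a, ∑ b, ∑ c, ∑ d, ∑ c', ∑ d',
      (((g : Matrix ι ι ℝ) a c * (g : Matrix ι ι ℝ) a c') *
        ((g : Matrix ι ι ℝ) b d * (g : Matrix ι ι ℝ) b d')) •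
        R.ρ g (R.A c' d' (R.A c d v)) =
      ∑ c, ∑ d, ∑ c', ∑ d', ((∑ a, (g : Matrix ι ι ℝ) a c * (g : Matrix ι ι ℝ) a c') *
        (∑ b, (g : Matrix ι ι ℝ) b d * (g : Matrix ι ι ℝ) b d')) •
        R.ρ g (R.A c' d' (R.A c d v)) := by
    rw [sum_comm_six]
    refine Finset.sum_congr rfl fun c _ => Finset.sum_congr rfl fun d _ =>
      Finset.sum_congr rfl fun c' _ => Finset.sum_congr rfl fun d' _ => ?_
    rw [Finset.sum_mul_sum, Finset.sum_smul]
    refine Finset.sum_congr rfl fun a _ => ?_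
    rw [Finset.sum_smul]
  rw [h3]
  simp only [h2]
  rw [map_sum]
  refine Finset.sum_congr rfl fun c _ => ?_
  rw [map_sum]
  refine Finset.sum_congr rfl fun d _ => ?_
  simp

end rep

end Pool.Agent.K3h92
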