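import Pool.Agent.K3h92.HA
import Pool.Agent.K3lead.Commutator

/-!
# The recursion
-/

set_option autoImplicit false
set_option linter.unusedSimpArgs false
set_option linter.unusedSectionVars false

open Matrix
open scoped RealInnerProductSpace

namespace Pool.Agent.K3h92

lemma exists_mixing : ∃ C : ℕ, ∀ b d : ℕ, C * (b + 1) ≤ 2 ^ d →
    ∃ B : (Fin d → ZMod 2) → (Fin b → ZMod 2), Mixing B (1 / 10) := by
  obtain ⟨C, hC⟩ := K3lead.SmallBias.exists_small_bias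
  refine ⟨C, fun b d h => ?_⟩
  obtain ⟨B, hB⟩ := hC b d h
  refine ⟨B, fun f g hf => ?_⟩
  have := hB f g hf
  rw [div_eq_mul_one_div] at this
  exact this

section iter

variable {ι : Type} [Fintype ι] [DecidableEq ι]

lemma HA.sq {C : ℕ} (hC : ∀ b d : ℕ, C * (b + 1) ≤ 2 ^ d →
    ∃ B : (Fin d → ZMod 2) → (Fin b → ZMod 2), Mixing B (1 / 10)) {b d : ℕ} {δ : ℝ}
    (hδ1 : δ ≤ 1) (h : HA ι b δ) (hb : C * (b + 1) ≤ 2 ^ d) :
    HA ι (b + d) (9 / 10 * δ * (2 - δ)) := by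
  obtain ⟨B, hB⟩ := hC b d hb
  obtain ⟨S, hS⟩ := h
  have h1 := AvgLe.square (by norm_num) (by norm_num) hB (by linarith) hS
  refine ⟨_, (h1.mono (le_of_eq ?_)).of_equiv (Fin.appendEquiv b d).symm⟩
  ring

lemma HA.iter {C : ℕ} (hC : ∀ b d : ℕ, C * (b + 1) ≤ 2 ^ d →
    ∃ B : (Fin d → ZMod 2) → (Fin b → ZMod 2), Mixing B (1 / 10)) {b d M : ℕ} {δ : ℝ}
    (hδ0 : 0 ≤ δ) (hδ1 : δ ≤ 1 / 2) (h : HA ι b δ) (hd : C * (M + 1) ≤ 2 ^ d) (k : ℕ)
    (hM : b + k * d ≤ M) : HA ι (b + k * d) (min (1 / 2) ((4 / 3) ^ k * δ)) := by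
  induction k with
  | zero =>
    have e : min (1 / 2) ((4 / 3 : ℝ) ^ 0 * δ) = δ := by
      rw [pow_zero, one_mul, min_eq_right hδ1]
    rw [e]
    simpa using h
  | succ k ih =>
    have hk : b + k * d ≤ M := by
      refine le_trans ?_ hM
      rw [Nat.succ_mul]; omega
    have h1 := ih hk
    set δk := min (1 / 2) ((4 / 3 : ℝ) ^ k * δ) with hδk
    have hk1 : δk ≤ 1 / 2 := min_le_left _ _
    have hk0 : 0 ≤ δk := le_min (by norm_num) (by positivity)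
    have h2 := HA.sq hC (by linarith) h1 (le_trans (Nat.mul_le_mul_left C (by omega)) hd)
    have e : b + (k + 1) * d = b + k * d + d := by ring
    rw [e]
    refine h2.mono ?_
    have h3 : 4 / 3 * δk ≤ 9 / 10 * δk * (2 - δk) := by nlinarith
    rcases le_total (1 / 2 : ℝ) ((4 / 3 : ℝ) ^ k * δ) with h4 | h4
    · have h5 : δk = 1 / 2 := min_eq_left h4
      refine (min_le_left _ _).trans ?_
      rw [h5] at h3 ⊢
      linarith
    · have h5 : δk = (4 / 3 : ℝ) ^ k * δ := min_eq_right h4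
      refine (min_le_right _ _).trans (le_trans (le_of_eq ?_) h3)
      rw [h5, pow_succ]
      ring

/-- Amplification in a controlled number of bits. -/
lemma HA.ampl {C : ℕ} (hC : ∀ b d : ℕ, C * (b + 1) ≤ 2 ^ d →
    ∃ B : (Fin d → ZMod 2) → (Fin b → ZMod 2), Mixing B (1 / 10)) {b d m M : ℕ}
    (h : HA ι b (1 / 2 ^ (m + 1))) (hd : C * (M + 1) ≤ 2 ^ d)
    (hM : b + 3 * m * d ≤ M) : HA ι M (1 / 2) := by
  have h1 : (1 / 2 ^ (m + 1) : ℝ) ≤ 1 / 2 := by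
    apply one_div_le_one_div_of_le (by norm_num)
    rw [pow_succ]
    have : (1:ℝ) ≤ 2 ^ m := one_le_pow₀ (by norm_num)
    linarith
  have h2 := HA.iter hC (by positivity) h1 h hd (3 * m) hM
  refine HA.pad (h2.mono ?_) hM
  apply le_min le_rfl
  have h3 : (2:ℝ) ^ m ≤ (4 / 3) ^ (3 * m) := by
    rw [pow_mul]
    apply pow_le_pow_left₀ (by norm_num)
    norm_num
  calc (1 / 2 : ℝ) = 2 ^ m * (1 / 2 ^ (m + 1)) := by
        rw [pow_succ]; field_simp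
    _ ≤ _ := by gcongr

end iter

/-- Growth condition on `L`. -/
def Good (C : ℕ) (L : ℕ) : Prop :=
  ∃ d, C * (2 ^ L + 1) ≤ 2 ^ d ∧ (L + 3) + 3 * (10 * L + 22) * d ≤ 2 ^ L

lemma exists_good (C : ℕ) : ∃ L₀, ∀ L, L₀ ≤ L → Good C L := by
  obtain ⟨c₀, hc₀⟩ : ∃ c₀, C < 2 ^ c₀ := ⟨_, Nat.lt_two_pow_self⟩
  have h1 := tendsto_pow_const_div_const_pow_of_one_lt 2 (by norm_num : (1:ℝ) < 2)
  have h2 : ∀ᶠ n : ℕ in Filter.atTop, (n:ℝ) ^ 2 / 2 ^ n < 1 / (4 + 96 * (c₀ + 2)) := by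
    apply h1.eventually_lt_const
    positivity
  obtain ⟨L₁, hL₁⟩ := Filter.eventually_atTop.1 h2
  refine ⟨max 1 L₁, fun L hL => ⟨L + 1 + c₀, ?_, ?_⟩⟩
  · calc C * (2 ^ L + 1) ≤ 2 ^ c₀ * (2 ^ L + 2 ^ L) := by
          gcongr
          exact Nat.one_le_two_pow
      _ = _ := by rw [pow_add, pow_add]; ring
  · have h3 := hL₁ L (le_trans (le_max_right _ _) hL)
    have hL1 : 1 ≤ L := le_trans (le_max_left _ _) hL
    have hL1R : (1:ℝ) ≤ L := by exact_mod_cast hL1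
    rw [div_lt_div_iff₀ (by positivity) (by positivity)] at h3
    have h4 : ((L:ℝ) + 3) + 3 * (10 * L + 22) * (L + 1 + c₀) ≤
        (L:ℝ) ^ 2 * (4 + 96 * (c₀ + 2)) := by
      have hc : (0:ℝ) ≤ c₀ := by positivity
      have e1 : (L:ℝ) + 3 ≤ 4 * L ^ 2 := by nlinarith
      have e2 : 3 * (10 * (L:ℝ) + 22) ≤ 96 * L := by linarith
      have e3 : (L:ℝ) + 1 + c₀ ≤ (c₀ + 2) * L := by nlinarith
      calc ((L:ℝ) + 3) + 3 * (10 * L + 22) * (L + 1 + c₀) ≤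
          4 * L ^ 2 + (96 * L) * ((c₀ + 2) * L) := by gcongr
        _ = _ := by ring
    have h5 : (((L + 3) + 3 * (10 * L + 22) * (L + 1 + c₀) : ℕ) : ℝ) ≤ ((2 ^ L : ℕ) : ℝ) := by
      push_cast
      linarith
    exact_mod_cast h5

/-- **One step of the recursion.** -/
lemma rec_step {C : ℕ} (hC : ∀ b d : ℕ, C * (b + 1) ≤ 2 ^ d →
    ∃ B : (Fin d → ZMod 2) → (Fin b → ZMod 2), Mixing B (1 / 10)) {L : ℕ} (hL : Good C L)
    {j r : ℕ} (hr1 : 1 ≤ r) (hr : r ≤ 2 ^ L) (h : HA (Fin (4 * 2 ^ j)) r (1 / 2)) :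
    HA (Fin (4 * 2 ^ (j + r))) (2 ^ L) (1 / 2) := by
  obtain ⟨d, hd1, hd2⟩ := hL
  have c1 : Fintype.card (Fin (2 * 2 ^ j) × ZMod 2) = 4 * 2 ^ j := by
    rw [Fintype.card_prod, Fintype.card_fin, ZMod.card]; ring
  have e1 : Fin (4 * 2 ^ j) ≃ Fin (2 * 2 ^ j) × ZMod 2 :=
    Fintype.equivOfCardEq (by rw [c1, Fintype.card_fin])
  obtain ⟨S, hS⟩ := h.transfer e1
  have hS' : AvgLe (Fin (2 * 2 ^ j) × ZMod 2) S (1 / 2) := hS.mono (by norm_num)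
  have hcomm : ∀ g : SO (Fin (2 * 2 ^ j) × ZMod 2), ∃ a b, g = a * b * a⁻¹ * b⁻¹ := fun g =>
    K3lead.Comm.exists_commutator _ (by rw [c1]; exact ⟨2 ^ j, rfl⟩) g
  choose Lf hLf using fun u : Bits r => bal_surj hcomm L (S u)
  have hev : Even (Fintype.card (Fin (2 * 2 ^ j))) := by
    rw [Fintype.card_fin]; exact even_two_mul _
  have hκ : 4 ≤ Fintype.card (Fin (2 * 2 ^ j) × ZMod 2) := by
    rw [c1]
    have : 1 ≤ 2 ^ j := Nat.one_le_two_pow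
    omega
  have hK := step_kaz hev hκ hr1 hr hLf hS'
  have c2 : Fintype.card ((Fin (2 * 2 ^ j) × ZMod 2) × Bits r) = 4 * 2 ^ (j + r) := by
    rw [Fintype.card_prod, c1, Fintype.card_fun, ZMod.card, Fintype.card_fin, pow_add]
    ring
  have e2 : ((Fin (2 * 2 ^ j) × ZMod 2) × Bits r) ≃ Fin (4 * 2 ^ (j + r)) :=
    Fintype.equivOfCardEq (by rw [c2, Fintype.card_fin])
  have c3 : Fintype.card ((Fin (2 ^ L) × ZMod 2) ⊕ (Fin r ⊕ Fin r)) < 2 ^ (L + 3) := by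
    simp only [Fintype.card_sum, Fintype.card_prod, Fintype.card_fin, ZMod.card]
    have : 0 < 2 ^ L := by positivity
    rw [pow_add]
    omega
  have hrR : (1:ℝ) ≤ r := by exact_mod_cast hr1
  have hrR2 : (r:ℝ) ≤ 2 ^ L := by exact_mod_cast hr
  have h1 := hK.toHA (by positivity) c3
  have h2 : HA ((Fin (2 * 2 ^ j) × ZMod 2) × Bits r) (L + 3) (1 / 2 ^ (10 * L + 22 + 1)) := by
    refine h1.mono ?_
    have e3 : (122 * (r:ℝ) ^ 2 * (2 ^ L) ^ 2) ≤ 2 ^ (7 + 4 * L) := by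
      calc (122 * (r:ℝ) ^ 2 * (2 ^ L) ^ 2) ≤ 128 * (2 ^ L) ^ 2 * (2 ^ L) ^ 2 := by
            gcongr
            norm_num
        _ = _ := by rw [pow_add, ← pow_mul]; ring
    have e4 : (1 / 2 ^ (7 + 4 * L) : ℝ) ^ 2 ≤ (1 / (122 * (r:ℝ) ^ 2 * (2 ^ L) ^ 2)) ^ 2 := by
      gcongr
    calc (1 / 2 ^ (10 * L + 22 + 1) : ℝ) ≤ (1 / 2 ^ (7 + 4 * L) : ℝ) ^ 2 / (4 * 4 ^ (L + 3)) := by
          have e5 : (4:ℝ) ^ (L + 3) = 2 ^ (2 * L + 6) := by
            rw [show (4:ℝ) = 2 ^ 2 by norm_num, ← pow_mul]; congr 1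
          rw [e5, div_pow, one_pow, ← pow_mul, div_div]
          apply one_div_le_one_div_of_le (by positivity)
          rw [show (4:ℝ) = 2 ^ 2 by norm_num, ← pow_add, ← pow_add]
          apply pow_le_pow_right₀ (by norm_num)
          omega
      _ ≤ _ := by gcongr
  exact (HA.ampl hC h2 hd1 hd2).transfer e2

end Pool.Agent.K3h92
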