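import Pool.Agent.K3h92.Omega
import Pool.Agent.K3h92.Eig

/-!
# The second-moment bound
-/

set_option autoImplicit false
set_option linter.unusedSimpArgs false
set_option linter.unusedSectionVars false

open scoped RealInnerProductSpace

namespace Pool.Agent.K3h92

section pull

variable {ι ι' : Type} [DecidableEq ι] [DecidableEq ι'] {V : Type}
  [NormedAddCommGroup V] [InnerProductSpace ℝ V]

/-- Restriction of a representation along an injection of the index sets. -/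
def LieRep.pull (R : LieRep ι V) (f : ι' → ι) (hf : Function.Injective f) : LieRep ι' V where
  A a b := R.A (f a) (f b)
  anti a b := R.anti _ _
  skew a b := R.skew _ _
  br a b c d := by
    have := R.br (f a) (f b) (f c) (f d)
    simpa only [hf.eq_iff] using this

@[simp] lemma LieRep.pull_A (R : LieRep ι V) (f : ι' → ι) (hf : Function.Injective f) (a b : ι') :
    (R.pull f hf).A a b = R.A (f a) (f b) := rfl

end pull

section second

variable {P : Type} [Fintype P] [DecidableEq P] {V : Type} [NormedAddCommGroup V]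
  [InnerProductSpace ℝ V] (R : LieRep (P ⊕ P) V)

/-- The operators mixing the two copies. -/
abbrev LieRep.a (x y : P) : V →ₗ[ℝ] V := R.A (Sum.inl x) (Sum.inr y)

/-- The operators of the first copy. -/
abbrev LieRep.L (x y : P) : V →ₗ[ℝ] V := R.A (Sum.inl x) (Sum.inl y)

/-- The operators of the second copy. -/
abbrev LieRep.Rt (x y : P) : V →ₗ[ℝ] V := R.A (Sum.inr x) (Sum.inr y)

lemma L_a (x z u w : P) (v : V) : R.L x z (R.a u w v) = R.a u w (R.L x z v) +
    ((if z = u then R.a x w v else 0) - (if x = u then R.a z w v else 0)) := by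
  have h := R.br_apply (Sum.inl x) (Sum.inl z) (Sum.inl u) (Sum.inr w) v
  simpa using h

lemma R_a (y w x u : P) (v : V) : R.Rt y w (R.a x u v) = R.a x u (R.Rt y w v) +
    ((if w = u then R.a x y v else 0) - (if y = u then R.a x w v else 0)) := by
  have h := R.br_apply (Sum.inr y) (Sum.inr w) (Sum.inl x) (Sum.inr u) v
  have e1 : R.A (Sum.inr y) (Sum.inl x) v = -R.A (Sum.inl x) (Sum.inr y) v := by
    rw [R.anti, LinearMap.neg_apply]
  have e2 : R.A (Sum.inr w) (Sum.inl x) v = -R.A (Sum.inl x) (Sum.inr w) v := by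
    rw [R.anti, LinearMap.neg_apply]
  rw [h]
  congr 1
  simp only [reduceCtorEq, if_false, Sum.inr.injEq, e1, e2, zero_sub, sub_zero]
  split_ifs <;> simp [sub_eq_add_neg]

lemma a_a (x y z w : P) (v : V) : R.a x y (R.a z w v) = R.a z w (R.a x y v) -
    ((if x = z then R.Rt y w v else 0) + (if y = w then R.L x z v else 0)) := by
  have h := R.br_apply (Sum.inl x) (Sum.inr y) (Sum.inl z) (Sum.inr w) v
  rw [h]
  simp only [reduceCtorEq, if_false, Sum.inr.injEq, Sum.inl.injEq]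
  split_ifs <;> simp <;> abel

lemma a_a_off {x y z w : P} (hx : x ≠ z) (hy : y ≠ w) (v : V) :
    R.a x y (R.a z w v) = R.a z w (R.a x y v) := by
  rw [a_a, if_neg hx, if_neg hy]; simp

lemma split4 (F : P → P → P → P → ℝ) : ∑ x, ∑ y, ∑ z, ∑ w, F x y z w =
    (∑ x, ∑ y, F x y x y) + (∑ x, ∑ y, ∑ w ∈ Finset.univ.erase y, F x y x w) +
    (∑ x, ∑ y, ∑ z ∈ Finset.univ.erase x, F x y z y) +
    (∑ x, ∑ y, ∑ z ∈ Finset.univ.erase x, ∑ w ∈ Finset.univ.erase y, F x y z w) := by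
  simp only [← Finset.sum_add_distrib]
  refine Finset.sum_congr rfl fun x _ => Finset.sum_congr rfl fun y _ => ?_
  rw [← Finset.add_sum_erase _ _ (Finset.mem_univ x),
    ← Finset.add_sum_erase _ _ (Finset.mem_univ y), add_assoc (F x y x y + _),
    ← Finset.sum_add_distrib]
  congr 1
  refine Finset.sum_congr rfl fun z _ => ?_
  rw [← Finset.add_sum_erase _ _ (Finset.mem_univ y)]

variable {R} {h : V} (hL : ∀ x z, R.L x z h = 0) (hR : ∀ x z, R.Rt x z h = 0)

include hL hR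

lemma a_comm_h (x y z w : P) : R.a x y (R.a z w h) = R.a z w (R.a x y h) := by
  rw [a_a, hL, hR]; simp

omit hR in
lemma L_a_h (x z u w : P) : R.L x z (R.a u w h) =
    (if z = u then R.a x w h else 0) - (if x = u then R.a z w h else 0) := by
  rw [L_a, hL, map_zero, zero_add]

omit hL in
lemma R_a_h (y w x u : P) : R.Rt y w (R.a x u h) =
    (if w = u then R.a x y h else 0) - (if y = u then R.a x w h else 0) := by
  rw [R_a, hR, map_zero, zero_add]

omit hL in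
lemma N_col (x y y' : P) : ‖R.a x y h‖ ^ 2 = ‖R.a x y' h‖ ^ 2 := by
  by_cases hy : y = y'
  · rw [hy]
  refine iso1 (R.Rt y y') (R.skew _ _) ?_ ?_
  · rw [R_a_h hR, if_neg (Ne.symm hy), if_pos rfl, zero_sub]
  · rw [R_a_h hR, if_pos rfl, if_neg hy, sub_zero]

omit hR in
lemma N_row (x x' y : P) : ‖R.a x y h‖ ^ 2 = ‖R.a x' y h‖ ^ 2 := by
  by_cases hx : x = x'
  · rw [hx]
  refine iso1 (R.L x x') (R.skew _ _) ?_ ?_
  · rw [L_a_h hL, if_neg (Ne.symm hx), if_pos rfl, zero_sub]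
  · rw [L_a_h hL, if_pos rfl, if_neg hx, sub_zero]

lemma N_all (x x' y y' : P) : ‖R.a x y h‖ ^ 2 = ‖R.a x' y' h‖ ^ 2 := by
  rw [N_row hL x x' y, N_col hR x' y y']

/-- Second-order isotropy in the columns. -/
lemma F_col {x y y' : P} (hy : y ≠ y') :
    ‖R.a x y (R.a x y h)‖ ^ 2 = ‖R.a x y' (R.a x y' h)‖ ^ 2 ∧
    ‖R.a x y (R.a x y h)‖ ^ 2 = 2 * ‖R.a x y (R.a x y' h)‖ ^ 2 +
      ⟪R.a x y (R.a x y h), R.a x y' (R.a x y' h)⟫ := by
  refine iso2 (R.Rt y y') (R.skew _ _) ?_ ?_ ?_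
  · rw [R_a, R_a_h hR, if_neg (Ne.symm hy), if_pos rfl, if_neg (Ne.symm hy), if_pos rfl,
      zero_sub, zero_sub, map_neg, a_comm_h hL hR x y' x y]
    module
  · rw [R_a, R_a_h hR, if_neg hy, if_pos rfl, if_neg hy, if_pos rfl,
      sub_zero, sub_zero, a_comm_h hL hR x y' x y]
    module
  · rw [R_a, R_a_h hR, if_pos rfl, if_neg hy, if_neg (Ne.symm hy), if_pos rfl]
    simp [sub_eq_add_neg]

/-- Second-order isotropy in the rows. -/
lemma F_row {x x' y : P} (hx : x ≠ x') :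
    ‖R.a x y (R.a x y h)‖ ^ 2 = ‖R.a x' y (R.a x' y h)‖ ^ 2 ∧
    ‖R.a x y (R.a x y h)‖ ^ 2 = 2 * ‖R.a x y (R.a x' y h)‖ ^ 2 +
      ⟪R.a x y (R.a x y h), R.a x' y (R.a x' y h)⟫ := by
  refine iso2 (R.L x x') (R.skew _ _) ?_ ?_ ?_
  · rw [L_a, L_a_h hL, if_neg (Ne.symm hx), if_pos rfl, if_neg (Ne.symm hx), if_pos rfl,
      zero_sub, zero_sub, map_neg, a_comm_h hL hR x' y x y]
    module
  · rw [L_a, L_a_h hL, if_neg hx, if_pos rfl, if_neg hx, if_pos rfl,
      sub_zero, sub_zero, a_comm_h hL hR x' y x y]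
    module
  · rw [L_a, L_a_h hL, if_pos rfl, if_neg hx, if_neg (Ne.symm hx), if_pos rfl]
    simp [sub_eq_add_neg]

/-- Isotropy of the row sums `M x z = ∑ y, a x y (a z y h)`. -/
lemma M_row {x x' : P} (hx : x ≠ x') :
    ‖∑ y, R.a x y (R.a x y h)‖ ^ 2 = 2 * ‖∑ y, R.a x y (R.a x' y h)‖ ^ 2 +
      ⟪∑ y, R.a x y (R.a x y h), ∑ y, R.a x' y (R.a x' y h)⟫ := by
  refine (iso2 (R.L x x') (R.skew _ _) ?_ ?_ ?_).2
  · rw [map_sum, Finset.smul_sum]
    refine Finset.sum_congr rfl fun y _ => ?_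
    rw [L_a, L_a_h hL, if_neg (Ne.symm hx), if_pos rfl, if_neg (Ne.symm hx), if_pos rfl,
      zero_sub, zero_sub, map_neg, a_comm_h hL hR x' y x y]
    module
  · rw [map_sum, Finset.smul_sum]
    refine Finset.sum_congr rfl fun y _ => ?_
    rw [L_a, L_a_h hL, if_neg hx, if_pos rfl, if_neg hx, if_pos rfl,
      sub_zero, sub_zero, a_comm_h hL hR x' y x y]
    module
  · rw [map_sum, ← Finset.sum_sub_distrib]
    refine Finset.sum_congr rfl fun y _ => ?_
    rw [L_a, L_a_h hL, if_pos rfl, if_neg hx, if_neg (Ne.symm hx), if_pos rfl]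
    simp [sub_eq_add_neg]

/-- One-index move for the off-diagonal products. -/
lemma D_col {x z y y' w : P} (hy : y ≠ w) (hy' : y' ≠ w) :
    ‖R.a x y (R.a z w h)‖ ^ 2 = ‖R.a x y' (R.a z w h)‖ ^ 2 := by
  by_cases hyy : y = y'
  · rw [hyy]
  refine iso1 (R.Rt y y') (R.skew _ _) ?_ ?_
  · rw [R_a, R_a_h hR, if_neg hy', if_neg hy, if_neg (Ne.symm hyy), if_pos rfl]
    simp
  · rw [R_a, R_a_h hR, if_neg hy', if_neg hy, if_neg hyy, if_pos rfl]
    simp

lemma D_all (hp : 3 ≤ Fintype.card P) {x z y w y' w' : P} (h1 : y ≠ w) (h2 : y' ≠ w') :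
    ‖R.a x y (R.a z w h)‖ ^ 2 = ‖R.a x y' (R.a z w' h)‖ ^ 2 := by
  have m1 : ∀ {p q p' : P}, p ≠ q → p' ≠ q →
      ‖R.a x p (R.a z q h)‖ ^ 2 = ‖R.a x p' (R.a z q h)‖ ^ 2 := fun h3 h4 => D_col hL hR h3 h4
  have m2 : ∀ {p q q' : P}, p ≠ q → p ≠ q' →
      ‖R.a x p (R.a z q h)‖ ^ 2 = ‖R.a x p (R.a z q' h)‖ ^ 2 := by
    intro p q q' h3 h4
    rw [a_comm_h hL hR x p z q, a_comm_h hL hR x p z q']
    exact D_col hL hR h3.symm h4.symm
  by_cases hyw : y' = w
  · obtain ⟨t, ht1, ht2⟩ : ∃ t, t ≠ y ∧ t ≠ w := by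
      have : 2 < Fintype.card P := by omega
      obtain ⟨t, ht⟩ := (Finset.exists_mem_notMem_of_card_lt_card (s := {y, w})
        (t := (Finset.univ : Finset P)) (by
          rw [Finset.card_univ]
          exact lt_of_le_of_lt (Finset.card_le_two) this))
      refine ⟨t, ?_, ?_⟩
      · intro h'; exact ht.2 (by simp [h'])
      · intro h'; exact ht.2 (by simp [h'])
    rw [m2 h1 (Ne.symm ht1), m1 (Ne.symm ht1) (hyw ▸ Ne.symm ht2 : y' ≠ t),
      m2 (hyw ▸ Ne.symm ht2 : y' ≠ t) h2]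
  · rw [m1 h1 hyw, m2 hyw h2]

/-- The Casimir operator of `so(P ⊕ P)` on an invariant vector. -/
lemma cas_h : R.cas h = -∑ x, ∑ y, R.a x y (R.a x y h) := by
  rw [R.cas_apply, Fintype.sum_sum_type]
  simp only [Fintype.sum_sum_type]
  have e1 : ∀ x y, R.A (Sum.inl x) (Sum.inl y) h = 0 := hL
  have e2 : ∀ x y, R.A (Sum.inr x) (Sum.inr y) h = 0 := hR
  have e3 : ∀ x y, R.A (Sum.inr x) (Sum.inl y) (R.A (Sum.inr x) (Sum.inl y) h) =
      R.a y x (R.a y x h) := by
    intro x y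
    rw [R.anti (Sum.inl y) (Sum.inr x)]
    simp
  simp only [e1, e2, e3, map_zero, Finset.sum_const_zero, zero_add, add_zero]
  rw [Finset.sum_comm (f := fun x y => R.a y x (R.a y x h)), ← two_smul ℝ, smul_smul]
  norm_num

lemma sum_N : ∑ x, ∑ y, ‖R.a x y h‖ ^ 2 = ⟪R.cas h, h⟫ := by
  rw [cas_h hL hR, inner_neg_left, sum_inner, ← Finset.sum_neg_distrib]
  refine Finset.sum_congr rfl fun x _ => ?_
  rw [sum_inner, ← Finset.sum_neg_distrib]
  refine Finset.sum_congr rfl fun y _ => ?_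
  rw [R.skew, neg_neg, real_inner_self_eq_norm_sq]

lemma sum_S (z w : P) : ∑ x, ∑ y, ‖R.a x y (R.a z w h)‖ ^ 2 =
    ⟪R.cas (R.a z w h), R.a z w h⟫ - 2 * ((Fintype.card P : ℝ) - 1) * ‖R.a z w h‖ ^ 2 := by
  rw [R.cas_inner_self, Fintype.sum_sum_type]
  simp only [Fintype.sum_sum_type, Finset.sum_add_distrib]
  have e3 : ∀ x y, ‖R.A (Sum.inr x) (Sum.inl y) (R.a z w h)‖ ^ 2 =
      ‖R.a y x (R.a z w h)‖ ^ 2 := by
    intro x y
    rw [R.anti (Sum.inl y) (Sum.inr x)]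
    simp
  have e1 : ∀ x y, ‖R.A (Sum.inl x) (Sum.inl y) (R.a z w h)‖ ^ 2 =
      (if y = z then ‖R.a z w h‖ ^ 2 else 0) + (if x = z then ‖R.a z w h‖ ^ 2 else 0) -
      2 * (if x = z then (if y = z then ‖R.a z w h‖ ^ 2 else 0) else 0) := by
    intro x y
    have := L_a_h hL x y z w
    rw [this]
    by_cases h1 : y = z
    · by_cases h2 : x = z
      · subst h1; subst h2; simp; ring
      · simp only [h1, h2, if_true, if_false, sub_zero, add_zero, mul_zero]
        exact N_row hL _ _ _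
    · by_cases h2 : x = z
      · simp only [h1, h2, if_true, if_false, sub_zero, add_zero, mul_zero, zero_add, zero_sub,
          norm_neg]
        exact N_row hL _ _ _
      · simp [h1, h2]
  have e2 : ∀ x y, ‖R.A (Sum.inr x) (Sum.inr y) (R.a z w h)‖ ^ 2 =
      (if y = w then ‖R.a z w h‖ ^ 2 else 0) + (if x = w then ‖R.a z w h‖ ^ 2 else 0) -
      2 * (if x = w then (if y = w then ‖R.a z w h‖ ^ 2 else 0) else 0) := by
    intro x y
    have := R_a_h hR x y z w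
    rw [this]
    by_cases h1 : y = w
    · by_cases h2 : x = w
      · subst h1; subst h2; simp; ring
      · simp only [h1, h2, if_true, if_false, sub_zero, add_zero, mul_zero]
        exact N_col hR _ _ _
    · by_cases h2 : x = w
      · simp only [h1, h2, if_true, if_false, sub_zero, add_zero, mul_zero, zero_add, zero_sub,
          norm_neg]
        exact N_col hR _ _ _
      · simp [h1, h2]
  simp only [e1, e2, e3, Finset.sum_add_distrib, Finset.sum_sub_distrib, ← Finset.mul_sum]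
  rw [Finset.sum_comm (f := fun x y => ‖R.a y x (R.a z w h)‖ ^ 2)]
  simp only [Finset.sum_ite_eq', Finset.mem_univ, if_true, Finset.sum_const, Finset.card_univ,
    nsmul_eq_mul]
  simp only [Finset.sum_ite_irrel, Finset.sum_const_zero, Finset.sum_ite_eq', Finset.mem_univ,
    if_true, Finset.sum_const, Finset.card_univ, nsmul_eq_mul, mul_ite, mul_zero]
  ring

lemma sum_R_a (z y : P) : ∑ w, R.Rt y w (R.a z w h) =
    ((Fintype.card P : ℝ) - 1) • R.a z y h := by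
  have : ∀ w, R.Rt y w (R.a z w h) = R.a z y h - (if y = w then R.a z w h else 0) := by
    intro w
    rw [R_a_h hR, if_pos rfl]
  simp only [this, Finset.sum_sub_distrib, Finset.sum_ite_eq, Finset.mem_univ, if_true,
    Finset.sum_const, Finset.card_univ]
  rw [sub_smul, one_smul, Nat.cast_smul_eq_nsmul]

lemma M_bound {c : ℝ} (hc : R.cas h = c • h) (z : P) :
    ∑ x, ‖∑ y, R.a x y (R.a z y h)‖ ^ 2 ≤
      (c + ((Fintype.card P : ℝ) - 1) ^ 2) * ∑ y, ‖R.a z y h‖ ^ 2 := by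
  have h1 := R.omega_ineq' (Sum.elim (fun _ => 0) (fun y => R.a z y h))
  simp only [Fintype.sum_sum_type, Sum.elim_inl, Sum.elim_inr, map_zero,
    Finset.sum_const_zero, zero_add, inner_zero_left, add_zero] at h1
  have e1 : ∀ y, ∑ w, R.A (Sum.inr y) (Sum.inr w) (R.a z w h) =
      ((Fintype.card P : ℝ) - 1) • R.a z y h := fun y => sum_R_a hL hR z y
  have e2 : ∀ y, ⟪R.cas (R.a z y h), R.a z y h⟫ = c * ‖R.a z y h‖ ^ 2 := by
    intro y
    rw [R.cas_comm, hc, map_smul, inner_smul_left, real_inner_self_eq_norm_sq]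
    simp
  simp only [e1, e2, norm_smul, mul_pow, inner_smul_right, real_inner_self_eq_norm_sq,
    Real.norm_eq_abs, sq_abs, ← Finset.mul_sum, Fintype.card_sum] at h1
  push_cast at h1
  nlinarith [h1]

/-- The row inequality. -/
lemma row_ineq {c : ℝ} (hc : R.cas h = c • h) :
    ((Fintype.card P : ℝ) + 1) * (∑ x, ∑ y, ‖R.a x y (R.a x y h)‖ ^ 2 +
      ∑ x, ∑ y, ∑ w ∈ Finset.univ.erase y, ⟪R.a x y (R.a x y h), R.a x w (R.a x w h)⟫) -
      (∑ x, ∑ y, ∑ z ∈ Finset.univ.erase x, ⟪R.a x y (R.a x y h), R.a z y (R.a z y h)⟫ +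
      ∑ x, ∑ y, ∑ z ∈ Finset.univ.erase x, ∑ w ∈ Finset.univ.erase y,
        ‖R.a x y (R.a z w h)‖ ^ 2) ≤
      2 * ((c + ((Fintype.card P : ℝ) - 1) ^ 2) * (c * ‖h‖ ^ 2)) := by
  have h1 : ∑ z, ∑ x, ‖∑ y, R.a x y (R.a z y h)‖ ^ 2 ≤
      (c + ((Fintype.card P : ℝ) - 1) ^ 2) * (c * ‖h‖ ^ 2) := by
    refine (Finset.sum_le_sum fun z _ => M_bound hL hR hc z).trans (le_of_eq ?_)
    rw [← Finset.mul_sum, sum_N hL hR, hc, inner_smul_left, real_inner_self_eq_norm_sq]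
    simp
  rw [Finset.sum_comm] at h1
  have h2 : ∀ x, ∑ z, ‖∑ y, R.a x y (R.a z y h)‖ ^ 2 = ‖∑ y, R.a x y (R.a x y h)‖ ^ 2 +
      ∑ z ∈ Finset.univ.erase x, ‖∑ y, R.a x y (R.a z y h)‖ ^ 2 := fun x =>
    (Finset.add_sum_erase _ _ (Finset.mem_univ x)).symm
  have h3 : ∀ x, ((Fintype.card P : ℝ) - 1) * ‖∑ y, R.a x y (R.a x y h)‖ ^ 2 =
      2 * ∑ z ∈ Finset.univ.erase x, ‖∑ y, R.a x y (R.a z y h)‖ ^ 2 +
      ∑ z ∈ Finset.univ.erase x, ⟪∑ y, R.a x y (R.a x y h), ∑ y, R.a z y (R.a z y h)⟫ := by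
    intro x
    have : ∀ z ∈ Finset.univ.erase x, ‖∑ y, R.a x y (R.a x y h)‖ ^ 2 =
        2 * ‖∑ y, R.a x y (R.a z y h)‖ ^ 2 +
      ⟪∑ y, R.a x y (R.a x y h), ∑ y, R.a z y (R.a z y h)⟫ := fun z hz =>
      M_row hL hR (Finset.ne_of_mem_erase hz).symm
    have h4 := Finset.sum_congr rfl this
    rw [Finset.sum_const, Finset.card_erase_of_mem (Finset.mem_univ x), Finset.card_univ,
      Finset.sum_add_distrib, ← Finset.mul_sum, nsmul_eq_mul] at h4
    rw [← h4, Nat.cast_sub (Fintype.card_pos_iff.2 ⟨x⟩)]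
    simp
  have h5 : ∀ x, ‖∑ y, R.a x y (R.a x y h)‖ ^ 2 = ∑ y, ‖R.a x y (R.a x y h)‖ ^ 2 +
      ∑ y, ∑ w ∈ Finset.univ.erase y, ⟪R.a x y (R.a x y h), R.a x w (R.a x w h)⟫ := by
    intro x
    rw [← real_inner_self_eq_norm_sq, sum_inner, ← Finset.sum_add_distrib]
    refine Finset.sum_congr rfl fun y _ => ?_
    rw [inner_sum, ← Finset.add_sum_erase _ _ (Finset.mem_univ y), real_inner_self_eq_norm_sq]
  have h6 : ∀ x, ∑ z ∈ Finset.univ.erase x,
      ⟪∑ y, R.a x y (R.a x y h), ∑ y, R.a z y (R.a z y h)⟫ =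
      ∑ y, ∑ z ∈ Finset.univ.erase x, ⟪R.a x y (R.a x y h), R.a z y (R.a z y h)⟫ +
      ∑ y, ∑ z ∈ Finset.univ.erase x, ∑ w ∈ Finset.univ.erase y,
        ‖R.a x y (R.a z w h)‖ ^ 2 := by
    intro x
    rw [← Finset.sum_add_distrib]
    simp only [← Finset.sum_add_distrib]
    rw [Finset.sum_comm]
    refine Finset.sum_congr rfl fun z hz => ?_
    rw [sum_inner]
    refine Finset.sum_congr rfl fun y _ => ?_
    rw [inner_sum, ← Finset.add_sum_erase _ _ (Finset.mem_univ y)]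
    congr 1
    refine Finset.sum_congr rfl fun w hw => ?_
    have hxz := (Finset.ne_of_mem_erase hz).symm
    have hyw := (Finset.ne_of_mem_erase hw).symm
    rw [R.skew, a_a_off R hxz hyw, a_a_off R hxz hyw, R.skew', neg_neg,
      real_inner_self_eq_norm_sq]
  simp only [h2] at h1
  rw [Finset.sum_add_distrib] at h1
  have h7 := Finset.sum_congr rfl (fun x (_ : x ∈ Finset.univ) => h3 x)
  rw [← Finset.mul_sum, Finset.sum_add_distrib, ← Finset.mul_sum] at h7
  simp only [h6, h5, Finset.sum_add_distrib] at h7 h1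
  linarith

end second

end Pool.Agent.K3h92
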