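import Pool.Agent.K3h92.Second

/-!
# The second-moment bound: conclusion
-/

set_option autoImplicit false
set_option linter.unusedSimpArgs false
set_option linter.unusedSectionVars false

open scoped RealInnerProductSpace

namespace Pool.Agent.K3h92

section pullcas

variable {ι ι' : Type} [Fintype ι] [Fintype ι'] [DecidableEq ι] [DecidableEq ι'] {V : Type}
  [NormedAddCommGroup V] [InnerProductSpace ℝ V]

lemma LieRep.pull_cas (R : LieRep ι V) (e : ι' ≃ ι) (v : V) :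
    (R.pull e e.injective).cas v = R.cas v := by
  rw [LieRep.cas_apply, LieRep.cas_apply]
  simp only [LieRep.pull_A]
  congr 1
  rw [e.sum_comp (fun a => ∑ b, R.A a (e b) (R.A a (e b) v))]
  exact Finset.sum_congr rfl fun a _ => e.sum_comp (fun b => R.A a b (R.A a b v))

end pullcas

section second

variable {P : Type} [Fintype P] [DecidableEq P] {V : Type} [NormedAddCommGroup V]
  [InnerProductSpace ℝ V] {R : LieRep (P ⊕ P) V}
  {h : V} (hL : ∀ x z, R.L x z h = 0) (hR : ∀ x z, R.Rt x z h = 0)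

/-- The representation with the two copies exchanged. -/
def LieRep.sw (R : LieRep (P ⊕ P) V) : LieRep (P ⊕ P) V :=
  R.pull (Equiv.sumComm P P) (Equiv.sumComm P P).injective

lemma sw_L (x z : P) : R.sw.L x z = R.Rt x z := rfl

lemma sw_Rt (x z : P) : R.sw.Rt x z = R.L x z := rfl

lemma sw_a (x z : P) : R.sw.a x z = -R.a z x := R.anti _ _

lemma sw_a_a (x y z w : P) (v : V) : R.sw.a x y (R.sw.a z w v) = R.a y x (R.a w z v) := by
  rw [sw_a, sw_a]; simp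

include hL hR

/-- The column inequality. -/
lemma col_ineq {c : ℝ} (hc : R.cas h = c • h) :
    ((Fintype.card P : ℝ) + 1) * (∑ x, ∑ y, ‖R.a x y (R.a x y h)‖ ^ 2 +
      ∑ x, ∑ y, ∑ z ∈ Finset.univ.erase x, ⟪R.a x y (R.a x y h), R.a z y (R.a z y h)⟫) -
      (∑ x, ∑ y, ∑ w ∈ Finset.univ.erase y, ⟪R.a x y (R.a x y h), R.a x w (R.a x w h)⟫ +
      ∑ x, ∑ y, ∑ z ∈ Finset.univ.erase x, ∑ w ∈ Finset.univ.erase y,
        ‖R.a x y (R.a z w h)‖ ^ 2) ≤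
      2 * ((c + ((Fintype.card P : ℝ) - 1) ^ 2) * (c * ‖h‖ ^ 2)) := by
  have hc' : R.sw.cas h = c • h := by
    rw [← hc]
    exact R.pull_cas (Equiv.sumComm P P) h
  have h1 := row_ineq (R := R.sw) (h := h) (fun x z => hR x z) (fun x z => hL x z) hc'
  simp only [sw_a_a] at h1
  have e1 : ∑ x, ∑ y, ‖R.a y x (R.a y x h)‖ ^ 2 = ∑ x, ∑ y, ‖R.a x y (R.a x y h)‖ ^ 2 :=
    Finset.sum_comm
  have e2 : ∑ x, ∑ y, ∑ w ∈ Finset.univ.erase y, ⟪R.a y x (R.a y x h), R.a w x (R.a w x h)⟫ =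
      ∑ x, ∑ y, ∑ z ∈ Finset.univ.erase x, ⟪R.a x y (R.a x y h), R.a z y (R.a z y h)⟫ :=
    Finset.sum_comm
  have e3 : ∑ x, ∑ y, ∑ z ∈ Finset.univ.erase x, ⟪R.a y x (R.a y x h), R.a y z (R.a y z h)⟫ =
      ∑ x, ∑ y, ∑ w ∈ Finset.univ.erase y, ⟪R.a x y (R.a x y h), R.a x w (R.a x w h)⟫ :=
    Finset.sum_comm
  have e4 : ∑ x, ∑ y, ∑ z ∈ Finset.univ.erase x, ∑ w ∈ Finset.univ.erase y,
        ‖R.a y x (R.a w z h)‖ ^ 2 = ∑ x, ∑ y, ∑ z ∈ Finset.univ.erase x,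
        ∑ w ∈ Finset.univ.erase y, ‖R.a x y (R.a z w h)‖ ^ 2 := by
    rw [Finset.sum_comm]
    refine Finset.sum_congr rfl fun x _ => Finset.sum_congr rfl fun y _ => ?_
    exact Finset.sum_comm
  rw [e1, e2, e3, e4] at h1
  exact h1

lemma id_two_col : ((Fintype.card P : ℝ) - 1) * ∑ x, ∑ y, ‖R.a x y (R.a x y h)‖ ^ 2 =
    2 * ∑ x, ∑ y, ∑ w ∈ Finset.univ.erase y, ‖R.a x y (R.a x w h)‖ ^ 2 +
    ∑ x, ∑ y, ∑ w ∈ Finset.univ.erase y, ⟪R.a x y (R.a x y h), R.a x w (R.a x w h)⟫ := by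
  simp only [Finset.mul_sum, ← Finset.sum_add_distrib]
  refine Finset.sum_congr rfl fun x _ => Finset.sum_congr rfl fun y _ => ?_
  have : ∀ w ∈ Finset.univ.erase y, 2 * ‖R.a x y (R.a x w h)‖ ^ 2 +
      ⟪R.a x y (R.a x y h), R.a x w (R.a x w h)⟫ = ‖R.a x y (R.a x y h)‖ ^ 2 := fun w hw =>
    (F_col hL hR (Finset.ne_of_mem_erase hw).symm).2.symm
  rw [Finset.sum_congr rfl this, Finset.sum_const, Finset.card_erase_of_mem (Finset.mem_univ y),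
    Finset.card_univ, nsmul_eq_mul, Nat.cast_sub (Fintype.card_pos_iff.2 ⟨x⟩)]
  simp

lemma id_two_row : ((Fintype.card P : ℝ) - 1) * ∑ x, ∑ y, ‖R.a x y (R.a x y h)‖ ^ 2 =
    2 * ∑ x, ∑ y, ∑ z ∈ Finset.univ.erase x, ‖R.a x y (R.a z y h)‖ ^ 2 +
    ∑ x, ∑ y, ∑ z ∈ Finset.univ.erase x, ⟪R.a x y (R.a x y h), R.a z y (R.a z y h)⟫ := by
  simp only [Finset.mul_sum, ← Finset.sum_add_distrib]
  refine Finset.sum_congr rfl fun x _ => Finset.sum_congr rfl fun y _ => ?_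
  have : ∀ z ∈ Finset.univ.erase x, 2 * ‖R.a x y (R.a z y h)‖ ^ 2 +
      ⟪R.a x y (R.a x y h), R.a z y (R.a z y h)⟫ = ‖R.a x y (R.a x y h)‖ ^ 2 := fun w hw =>
    (F_row hL hR (Finset.ne_of_mem_erase hw).symm).2.symm
  rw [Finset.sum_congr rfl this, Finset.sum_const, Finset.card_erase_of_mem (Finset.mem_univ x),
    Finset.card_univ, nsmul_eq_mul, Nat.cast_sub (Fintype.card_pos_iff.2 ⟨x⟩)]
  simp

lemma id_one {c : ℝ} (hc : R.cas h = c • h) :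
    ∑ x, ∑ y, ‖R.a x y (R.a x y h)‖ ^ 2 +
    ∑ x, ∑ y, ∑ w ∈ Finset.univ.erase y, ‖R.a x y (R.a x w h)‖ ^ 2 +
    ∑ x, ∑ y, ∑ z ∈ Finset.univ.erase x, ‖R.a x y (R.a z y h)‖ ^ 2 +
    ∑ x, ∑ y, ∑ z ∈ Finset.univ.erase x, ∑ w ∈ Finset.univ.erase y,
        ‖R.a x y (R.a z w h)‖ ^ 2 =
    (c - 2 * ((Fintype.card P : ℝ) - 1)) * (c * ‖h‖ ^ 2) := by
  rw [← split4 (fun x y z w => ‖R.a x y (R.a z w h)‖ ^ 2)]
  have e0 : ∑ x, ∑ y, ∑ z, ∑ w, ‖R.a x y (R.a z w h)‖ ^ 2 =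
      ∑ z, ∑ w, ∑ x, ∑ y, ‖R.a x y (R.a z w h)‖ ^ 2 := by
    have e1 : ∀ x, ∑ y, ∑ z, ∑ w, ‖R.a x y (R.a z w h)‖ ^ 2 =
        ∑ z, ∑ w, ∑ y, ‖R.a x y (R.a z w h)‖ ^ 2 := by
      intro x
      rw [Finset.sum_comm]
      exact Finset.sum_congr rfl fun z _ => Finset.sum_comm
    simp only [e1]
    rw [Finset.sum_comm]
    exact Finset.sum_congr rfl fun z _ => Finset.sum_comm
  have e2 : ∀ z w, ∑ x, ∑ y, ‖R.a x y (R.a z w h)‖ ^ 2 =
      (c - 2 * ((Fintype.card P : ℝ) - 1)) * ‖R.a z w h‖ ^ 2 := by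
    intro z w
    rw [sum_S hL hR, R.cas_comm, hc, map_smul, inner_smul_left, real_inner_self_eq_norm_sq]
    simp only [conj_trivial]
    ring
  rw [e0]
  simp only [e2, ← Finset.mul_sum]
  rw [sum_N hL hR, hc, inner_smul_left, real_inner_self_eq_norm_sq]
  simp

lemma G_off {x y z w : P} (hxz : x ≠ z) (hyw : y ≠ w) :
    ⟪R.a x y (R.a x y h), R.a z w (R.a z w h)⟫ = ‖R.a x y (R.a z w h)‖ ^ 2 := by
  have e1 : R.a x y (R.a z w (R.a z w h)) = R.a z w (R.a z w (R.a x y h)) := by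
    rw [a_a_off R hxz hyw, a_a_off R hxz hyw]
  have e2 : ⟪R.a x y (R.a x y h), R.a z w (R.a z w h)⟫ =
      -⟪R.a x y h, R.a x y (R.a z w (R.a z w h))⟫ := R.skew _ _ _ _
  have e3 : ⟪R.a x y h, R.a z w (R.a z w (R.a x y h))⟫ =
      -⟪R.a z w (R.a x y h), R.a z w (R.a x y h)⟫ := R.skew' _ _ _ _
  rw [e2, e1, e3, neg_neg, real_inner_self_eq_norm_sq, a_comm_h hL hR x y z w]

lemma id_three {c : ℝ} (hc : R.cas h = c • h) :
    ∑ x, ∑ y, ‖R.a x y (R.a x y h)‖ ^ 2 +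
    ∑ x, ∑ y, ∑ w ∈ Finset.univ.erase y, ⟪R.a x y (R.a x y h), R.a x w (R.a x w h)⟫ +
    ∑ x, ∑ y, ∑ z ∈ Finset.univ.erase x, ⟪R.a x y (R.a x y h), R.a z y (R.a z y h)⟫ +
    ∑ x, ∑ y, ∑ z ∈ Finset.univ.erase x, ∑ w ∈ Finset.univ.erase y,
        ‖R.a x y (R.a z w h)‖ ^ 2 =
    c ^ 2 * ‖h‖ ^ 2 := by
  have h1 : ‖R.cas h‖ ^ 2 = c ^ 2 * ‖h‖ ^ 2 := by
    rw [hc, norm_smul, mul_pow, Real.norm_eq_abs, sq_abs]
  rw [cas_h hL hR, norm_neg, ← real_inner_self_eq_norm_sq, sum_inner] at h1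
  rw [← h1]
  have h2 := split4 (fun x y z w => ⟪R.a x y (R.a x y h), R.a z w (R.a z w h)⟫)
  have h3 : ∑ x, ⟪∑ y, R.a x y (R.a x y h), ∑ x, ∑ y, R.a x y (R.a x y h)⟫ =
      ∑ x, ∑ y, ∑ z, ∑ w, ⟪R.a x y (R.a x y h), R.a z w (R.a z w h)⟫ := by
    refine Finset.sum_congr rfl fun x _ => ?_
    rw [sum_inner]
    refine Finset.sum_congr rfl fun y _ => ?_
    rw [inner_sum]
    refine Finset.sum_congr rfl fun z _ => ?_
    rw [inner_sum]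
  rw [h3, h2]
  simp only [real_inner_self_eq_norm_sq]
  congr 1
  refine Finset.sum_congr rfl fun x _ => Finset.sum_congr rfl fun y _ =>
    Finset.sum_congr rfl fun z hz => Finset.sum_congr rfl fun w hw => ?_
  exact (G_off hL hR (Finset.ne_of_mem_erase hz).symm (Finset.ne_of_mem_erase hw).symm).symm

lemma sum_diag_F : (Fintype.card P : ℝ) * ∑ q, ‖R.a q q (R.a q q h)‖ ^ 2 =
    ∑ x, ∑ y, ‖R.a x y (R.a x y h)‖ ^ 2 := by
  rw [Finset.mul_sum]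
  refine Finset.sum_congr rfl fun x _ => ?_
  have : ∀ y ∈ Finset.univ, ‖R.a x y (R.a x y h)‖ ^ 2 = ‖R.a x x (R.a x x h)‖ ^ 2 := by
    intro y _
    by_cases hy : y = x
    · rw [hy]
    · exact (F_col hL hR hy).1
  rw [Finset.sum_congr rfl this, Finset.sum_const, Finset.card_univ, nsmul_eq_mul]

lemma sum_diag_D (hp : 3 ≤ Fintype.card P) :
    (Fintype.card P : ℝ) * ((Fintype.card P : ℝ) - 1) *
      ∑ q, ∑ q' ∈ Finset.univ.erase q, ‖R.a q q (R.a q' q' h)‖ ^ 2 =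
    ∑ x, ∑ y, ∑ z ∈ Finset.univ.erase x, ∑ w ∈ Finset.univ.erase y,
        ‖R.a x y (R.a z w h)‖ ^ 2 := by
  rw [Finset.mul_sum]
  refine Finset.sum_congr rfl fun x _ => ?_
  rw [Finset.sum_comm, Finset.mul_sum]
  refine Finset.sum_congr rfl fun z hz => ?_
  have hxz := (Finset.ne_of_mem_erase hz).symm
  have : ∀ y ∈ Finset.univ, ∑ w ∈ Finset.univ.erase y, ‖R.a x y (R.a z w h)‖ ^ 2 =
      ((Fintype.card P : ℝ) - 1) * ‖R.a x x (R.a z z h)‖ ^ 2 := by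
    intro y _
    have h1 : ∀ w ∈ Finset.univ.erase y, ‖R.a x y (R.a z w h)‖ ^ 2 =
        ‖R.a x x (R.a z z h)‖ ^ 2 := fun w hw =>
      D_all hL hR hp (Finset.ne_of_mem_erase hw).symm hxz
    rw [Finset.sum_congr rfl h1, Finset.sum_const,
      Finset.card_erase_of_mem (Finset.mem_univ y),
      Finset.card_univ, nsmul_eq_mul, Nat.cast_sub (Fintype.card_pos_iff.2 ⟨x⟩)]
    simp
  rw [Finset.sum_congr rfl this, Finset.sum_const, Finset.card_univ, nsmul_eq_mul]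
  ring

lemma norm_X : ‖∑ q, R.a q q (R.a q q h)‖ ^ 2 = ∑ q, ‖R.a q q (R.a q q h)‖ ^ 2 +
    ∑ q, ∑ q' ∈ Finset.univ.erase q, ‖R.a q q (R.a q' q' h)‖ ^ 2 := by
  rw [← real_inner_self_eq_norm_sq, sum_inner, ← Finset.sum_add_distrib]
  refine Finset.sum_congr rfl fun q _ => ?_
  rw [inner_sum, ← Finset.add_sum_erase _ _ (Finset.mem_univ q), real_inner_self_eq_norm_sq]
  congr 1
  refine Finset.sum_congr rfl fun w hw => ?_
  have hyw := (Finset.ne_of_mem_erase hw).symm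
  exact G_off hL hR hyw hyw

/-- The bound on the second moment. -/
lemma Q_bound (hp : 4 ≤ Fintype.card P) {c : ℝ} (hc : R.cas h = c • h) (hc0 : 0 ≤ c) :
    (Fintype.card P : ℝ) ^ 2 * ((Fintype.card P : ℝ) + 2) ^ 2 *
      ‖∑ q, R.a q q (R.a q q h)‖ ^ 2 ≤
      (Fintype.card P : ℝ) * ((Fintype.card P : ℝ) + 8) * (c ^ 2 * ‖h‖ ^ 2) := by
  have i1 := id_one hL hR hc
  have i2 := id_two_col hL hR
  have i2' := id_two_row hL hR
  have i3 := id_three hL hR hc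
  have i4 := row_ineq hL hR hc
  have i4' := col_ineq hL hR hc
  have i5 := sum_diag_F hL hR
  have i6 := sum_diag_D hL hR (by omega)
  have i7 := norm_X hL hR
  set p : ℝ := (Fintype.card P : ℝ) with hpdef
  have hp4 : (4 : ℝ) ≤ p := by
    rw [hpdef]; exact_mod_cast hp
  set F := ∑ x, ∑ y, ‖R.a x y (R.a x y h)‖ ^ 2
  set G1 := ∑ x, ∑ y, ∑ w ∈ Finset.univ.erase y, ⟪R.a x y (R.a x y h), R.a x w (R.a x w h)⟫
  set G2 := ∑ x, ∑ y, ∑ z ∈ Finset.univ.erase x, ⟪R.a x y (R.a x y h), R.a z y (R.a z y h)⟫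
  set D := ∑ x, ∑ y, ∑ z ∈ Finset.univ.erase x, ∑ w ∈ Finset.univ.erase y,
        ‖R.a x y (R.a z w h)‖ ^ 2
  set S1 := ∑ x, ∑ y, ∑ w ∈ Finset.univ.erase y, ‖R.a x y (R.a x w h)‖ ^ 2
  set S2 := ∑ x, ∑ y, ∑ z ∈ Finset.univ.erase x, ‖R.a x y (R.a z y h)‖ ^ 2
  set f := ∑ q, ‖R.a q q (R.a q q h)‖ ^ 2
  set d := ∑ q, ∑ q' ∈ Finset.univ.erase q, ‖R.a q q (R.a q' q' h)‖ ^ 2
  set H := ‖h‖ ^ 2
  have hH : 0 ≤ H := sq_nonneg _
  rw [i7]
  -- `G1 + G2` in terms of `F`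
  have g1 : G1 + G2 = 2 / 3 * (p - 1) * (F + 2 * (c * H)) := by
    linarith
  have g2 : D = c ^ 2 * H - F - (G1 + G2) := by linarith
  have g3 : (p + 2) ^ 2 / 3 * F ≤ 3 * (c ^ 2 * H) + 2 * (c * H) * (p - 1) ^ 2 -
      2 / 3 * (p + 2) * (p - 1) * (c * H) := by
    nlinarith [i4, i4', g1, g2]
  have g4 : p * (p - 1) * (f + d) = c ^ 2 * H + F * (p - 4) / 3 -
      4 / 3 * (p - 1) * (c * H) := by
    have : p * (p - 1) * (f + d) = (p - 1) * F + D := by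
      rw [← i5, ← i6]; ring
    rw [this, g2, g1]
    ring
  have hcH : 0 ≤ c * H := mul_nonneg hc0 hH
  have g5 : p * (p - 1) * (f + d) * (p + 2) ^ 2 ≤ (p - 1) * (p + 8) * (c ^ 2 * H) := by
    rw [g4]
    have e1 : (c ^ 2 * H + F * (p - 4) / 3 - 4 / 3 * (p - 1) * (c * H)) * (p + 2) ^ 2 =
        c ^ 2 * H * (p + 2) ^ 2 + (p - 4) * ((p + 2) ^ 2 / 3 * F) -
          4 / 3 * (p - 1) * (c * H) * (p + 2) ^ 2 := by ring
    rw [e1]
    have e2 := mul_le_mul_of_nonneg_left g3 (by linarith : (0:ℝ) ≤ p - 4)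
    have e3 : (p - 4) * (3 * (c ^ 2 * H) + 2 * (c * H) * (p - 1) ^ 2 -
      2 / 3 * (p + 2) * (p - 1) * (c * H)) - 4 / 3 * (p - 1) * (c * H) * (p + 2) ^ 2 +
      c ^ 2 * H * (p + 2) ^ 2 = (p - 1) * (p + 8) * (c ^ 2 * H) -
        (c * H) * ((p - 1) * (14 * p - 8)) := by
      ring
    have e4 : 0 ≤ (c * H) * ((p - 1) * (14 * p - 8)) := by
      apply mul_nonneg hcH
      apply mul_nonneg <;> linarith
    linarith
  have g6 : (p - 1) * (p ^ 2 * (p + 2) ^ 2 * (f + d)) ≤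
      (p - 1) * (p * (p + 8) * (c ^ 2 * H)) := by
    have := mul_le_mul_of_nonneg_left g5 (by linarith : (0:ℝ) ≤ p)
    nlinarith [this]
  exact le_of_mul_le_mul_left g6 (by linarith)

end second

end Pool.Agent.K3h92
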