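import Pool.Agent.K3h92.Encode
import Pool.Agent.K3lead.SmallBias

/-!
# Derandomised squaring and operations on families with small averages
-/

set_option autoImplicit false
set_option linter.unusedSimpArgs false
set_option linter.unusedSectionVars false

open Matrix
open scoped RealInnerProductSpace

namespace Pool.Agent.K3h92

section vv

variable {V : Type} [NormedAddCommGroup V] [InnerProductSpace ℝ V] [FiniteDimensional ℝ V]

/-- The expander mixing inequality for a map `B`. -/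
def Mixing {b d : ℕ} (B : (Fin d → ZMod 2) → (Fin b → ZMod 2)) (μ : ℝ) : Prop :=
  ∀ f g : (Fin b → ZMod 2) → ℝ, ∑ x, f x = 0 →
    |∑ x, ∑ u, f x * g (x + B u)| ≤
      ((2 : ℝ) ^ d * μ) * (Real.sqrt (∑ x, f x ^ 2) * Real.sqrt (∑ x, g x ^ 2))

lemma Mixing.vv {b d : ℕ} {B : (Fin d → ZMod 2) → (Fin b → ZMod 2)} {μ : ℝ} (hμ : 0 ≤ μ)
    (h : Mixing B μ) (F G : (Fin b → ZMod 2) → V) (h0 : ∑ x, F x = 0) :
    ∑ x, ∑ u, ⟪F x, G (x + B u)⟫ ≤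
      ((2 : ℝ) ^ d * μ) * (Real.sqrt (∑ x, ‖F x‖ ^ 2) * Real.sqrt (∑ x, ‖G x‖ ^ 2)) := by
  set e := stdOrthonormalBasis ℝ V with he
  have h1 : ∀ x y : V, ⟪x, y⟫ = ∑ i, ⟪e i, x⟫ * ⟪e i, y⟫ := by
    intro x y
    rw [← e.sum_inner_mul_inner x y]
    refine Finset.sum_congr rfl fun i _ => ?_
    rw [real_inner_comm x]
  have h2 : ∀ x : V, ‖x‖ ^ 2 = ∑ i, ⟪e i, x⟫ ^ 2 := by
    intro x
    rw [← real_inner_self_eq_norm_sq, h1]
    refine Finset.sum_congr rfl fun i _ => ?_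
    ring
  have h3 : ∑ x, ∑ u, ⟪F x, G (x + B u)⟫ =
      ∑ i, ∑ x, ∑ u, ⟪e i, F x⟫ * ⟪e i, G (x + B u)⟫ := by
    have e1 : ∑ x, ∑ u, ⟪F x, G (x + B u)⟫ =
        ∑ x, ∑ u, ∑ i, ⟪e i, F x⟫ * ⟪e i, G (x + B u)⟫ :=
      Finset.sum_congr rfl fun x _ => Finset.sum_congr rfl fun u _ => h1 _ _
    rw [e1]
    have e2 : ∀ x, ∑ u, ∑ i, ⟪e i, F x⟫ * ⟪e i, G (x + B u)⟫ =
        ∑ i, ∑ u, ⟪e i, F x⟫ * ⟪e i, G (x + B u)⟫ := fun x => Finset.sum_comm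
    rw [Finset.sum_congr rfl fun x _ => e2 x]
    exact Finset.sum_comm
  rw [h3]
  have h4 : ∀ i, ∑ x, ∑ u, ⟪e i, F x⟫ * ⟪e i, G (x + B u)⟫ ≤ ((2 : ℝ) ^ d * μ) *
      (Real.sqrt (∑ x, ⟪e i, F x⟫ ^ 2) * Real.sqrt (∑ x, ⟪e i, G x⟫ ^ 2)) := by
    intro i
    refine (le_abs_self _).trans (h (fun x => ⟪e i, F x⟫) (fun x => ⟪e i, G x⟫) ?_)
    rw [← inner_sum, h0, inner_zero_right]
  refine (Finset.sum_le_sum fun i _ => h4 i).trans ?_
  rw [← Finset.mul_sum]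
  refine mul_le_mul_of_nonneg_left ?_ (by positivity)
  have h5 := Finset.sum_mul_sq_le_sq_mul_sq Finset.univ
    (fun i => Real.sqrt (∑ x, ⟪e i, F x⟫ ^ 2)) (fun i => Real.sqrt (∑ x, ⟪e i, G x⟫ ^ 2))
  have h6 : ∀ H : (Fin b → ZMod 2) → V, ∑ i, Real.sqrt (∑ x, ⟪e i, H x⟫ ^ 2) ^ 2 =
      ∑ x, ‖H x‖ ^ 2 := by
    intro H
    simp only [h2]
    rw [Finset.sum_comm]
    refine Finset.sum_congr rfl fun i _ => ?_
    rw [Real.sq_sqrt (Finset.sum_nonneg fun x _ => sq_nonneg _)]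
  rw [h6, h6] at h5
  refine le_of_sq_le_sq ?_ (by positivity)
  rw [mul_pow, Real.sq_sqrt (Finset.sum_nonneg fun x _ => sq_nonneg _),
    Real.sq_sqrt (Finset.sum_nonneg fun x _ => sq_nonneg _)]
  exact h5

/-- Variance. -/
lemma sum_sub_mean {X : Type} [Fintype X] [Nonempty X] (F : X → V) (s : ℝ)
    (hF : ∀ x, ‖F x‖ = s) (m : V) (hm : ∑ x, F x = (Fintype.card X : ℝ) • m) :
    ∑ x, ‖F x - m‖ ^ 2 = Fintype.card X * (s ^ 2 - ‖m‖ ^ 2) := by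
  have h1 : ∀ x, ‖F x - m‖ ^ 2 = s ^ 2 - 2 * ⟪F x, m⟫ + ‖m‖ ^ 2 := by
    intro x
    rw [norm_sub_sq_real, hF]
  simp only [h1, Finset.sum_add_distrib, Finset.sum_sub_distrib, ← Finset.mul_sum, ← sum_inner,
    hm, inner_smul_left, real_inner_self_eq_norm_sq, Finset.sum_const, Finset.card_univ,
    nsmul_eq_mul, conj_trivial]
  ring

end vv

section sq

variable {ι : Type} [Fintype ι] [DecidableEq ι]

lemma SORep.ρ_mem_orth {V : Type} [NormedAddCommGroup V] [InnerProductSpace ℝ V]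
    (R : SORep ι V) (g : SO ι) {v : V} (hv : v ∈ R.InvAllᗮ) : R.ρ g v ∈ R.InvAllᗮ := by
  rw [Submodule.mem_orthogonal] at hv ⊢
  intro u hu
  rw [real_inner_comm, R.inner_ρ_left, real_inner_comm]
  exact hv _ (R.ρ_mem_InvAll hu)

/-- **Derandomised squaring.** -/
theorem AvgLe.square {b d : ℕ} {B : (Fin d → ZMod 2) → (Fin b → ZMod 2)} {μ : ℝ} (hμ : 0 ≤ μ)
    (hμ1 : μ ≤ 1) (hB : Mixing B μ) {S : (Fin b → ZMod 2) → SO ι} {l : ℝ} (hl : 0 ≤ l)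
    (hS : AvgLe ι S l) :
    AvgLe ι (fun p : (Fin b → ZMod 2) × (Fin d → ZMod 2) => S p.1 * S (p.1 + B p.2))
      ((1 - μ) * l ^ 2 + μ) := by
  intro V _ _ _ R v hv
  set z := ∑ p : (Fin b → ZMod 2) × (Fin d → ZMod 2), R.ρ (S p.1 * S (p.1 + B p.2)) v with hz
  have hzI : z ∈ R.InvAllᗮ := Submodule.sum_mem _ fun p _ => R.ρ_mem_orth _ hv
  set N : ℝ := (Fintype.card (Fin b → ZMod 2) : ℝ) with hN
  have hN0 : 0 < N := by rw [hN]; exact_mod_cast Fintype.card_pos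
  have hD : (Fintype.card (Fin d → ZMod 2) : ℝ) = 2 ^ d := by simp [ZMod.card]
  -- the two vector-valued functions and their means
  set F : (Fin b → ZMod 2) → V := fun x => R.ρ (S x) v with hF
  set G : (Fin b → ZMod 2) → V := fun x => R.ρ (S x)⁻¹ z with hG
  set mF : V := N⁻¹ • ∑ x, F x with hmF
  set mG : V := N⁻¹ • ∑ x, G x with hmG
  have hsF : ∑ x, F x = N • mF := by rw [hmF, smul_smul, mul_inv_cancel₀ hN0.ne', one_smul]
  have hsG : ∑ x, G x = N • mG := by rw [hmG, smul_smul, mul_inv_cancel₀ hN0.ne', one_smul]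
  have hnF : ‖mF‖ ≤ l * ‖v‖ := by
    have h1 := hS V R v hv
    rw [hmF, norm_smul, norm_inv, Real.norm_of_nonneg hN0.le]
    rw [inv_mul_le_iff₀ hN0]
    calc ‖∑ x, F x‖ ≤ l * N * ‖v‖ := h1
      _ = _ := by ring
  have hmGI : mG ∈ R.InvAllᗮ := Submodule.smul_mem _ _ (Submodule.sum_mem _ fun x _ =>
    R.ρ_mem_orth _ hzI)
  have hnG : ‖mG‖ ≤ l * ‖z‖ := by
    have h1 : ‖mG‖ * ‖mG‖ = N⁻¹ * ⟪z, ∑ x, R.ρ (S x) mG⟫ := by
      rw [← real_inner_self_eq_norm_mul_norm]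
      have e1 : ⟪mG, mG⟫ = N⁻¹ * ⟪∑ x, G x, mG⟫ := by
        nth_rewrite 1 [hmG]
        rw [inner_smul_left]
        simp
      rw [e1, sum_inner, inner_sum]
      congr 1
      refine Finset.sum_congr rfl fun x _ => ?_
      rw [hG]
      simp only
      rw [R.inner_ρ_left, inv_inv]
    have h2 := hS V R mG hmGI
    have h3 : ‖mG‖ * ‖mG‖ ≤ (l * ‖z‖) * ‖mG‖ := by
      rw [h1]
      calc N⁻¹ * ⟪z, ∑ x, R.ρ (S x) mG⟫ ≤ N⁻¹ * (‖z‖ * (l * N * ‖mG‖)) := by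
            gcongr
            exact (real_inner_le_norm _ _).trans (by gcongr)
        _ = _ := by field_simp
    rcases (norm_nonneg mG).eq_or_lt with h4 | h4
    · rw [← h4]; positivity
    · exact le_of_mul_le_mul_right h3 h4
  -- expansion of `‖z‖²`
  have hz2 : ‖z‖ ^ 2 = ∑ x, ∑ u, ⟪G x, F (x + B u)⟫ := by
    rw [← real_inner_self_eq_norm_sq]
    conv_lhs => rw [hz]
    rw [← hz, sum_inner, Fintype.sum_prod_type]
    refine Finset.sum_congr rfl fun x _ => Finset.sum_congr rfl fun u _ => ?_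
    rw [R.ρ_mul, R.inner_ρ_left, real_inner_comm]
  have hexp : ∑ x, ∑ u, ⟪G x, F (x + B u)⟫ = 2 ^ d * (N * ⟪mG, mF⟫) +
      ∑ x, ∑ u, ⟪G x - mG, F (x + B u) - mF⟫ := by
    have h1 : ∀ x u, ⟪G x - mG, F (x + B u) - mF⟫ = ⟪G x, F (x + B u)⟫ - ⟪G x, mF⟫ -
        ⟪mG, F (x + B u)⟫ + ⟪mG, mF⟫ := by
      intro x u
      simp only [inner_sub_left, inner_sub_right]; ring
    simp only [h1, Finset.sum_add_distrib, Finset.sum_sub_distrib]
    have h2 : ∑ x, ∑ u : (Fin d → ZMod 2), ⟪G x, mF⟫ = 2 ^ d * (N * ⟪mG, mF⟫) := by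
      simp only [Finset.sum_const, Finset.card_univ, nsmul_eq_mul, ← Finset.mul_sum,
        ← sum_inner, hsG, inner_smul_left, hD, conj_trivial]
    have h3 : ∑ x, ∑ u : (Fin d → ZMod 2), ⟪mG, F (x + B u)⟫ = 2 ^ d * (N * ⟪mG, mF⟫) := by
      rw [Finset.sum_comm]
      have h4 : ∀ u : (Fin d → ZMod 2), ∑ x, ⟪mG, F (x + B u)⟫ = N * ⟪mG, mF⟫ := by
        intro u
        have e1 : ∑ x, ⟪mG, F (x + B u)⟫ = ∑ x, ⟪mG, F x⟫ :=
          Equiv.sum_comp (Equiv.addRight (B u) : (Fin b → ZMod 2) ≃ (Fin b → ZMod 2))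
            (fun x => ⟪mG, F x⟫)
        rw [e1, ← inner_sum, hsF, inner_smul_right]
      simp only [h4, Finset.sum_const, Finset.card_univ, nsmul_eq_mul, hD]
    have h5 : ∑ x : (Fin b → ZMod 2), ∑ u : (Fin d → ZMod 2), ⟪mG, mF⟫ =
        2 ^ d * (N * ⟪mG, mF⟫) := by
      simp only [Finset.sum_const, Finset.card_univ, nsmul_eq_mul, hD, ← hN]
      ring
    rw [h2, h3, h5]
    ring
  have hmix := hB.vv hμ (fun x => G x - mG) (fun x => F x - mF) (by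
    rw [Finset.sum_sub_distrib, hsG]
    simp only [Finset.sum_const, Finset.card_univ, ← hN]
    rw [← Nat.cast_smul_eq_nsmul ℝ, ← hN, sub_self])
  have hvF := sum_sub_mean F ‖v‖ (fun x => R.norm_ρ _ _) mF hsF
  have hvG := sum_sub_mean G ‖z‖ (fun x => R.norm_ρ _ _) mG hsG
  rw [← hN] at hvF hvG
  rw [hvF, hvG] at hmix
  -- final estimate
  set Z := ‖z‖ with hZ
  set Y := ‖v‖ with hY
  set p := ‖mG‖ with hp
  set q := ‖mF‖ with hq
  have hp0 : 0 ≤ p := norm_nonneg _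
  have hq0 : 0 ≤ q := norm_nonneg _
  have hZ0 : 0 ≤ Z := norm_nonneg _
  have hY0 : 0 ≤ Y := norm_nonneg _
  have hpZ : 0 ≤ Z ^ 2 - p ^ 2 := by
    have : 0 ≤ N * (Z ^ 2 - p ^ 2) := by
      rw [← hvG]; exact Finset.sum_nonneg fun x _ => sq_nonneg _
    exact nonneg_of_mul_nonneg_right this hN0
  have hqY : 0 ≤ Y ^ 2 - q ^ 2 := by
    have : 0 ≤ N * (Y ^ 2 - q ^ 2) := by
      rw [← hvF]; exact Finset.sum_nonneg fun x _ => sq_nonneg _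
    exact nonneg_of_mul_nonneg_right this hN0
  have hroot : Real.sqrt (N * (Z ^ 2 - p ^ 2)) * Real.sqrt (N * (Y ^ 2 - q ^ 2)) =
      N * (Real.sqrt (Z ^ 2 - p ^ 2) * Real.sqrt (Y ^ 2 - q ^ 2)) := by
    rw [Real.sqrt_mul hN0.le, Real.sqrt_mul hN0.le]
    calc Real.sqrt N * Real.sqrt (Z ^ 2 - p ^ 2) * (Real.sqrt N * Real.sqrt (Y ^ 2 - q ^ 2)) =
        (Real.sqrt N * Real.sqrt N) * (Real.sqrt (Z ^ 2 - p ^ 2) * Real.sqrt (Y ^ 2 - q ^ 2)) := by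
          ring
      _ = _ := by rw [Real.mul_self_sqrt hN0.le]
  rw [hroot] at hmix
  set s := Real.sqrt (Z ^ 2 - p ^ 2) with hs
  set t := Real.sqrt (Y ^ 2 - q ^ 2) with ht
  have hs2 : s ^ 2 = Z ^ 2 - p ^ 2 := Real.sq_sqrt hpZ
  have ht2 : t ^ 2 = Y ^ 2 - q ^ 2 := Real.sq_sqrt hqY
  have hs0 : 0 ≤ s := Real.sqrt_nonneg _
  have ht0 : 0 ≤ t := Real.sqrt_nonneg _
  have hcs : p * q + s * t ≤ Z * Y := by
    have : (p * q + s * t) ^ 2 ≤ (Z * Y) ^ 2 := by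
      nlinarith [sq_nonneg (p * t - q * s)]
    exact le_of_sq_le_sq this (by positivity)
  have hpq : p * q ≤ l ^ 2 * (Z * Y) := by
    calc p * q ≤ (l * Z) * (l * Y) := by gcongr
      _ = _ := by ring
  have hin : ⟪mG, mF⟫ ≤ p * q := real_inner_le_norm _ _
  have h2d : (0:ℝ) < 2 ^ d := by positivity
  have hfin : Z ^ 2 ≤ 2 ^ d * N * (((1 - μ) * l ^ 2 + μ) * (Z * Y)) := by
    rw [hz2, hexp]
    calc 2 ^ d * (N * ⟪mG, mF⟫) + ∑ x, ∑ u, ⟪G x - mG, F (x + B u) - mF⟫ ≤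
        2 ^ d * (N * (p * q)) + 2 ^ d * μ * (N * (s * t)) := by
          gcongr
      _ = 2 ^ d * N * ((1 - μ) * (p * q) + μ * (p * q + s * t)) := by ring
      _ ≤ 2 ^ d * N * ((1 - μ) * (l ^ 2 * (Z * Y)) + μ * (Z * Y)) := by
          gcongr
      _ = _ := by ring
  have hcard : (Fintype.card ((Fin b → ZMod 2) × (Fin d → ZMod 2)) : ℝ) = 2 ^ d * N := by
    rw [Fintype.card_prod, Nat.cast_mul, hD, ← hN]; ring
  rw [hcard]
  have hcoef : 0 ≤ (1 - μ) * l ^ 2 + μ := by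
    have : 0 ≤ (1 - μ) * l ^ 2 := mul_nonneg (by linarith) (sq_nonneg l)
    linarith
  rcases hZ0.eq_or_lt with h4 | h4
  · rw [← h4]; positivity
  · have : Z * Z ≤ (((1 - μ) * l ^ 2 + μ) * (2 ^ d * N) * Y) * Z := by nlinarith
    exact le_of_mul_le_mul_right this h4

end sq

end Pool.Agent.K3h92
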