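import Pool.Agent.K3h92.Defs

/-!
# Topology of `SO(ι)`: a compact second countable topological group, with its Haar probability.
-/

set_option autoImplicit false

open Matrix MeasureTheory

namespace Pool.Agent.K3h92

variable {ι : Type} [Fintype ι] [DecidableEq ι]

lemma SO.coe_inv (g : SO ι) : ((g⁻¹ : SO ι) : Matrix ι ι ℝ) = (g : Matrix ι ι ℝ)ᵀ := rfl

lemma SO.mem_iff (g : Matrix ι ι ℝ) : g ∈ SO ι ↔ gᵀ * g = 1 ∧ g.det = 1 := by
  rw [SO, Matrix.mem_specialOrthogonalGroup_iff, Matrix.mem_orthogonalGroup_iff']

instance : IsTopologicalGroup (SO ι) where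
  continuous_mul := by
    exact continuous_mul
  continuous_inv := by
    refine Continuous.subtype_mk ?_ _
    exact (Continuous.matrix_transpose continuous_subtype_val)

lemma SO.abs_entry_le (g : SO ι) (a b : ι) : |(g : Matrix ι ι ℝ) a b| ≤ 1 := by
  have h := ((SO.mem_iff _).1 g.2).1
  have h1 := congrFun (congrFun h b) b
  rw [Matrix.mul_apply, Matrix.one_apply_eq] at h1
  simp only [Matrix.transpose_apply] at h1
  have h2 : (g : Matrix ι ι ℝ) a b * (g : Matrix ι ι ℝ) a b ≤ 1 := by
    rw [← h1]
    exact Finset.single_le_sum (f := fun j => (g : Matrix ι ι ℝ) j b * (g : Matrix ι ι ℝ) j b)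
      (fun i _ => mul_self_nonneg _) (Finset.mem_univ a)
  exact abs_le_one_iff_mul_self_le_one.mpr h2

lemma SO.isClosed : IsClosed ((SO ι : Submonoid (Matrix ι ι ℝ)) : Set (Matrix ι ι ℝ)) := by
  have : ((SO ι : Submonoid (Matrix ι ι ℝ)) : Set (Matrix ι ι ℝ)) =
      {g | gᵀ * g = 1} ∩ {g | g.det = 1} := by
    ext g
    exact SO.mem_iff g
  rw [this]
  refine IsClosed.inter ?_ ?_
  · exact isClosed_eq (by fun_prop) continuous_const
  · exact isClosed_eq (by fun_prop) continuous_const

lemma SO.isCompact : IsCompact ((SO ι : Submonoid (Matrix ι ι ℝ)) : Set (Matrix ι ι ℝ)) := by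
  have hK : IsCompact (Set.pi Set.univ (fun _ : ι => Set.pi Set.univ (fun _ : ι =>
      Set.Icc (-1:ℝ) 1)) : Set (ι → ι → ℝ)) :=
    isCompact_univ_pi (fun _ => isCompact_univ_pi (fun _ => isCompact_Icc))
  refine IsCompact.of_isClosed_subset hK SO.isClosed ?_
  intro g hg a _ b _
  exact abs_le.1 (SO.abs_entry_le ⟨g, hg⟩ a b)

instance : CompactSpace (SO ι) := isCompact_iff_compactSpace.1 SO.isCompact

instance : SecondCountableTopology (SO ι) :=
  inferInstanceAs (SecondCountableTopology {x : ι → ι → ℝ // x ∈ SO ι})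

instance : T2Space (SO ι) :=
  inferInstanceAs (T2Space {x : ι → ι → ℝ // x ∈ SO ι})

instance : MeasurableSpace (SO ι) := borel _

instance : BorelSpace (SO ι) := ⟨rfl⟩

variable (ι) in
/-- The Haar probability measure of `SO(ι)`. -/
noncomputable def haarSO : Measure (SO ι) := Measure.haarMeasure ⊤

instance : IsProbabilityMeasure (haarSO ι) :=
  ⟨by have := Measure.haarMeasure_self (K₀ := (⊤ : TopologicalSpace.PositiveCompacts (SO ι)))
      simpa [haarSO] using this⟩

instance : Measure.IsHaarMeasure (haarSO ι) := by unfold haarSO; infer_instance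

lemma haarSO_unique (ν : Measure (SO ι)) [IsProbabilityMeasure ν] [Measure.IsMulLeftInvariant ν] :
    ν = haarSO ι := by
  have h := Measure.isMulInvariant_eq_smul_of_compactSpace ν (haarSO ι)
  have h1 : ν Set.univ = 1 := measure_univ
  rw [h, Measure.smul_apply] at h1
  have h2 : (haarSO ι) Set.univ = 1 := measure_univ
  rw [h2] at h1
  have h3 : Measure.haarScalarFactor ν (haarSO ι) = 1 := by
    simpa using h1
  rw [h3, one_smul] at h
  exact h

instance : Measure.IsMulRightInvariant (haarSO ι) := by
  constructor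
  intro g
  have hc : Measurable (fun x : SO ι => x * g) := (continuous_mul_const g).measurable
  have i1 : IsProbabilityMeasure ((haarSO ι).map (fun x => x * g)) :=
    Measure.isProbabilityMeasure_map hc.aemeasurable
  have i2 : Measure.IsMulLeftInvariant ((haarSO ι).map (fun x => x * g)) := by
    constructor
    intro h
    rw [Measure.map_map (by fun_prop) hc]
    have : (fun x : SO ι => h * x) ∘ (fun x => x * g) = (fun x => x * g) ∘ (fun x => h * x) := by
      ext x; simp [mul_assoc]
    rw [this, ← Measure.map_map hc (by fun_prop), map_mul_left_eq_self]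
  exact haarSO_unique _

instance : Measure.IsInvInvariant (haarSO ι) := by
  constructor
  have i1 : IsProbabilityMeasure (haarSO ι).inv := by
    rw [Measure.inv_def]
    exact Measure.isProbabilityMeasure_map measurable_inv.aemeasurable
  exact haarSO_unique _

end Pool.Agent.K3h92
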