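import Pool.Agent.K3h92.Chain2

/-!
# Balanced commutator trees
-/

set_option autoImplicit false
set_option linter.unusedSimpArgs false
set_option linter.unusedSectionVars false

open Matrix
open scoped RealInnerProductSpace

namespace Pool.Agent.K3h92

/-- The balanced commutator tree of depth `q`. -/
def bal {G : Type} [Group G] : ℕ → (ℕ → G) → G
  | 0, f => f 0
  | (q + 1), f => bal q (fun n => f (2 * n)) * bal q (fun n => f (2 * n + 1)) *
      (bal q (fun n => f (2 * n)))⁻¹ * (bal q (fun n => f (2 * n + 1)))⁻¹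

section

variable {G H : Type} [Group G] [Group H]

lemma bal_surj (h : ∀ g : G, ∃ a b, g = a * b * a⁻¹ * b⁻¹) (q : ℕ) :
    ∀ g : G, ∃ f, bal q f = g := by
  induction q with
  | zero => intro g; exact ⟨fun _ => g, rfl⟩
  | succ q ih =>
    intro g
    obtain ⟨a, b, hg⟩ := h g
    obtain ⟨fa, hfa⟩ := ih a
    obtain ⟨fb, hfb⟩ := ih b
    refine ⟨fun n => if n % 2 = 0 then fa (n / 2) else fb (n / 2), ?_⟩
    have e1 : (fun n => (fun n => if n % 2 = 0 then fa (n / 2) else fb (n / 2)) (2 * n)) =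
        fa := by
      funext n
      have h1 : 2 * n % 2 = 0 := by omega
      have h2 : 2 * n / 2 = n := by omega
      simp only [h1, if_true, h2]
    have e2 : (fun n => (fun n => if n % 2 = 0 then fa (n / 2) else fb (n / 2)) (2 * n + 1)) =
        fb := by
      funext n
      have h1 : ¬ ((2 * n + 1) % 2 = 0) := by omega
      have h2 : (2 * n + 1) / 2 = n := by omega
      simp only [h1, if_false, h2]
    rw [bal, e1, e2, hfa, hfb, hg]

lemma bal_map (φ : G →* H) (q : ℕ) : ∀ f : ℕ → G, φ (bal q f) = bal q (fun n => φ (f n)) := by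
  induction q with
  | zero => intro f; rfl
  | succ q ih =>
    intro f
    rw [bal, bal, map_mul, map_mul, map_mul, map_inv, map_inv, ih, ih]

lemma bal_one (q : ℕ) : ∀ f : ℕ → G, (∃ n, n < 2 ^ q ∧ f n = 1) → bal q f = 1 := by
  induction q with
  | zero =>
    rintro f ⟨n, hn, hf⟩
    have : n = 0 := by simpa using hn
    rw [bal, ← this, hf]
  | succ q ih =>
    rintro f ⟨n, hn, hf⟩
    rw [bal]
    rcases Nat.even_or_odd' n with ⟨m, hm | hm⟩
    · have : bal q (fun n => f (2 * n)) = 1 := by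
        apply ih
        exact ⟨m, by rw [pow_succ] at hn; omega, by rw [← hm, hf]⟩
      rw [this]; simp
    · have : bal q (fun n => f (2 * n + 1)) = 1 := by
        apply ih
        exact ⟨m, by rw [pow_succ] at hn; omega, by rw [← hm, hf]⟩
      rw [this]; simp

end

lemma sum_range_even_odd (g : ℕ → ℝ) (m : ℕ) :
    ∑ n ∈ Finset.range (2 * m), g n =
      ∑ n ∈ Finset.range m, g (2 * n) + ∑ n ∈ Finset.range m, g (2 * n + 1) := by
  induction m with
  | zero => simp
  | succ m ih =>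
    rw [show 2 * (m + 1) = 2 * m + 1 + 1 by ring, Finset.sum_range_succ, Finset.sum_range_succ,
      ih, Finset.sum_range_succ, Finset.sum_range_succ]
    ring

section

variable {ι : Type} [Fintype ι] [DecidableEq ι] {V : Type}
  [NormedAddCommGroup V] [InnerProductSpace ℝ V] (R : SORep ι V)

lemma bal_disp (v : V) (q : ℕ) : ∀ f : ℕ → SO ι,
    ‖R.ρ (bal q f) v - v‖ ≤ 2 ^ q * ∑ n ∈ Finset.range (2 ^ q), ‖R.ρ (f n) v - v‖ := by
  induction q with
  | zero => intro f; simp [bal]
  | succ q ih =>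
    intro f
    rw [bal]
    set A := bal q (fun n => f (2 * n))
    set B := bal q (fun n => f (2 * n + 1))
    have h1 := R.disp_mul (A * B * A⁻¹) B⁻¹ v
    have h2 := R.disp_mul (A * B) A⁻¹ v
    have h3 := R.disp_mul A B v
    rw [R.disp_inv] at h1 h2
    have h4 := ih (fun n => f (2 * n))
    have h5 := ih (fun n => f (2 * n + 1))
    rw [show Finset.range (2 ^ (q + 1)) = Finset.range (2 * 2 ^ q) by rw [pow_succ'],
      sum_range_even_odd, pow_succ' (2:ℝ) q]
    nlinarith

end

section encode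

variable {κ : Type} [Fintype κ] [DecidableEq κ] {r : ℕ} (q : ℕ)

/-- The leaf functions restricted to half-spaces. -/
def sgen (L : Bits r → ℕ → SO κ) (l : ℕ) (b : ZMod 2) : Bits r → SO κ := fun x =>
  if h : l < r then (if x ⟨l, h⟩ = b then L x l else 1) else L x l

/-- The bits of `u`, extended by `0`. -/
def ubit (u : Bits r) (l : ℕ) : ZMod 2 := if h : l < r then u ⟨l, h⟩ else 0

lemma bits_add_self (u : Bits r) : u + u = 0 := by
  funext i
  have : ∀ a : ZMod 2, a + a = 0 := by decide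
  exact this (u i)

lemma encode_eq {q : ℕ} (hr : r ≤ 2 ^ q) (L : Bits r → ℕ → SO κ) (S : Bits r → SO κ)
    (hL : ∀ u, bal q (L u) = S u) (y u : Bits r) :
    bal q (fun l => (fun x => sgen L l (ubit u l) (x + (u + y)))) = Pi.mulSingle y (S u) := by
  funext x
  have h1 := bal_map (Pi.evalMonoidHom (fun _ : Bits r => SO κ) x) q
    (fun l => (fun x => sgen L l (ubit u l) (x + (u + y))))
  simp only [Pi.evalMonoidHom_apply] at h1
  rw [h1]
  by_cases hx : x = y
  · subst hx
    rw [Pi.mulSingle_eq_same, ← hL u]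
    congr 1
    funext l
    have h2 : x + (u + x) = u := by
      rw [add_comm u x, ← add_assoc, bits_add_self, zero_add]
    rw [h2]
    unfold sgen ubit
    by_cases h3 : l < r
    · simp [h3]
    · simp [h3]
  · rw [Pi.mulSingle_eq_of_ne hx]
    apply bal_one
    obtain ⟨l, hl⟩ := Function.ne_iff.1 hx
    refine ⟨l, lt_of_lt_of_le l.2 hr, ?_⟩
    unfold sgen ubit
    rw [dif_pos l.2, dif_pos l.2, if_neg]
    intro h3
    apply hl
    have h4 : x l + (u l + y l) = u l := h3
    have : ∀ a b c : ZMod 2, a + (b + c) = b → a = c := by decide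
    exact this _ _ _ h4

/-- The encoded generators. -/
def enc (L : Bits r → ℕ → SO κ) (j : Fin (2 ^ q) × ZMod 2) : SO (κ × Bits r) :=
  blk (sgen L j.1 j.2)

variable {V : Type} [NormedAddCommGroup V] [InnerProductSpace ℝ V]
  (R : SORep (κ × Bits r) V)

/-- The total displacement by the translates of the encoded generators. -/
def totDisp (L : Bits r → ℕ → SO κ) (w : V) : ℝ :=
  ∑ t : Bits r, ∑ l ∈ Finset.range (2 ^ q), ∑ b : ZMod 2,
    ‖R.ρ (blk (fun x => sgen L l b (x + t))) w - w‖ ^ 2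

lemma row_disp {q : ℕ} (hr : r ≤ 2 ^ q) (L : Bits r → ℕ → SO κ) (S : Bits r → SO κ)
    (hL : ∀ u, bal q (L u) = S u) (y : Bits r) (w : V) :
    ∑ u : Bits r, ‖R.ρ (SO.ext (fun c : κ => (c, y)) (row_inj y) (S u)) w - w‖ ^ 2 ≤
      (2 ^ q) ^ 3 * totDisp q R L w := by
  have h1 : ∀ u : Bits r, ‖R.ρ (SO.ext (fun c : κ => (c, y)) (row_inj y) (S u)) w - w‖ ^ 2 ≤
      (2 ^ q) ^ 3 * ∑ l ∈ Finset.range (2 ^ q), ∑ b : ZMod 2,
        ‖R.ρ (blk (fun x => sgen L l b (x + (u + y)))) w - w‖ ^ 2 := by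
    intro u
    have e1 : SO.ext (fun c : κ => (c, y)) (row_inj y) (S u) =
        bal q (fun l => blk (fun x => sgen L l (ubit u l) (x + (u + y)))) := by
      rw [ext_row, ← encode_eq hr L S hL y u, bal_map]
    rw [e1]
    have h2 := bal_disp R w q (fun l => blk (fun x => sgen L l (ubit u l) (x + (u + y))))
    have h3 : (∑ l ∈ Finset.range (2 ^ q),
        ‖R.ρ (blk (fun x => sgen L l (ubit u l) (x + (u + y)))) w - w‖) ^ 2 ≤
        2 ^ q * ∑ l ∈ Finset.range (2 ^ q),
        ‖R.ρ (blk (fun x => sgen L l (ubit u l) (x + (u + y)))) w - w‖ ^ 2 := by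
      have := sq_sum_le_card_mul_sum_sq (s := Finset.range (2 ^ q))
        (f := fun l => ‖R.ρ (blk (fun x => sgen L l (ubit u l) (x + (u + y)))) w - w‖)
      simpa using this
    have h4 : ∑ l ∈ Finset.range (2 ^ q),
        ‖R.ρ (blk (fun x => sgen L l (ubit u l) (x + (u + y)))) w - w‖ ^ 2 ≤
        ∑ l ∈ Finset.range (2 ^ q), ∑ b : ZMod 2,
        ‖R.ρ (blk (fun x => sgen L l b (x + (u + y)))) w - w‖ ^ 2 := by
      refine Finset.sum_le_sum fun l _ => ?_
      exact Finset.single_le_sum (f := fun b =>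
        ‖R.ρ (blk (fun x => sgen L l b (x + (u + y)))) w - w‖ ^ 2) (fun b _ => sq_nonneg _)
        (Finset.mem_univ (ubit u l))
    calc _ ≤ (2 ^ q * ∑ l ∈ Finset.range (2 ^ q),
        ‖R.ρ (blk (fun x => sgen L l (ubit u l) (x + (u + y)))) w - w‖) ^ 2 := by gcongr
      _ = (2 ^ q) ^ 2 * (∑ l ∈ Finset.range (2 ^ q),
        ‖R.ρ (blk (fun x => sgen L l (ubit u l) (x + (u + y)))) w - w‖) ^ 2 := by ring
      _ ≤ (2 ^ q) ^ 2 * (2 ^ q * ∑ l ∈ Finset.range (2 ^ q), ∑ b : ZMod 2,
        ‖R.ρ (blk (fun x => sgen L l b (x + (u + y)))) w - w‖ ^ 2) := by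
          gcongr
          exact h3.trans (by gcongr)
      _ = _ := by ring
  refine (Finset.sum_le_sum fun u _ => h1 u).trans ?_
  rw [← Finset.mul_sum]
  unfold totDisp
  refine mul_le_mul_of_nonneg_left (le_of_eq ?_) (by positivity)
  exact Equiv.sum_comp (Equiv.addRight y : Bits r ≃ Bits r)
    (fun t => ∑ l ∈ Finset.range (2 ^ q), ∑ b : ZMod 2,
        ‖R.ρ (blk (fun x => sgen L l b (x + t))) w - w‖ ^ 2)

end encode

end Pool.Agent.K3h92
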